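import Pool.Agent.H62.BL.Alg

/-!
# [H42 WM A] Host-Kra cubes (statements: helper62)
-/

set_option autoImplicit false

open scoped Classical

noncomputable section

namespace H62.BL

section A

variable {P : Type} [Group P] {f : ℕ → Subgroup P} {n i j : ℕ} {x y : (Fin n → Bool) → P} {a c : P}

/-- the common induction: a descending sequence of sets in a group, closed under products, inverses, commutators -/
private structure Fq {G : Type} [Group G] (H : ℕ → G → Prop) : Prop where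
  mul : ∀ i x y, H i x → H i y → H i (x * y)
  inv : ∀ i x, H i x → H i x⁻¹
  mono : ∀ i x, H (i + 1) x → H i x
  com : ∀ i j x y, H i x → H j y → H (i + j) (x * y * x⁻¹ * y⁻¹)

private theorem Fq.le {G : Type} [Group G] {H : ℕ → G → Prop} (h : Fq H) {i j : ℕ} (hij : i ≤ j) {x : G}
    (hx : H j x) : H i x := by
  obtain ⟨k, rfl⟩ := Nat.exists_eq_add_of_le hij
  induction k with
  | zero => exact hx
  | succ k ih => exact ih (Nat.le_add_right _ _) (h.mono _ _ hx)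

private theorem Fq.conj {G : Type} [Group G] {H : ℕ → G → Prop} (h : Fq H) {i j : ℕ} {x y : G}
    (hx : H j x) (hy : H i y) : H i (x * y * x⁻¹) := by
  have h1 := h.com j i x y hx hy
  have h2 := h.mul i _ _ (h.le (Nat.le_add_left i j) h1) hy
  have h3 : x * y * x⁻¹ * y⁻¹ * y = x * y * x⁻¹ := by group
  rwa [h3] at h2

private theorem Fq.mul' {G : Type} [Group G] {H : ℕ → G → Prop} (h : Fq H) {i : ℕ} {x₀ x₁ y₀ y₁ : G}
    (hx0 : H i x₀) (hx1 : H (i + 1) (x₁ * x₀⁻¹)) (hy1 : H (i + 1) (y₁ * y₀⁻¹)) :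
    H (i + 1) (x₁ * y₁ * (x₀ * y₀)⁻¹) := by
  have h1 := h.mul _ _ _ hx1 (h.conj hx0 hy1)
  have h2 : x₁ * x₀⁻¹ * (x₀ * (y₁ * y₀⁻¹) * x₀⁻¹) = x₁ * y₁ * (x₀ * y₀)⁻¹ := by group
  rwa [h2] at h1

private theorem Fq.inv' {G : Type} [Group G] {H : ℕ → G → Prop} (h : Fq H) {i : ℕ} {x₀ x₁ : G}
    (hx0 : H i x₀) (hx1 : H (i + 1) (x₁ * x₀⁻¹)) : H (i + 1) (x₁⁻¹ * x₀⁻¹⁻¹) := by
  have h1 := h.conj (h.inv _ _ hx0) (h.inv _ _ hx1)
  have h2 : x₀⁻¹ * (x₁ * x₀⁻¹)⁻¹ * x₀⁻¹⁻¹ = x₁⁻¹ * x₀⁻¹⁻¹ := by group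
  rwa [h2] at h1

private theorem Fq.com' {G : Type} [Group G] {H : ℕ → G → Prop} (h : Fq H) {i j : ℕ} {x₀ x₁ y₀ y₁ : G}
    (hx0 : H i x₀) (hx1 : H (i + 1) (x₁ * x₀⁻¹)) (hy0 : H j y₀) (hy1 : H (j + 1) (y₁ * y₀⁻¹)) :
    H (i + j + 1) (x₁ * y₁ * x₁⁻¹ * y₁⁻¹ * (x₀ * y₀ * x₀⁻¹ * y₀⁻¹)⁻¹) := by
  obtain ⟨a, rfl⟩ : ∃ a, x₁ = a * x₀ := ⟨x₁ * x₀⁻¹, by group⟩
  obtain ⟨b, rfl⟩ : ∃ b, y₁ = b * y₀ := ⟨y₁ * y₀⁻¹, by group⟩
  rw [mul_inv_cancel_right] at hx1 hy1
  have hc := h.com i j _ _ hx0 hy0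
  have k1 : H (i + j + 1) (x₀ * b * x₀⁻¹ * b⁻¹) := h.com i (j + 1) _ _ hx0 hy1
  have k2 : H (i + j + 1) (a * y₀ * a⁻¹ * y₀⁻¹) := h.le (by omega) (h.com (i + 1) j _ _ hx1 hy0)
  have k3 : H (i + j + 1) (a * b * a⁻¹ * b⁻¹) := h.le (by omega) (h.com (i + 1) (j + 1) _ _ hx1 hy1)
  have k4 := h.le (i := i + j + 1) (by omega) (h.com (j + 1) (i + j) _ _ hy1 hc)
  have k5 := h.le (i := i + j + 1) (by omega) (h.com (i + 1) (i + j) _ _ hx1 hc)
  have h1 := h.mul _ _ _ (h.mul _ _ _ (h.mul _ _ _ (h.conj hx1 k1) (h.conj hx1 k4)) k5)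
    (h.conj hc (h.mul _ _ _ k3 (h.conj hy1 k2)))
  have h2 : a * (x₀ * b * x₀⁻¹ * b⁻¹) * a⁻¹ *
      (a * (b * (x₀ * y₀ * x₀⁻¹ * y₀⁻¹) * b⁻¹ * (x₀ * y₀ * x₀⁻¹ * y₀⁻¹)⁻¹) * a⁻¹) *
      (a * (x₀ * y₀ * x₀⁻¹ * y₀⁻¹) * a⁻¹ * (x₀ * y₀ * x₀⁻¹ * y₀⁻¹)⁻¹) *
      (x₀ * y₀ * x₀⁻¹ * y₀⁻¹ * (a * b * a⁻¹ * b⁻¹ * (b * (a * y₀ * a⁻¹ * y₀⁻¹) * b⁻¹)) *
        (x₀ * y₀ * x₀⁻¹ * y₀⁻¹)⁻¹) =
      a * x₀ * (b * y₀) * (a * x₀)⁻¹ * (b * y₀)⁻¹ * (x₀ * y₀ * x₀⁻¹ * y₀⁻¹)⁻¹ := by group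
  rwa [h2] at h1

private theorem fq (hF : Fl f) : ∀ n, Fq (fun i x => IsHK f n i x)
  | 0 => ⟨fun i x y hx hy => (f i).mul_mem hx hy, fun i x hx => (f i).inv_mem hx,
      fun i x hx => hF.anti i hx, fun i j x y hx hy => hF.com i j _ hx _ hy⟩
  | n + 1 => by
    have h := fq hF n
    exact ⟨fun i x y hx hy => ⟨h.mul _ _ _ hx.1 hy.1, h.mul' hx.1 hx.2 hy.2⟩,
      fun i x hx => ⟨h.inv _ _ hx.1, h.inv' hx.1 hx.2⟩,
      fun i x hx => ⟨h.mono _ _ hx.1, h.mono _ _ hx.2⟩,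
      fun i j x y hx hy => ⟨h.com _ _ _ _ hx.1 hy.1, h.com' hx.1 hx.2 hy.1 hy.2⟩⟩

theorem hk_mul (hF : Fl f) (hx : IsHK f n i x) (hy : IsHK f n i y) : IsHK f n i (x * y) :=
  (fq hF n).mul i x y hx hy

theorem hk_inv (hF : Fl f) (hx : IsHK f n i x) : IsHK f n i x⁻¹ := (fq hF n).inv i x hx

theorem hk_com (hF : Fl f) (hx : IsHK f n i x) (hy : IsHK f n j y) :
    IsHK f n (i + j) (x * y * x⁻¹ * y⁻¹) := (fq hF n).com i j x y hx hy

theorem hk_mono (hF : Fl f) (hx : IsHK f n (i + 1) x) : IsHK f n i x := (fq hF n).mono i x hx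

theorem hk_const (ha : a ∈ f i) : IsHK f n i (fun _ => a) := by
  induction n generalizing i a with
  | zero => exact ha
  | succ n ih =>
    refine ⟨ih ha, ?_⟩
    have h1 : hf true (fun _ : Fin (n + 1) → Bool => a) * (hf false (fun _ : Fin (n + 1) → Bool => a))⁻¹ =
        fun _ => 1 := by
      funext e
      exact mul_inv_cancel a
    rw [h1]
    exact ih (f (i + 1)).one_mem

private theorem hf_fa_zero {n : ℕ} (d b : Bool) (a : P) :
    hf d (fa (0 : Fin (n + 1)) b a) = fun _ => if d = b then a else 1 := by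
  funext e
  simp only [hf, fa, Fin.cons_zero]

private theorem hf_fa_succ {n : ℕ} (k : Fin n) (d b : Bool) (a : P) :
    hf d (fa k.succ b a) = fa k b a := by
  funext e
  simp only [hf, fa, Fin.cons_succ]

theorem hk_fa (hF : Fl f) (k : Fin n) (b : Bool) (ha : a ∈ f (i + 1)) : IsHK f n i (fa k b a) := by
  induction n with
  | zero => exact k.elim0
  | succ n ih =>
    refine Fin.cases ?_ (fun k' => ?_) k
    · refine ⟨?_, ?_⟩
      · rw [hf_fa_zero]
        by_cases hb : false = b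
        · rw [if_pos hb]
          exact hk_const (hF.anti i ha)
        · rw [if_neg hb]
          exact hk_const (f i).one_mem
      · rw [hf_fa_zero, hf_fa_zero]
        cases b
        · have h1 : ((fun _ => if true = false then a else 1 : (Fin n → Bool) → P) *
              (fun _ => if false = false then a else 1)⁻¹) = fun _ => a⁻¹ := by
            funext e
            simp
          rw [h1]
          exact hk_const ((f (i + 1)).inv_mem ha)
        · have h1 : ((fun _ => if true = true then a else 1 : (Fin n → Bool) → P) *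
              (fun _ => if false = true then a else 1)⁻¹) = fun _ => a := by
            funext e
            simp
          rw [h1]
          exact hk_const ha
    · refine ⟨?_, ?_⟩
      · rw [hf_fa_succ]
        exact ih k'
      · rw [hf_fa_succ, hf_fa_succ]
        have h1 : fa k' b a * (fa k' b a)⁻¹ = fun _ => 1 := by
          funext e
          exact mul_inv_cancel _
        rw [h1]
        exact hk_const (f (i + 1)).one_mem

private theorem cons_ne {n : ℕ} {b d : Bool} {e e' : Fin n → Bool} (h : e ≠ e') :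
    (Fin.cons b e : Fin (n + 1) → Bool) ≠ Fin.cons d e' := by
  intro h1
  apply h
  funext k
  have := congrFun h1 k.succ
  simpa using this

private theorem exists_cons {n : ℕ} (e : Fin (n + 1) → Bool) :
    ∃ (b : Bool) (e' : Fin n → Bool), e = Fin.cons b e' := ⟨e 0, Fin.tail e, (Fin.cons_self_tail e).symm⟩

/-- closedness, constant `1` -/
private theorem hk_closed_one (K : Subgroup P) : ∀ (n i : ℕ), f (n + i) ≤ K →
    ∀ x : (Fin n → Bool) → P, IsHK f n i x → ∀ e₀ : Fin n → Bool, (∀ e, e ≠ e₀ → x e ∈ K) → x e₀ ∈ K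
  | 0, i, hK, x, hx, e₀, _ => by
    have h1 : e₀ = Fin.elim0 := Subsingleton.elim _ _
    rw [h1]
    rw [Nat.zero_add] at hK
    exact hK hx
  | n + 1, i, hK, x, hx, e₀, h => by
    obtain ⟨b, e', rfl⟩ := exists_cons e₀
    have h1 : (hf true x * (hf false x)⁻¹) e' ∈ K := by
      refine hk_closed_one K n (i + 1) (by rwa [show n + (i + 1) = n + 1 + i by omega]) _ hx.2 e' fun e he => ?_
      exact K.mul_mem (h _ (cons_ne he)) (K.inv_mem (h _ (cons_ne he)))
    have h2 : x (Fin.cons true e') * (x (Fin.cons false e'))⁻¹ ∈ K := h1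
    cases b
    · have h3 : x (Fin.cons true e') ∈ K := h _ fun h4 => by simpa using congrFun h4 0
      have h5 := K.mul_mem (K.inv_mem h2) h3
      have h6 : (x (Fin.cons true e') * (x (Fin.cons false e'))⁻¹)⁻¹ * x (Fin.cons true e') =
          x (Fin.cons false e') := by group
      rwa [h6] at h5
    · have h3 : x (Fin.cons false e') ∈ K := h _ fun h4 => by simpa using congrFun h4 0
      have h5 := K.mul_mem h2 h3
      rwa [inv_mul_cancel_right] at h5

/-- closedness modulo `K`: the vertex `e₀` is determined by the others -/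
theorem hk_closed (hF : Fl f) (K : Subgroup P) [K.Normal] (hK : f (n + 1 + i) ≤ K)
    {x : (Fin (n + 1) → Bool) → P} (hx : IsHK f (n + 1) i x) (e₀ : Fin (n + 1) → Bool)
    (h : ∀ e, e ≠ e₀ → x e * c⁻¹ ∈ K) : x e₀ * c⁻¹ ∈ K := by
  obtain ⟨b, e', rfl⟩ := exists_cons e₀
  have h1 : (hf true x * (hf false x)⁻¹) e' ∈ K := by
    refine hk_closed_one K n (i + 1) (by rwa [show n + (i + 1) = n + 1 + i by omega]) _ hx.2 e' fun e he => ?_
    have h3 := K.mul_mem (h (Fin.cons true e) (cons_ne he)) (K.inv_mem (h (Fin.cons false e) (cons_ne he)))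
    have h4 : x (Fin.cons true e) * c⁻¹ * (x (Fin.cons false e) * c⁻¹)⁻¹ =
        (hf true x * (hf false x)⁻¹) e := by
      show _ = x (Fin.cons true e) * (x (Fin.cons false e))⁻¹
      group
    rwa [h4] at h3
  have h2 : x (Fin.cons true e') * (x (Fin.cons false e'))⁻¹ ∈ K := h1
  cases b
  · have h3 : x (Fin.cons true e') * c⁻¹ ∈ K := h _ fun h4 => by simpa using congrFun h4 0
    have h5 := K.mul_mem (K.inv_mem h2) h3
    have h6 : (x (Fin.cons true e') * (x (Fin.cons false e'))⁻¹)⁻¹ * (x (Fin.cons true e') * c⁻¹) =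
        x (Fin.cons false e') * c⁻¹ := by group
    rwa [h6] at h5
  · have h3 : x (Fin.cons false e') * c⁻¹ ∈ K := h _ fun h4 => by simpa using congrFun h4 0
    have h5 := K.mul_mem h2 h3
    have h6 : x (Fin.cons true e') * (x (Fin.cons false e'))⁻¹ * (x (Fin.cons false e') * c⁻¹) =
        x (Fin.cons true e') * c⁻¹ := by group
    rwa [h6] at h5

theorem hk_tp (hF : Fl f) (hx : IsHK f n i x) : tp n x ∈ f (n + i) := by
  induction n generalizing i with
  | zero =>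
    rw [Nat.zero_add]
    exact hx
  | succ n ih =>
    have h1 := ih hx.2
    rwa [show n + (i + 1) = n + 1 + i by omega] at h1

private theorem sg_cons {n : ℕ} (R : Type) [CommRing R] (b : Bool) (e : Fin n → Bool) :
    sg R (Fin.cons b e : Fin (n + 1) → Bool) = (if b then 1 else -1) * sg R e := by
  rw [sg, Fin.prod_univ_succ]
  simp only [Fin.cons_zero, Fin.cons_succ]
  rfl

private theorem sum_cons {n : ℕ} {R : Type} [CommRing R] (F : (Fin (n + 1) → Bool) → R) :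
    ∑ e, F e = ∑ e : Fin n → Bool, (F (Fin.cons true e) + F (Fin.cons false e)) := by
  rw [← (Fin.consEquiv (fun _ : Fin (n + 1) => Bool)).sum_comp, Fintype.sum_prod_type, Fintype.sum_bool,
    ← Finset.sum_add_distrib]
  rfl

private theorem chi_inv {p : ℕ} {A : Subgroup P} {χ : P → ZMod p}
    (hχ : ∀ x ∈ A, ∀ y ∈ A, χ (x * y) = χ x + χ y) {a : P} (ha : a ∈ A) : χ a⁻¹ = - χ a := by
  have h1 := hχ 1 A.one_mem 1 A.one_mem
  rw [mul_one] at h1
  have h2 : χ 1 = 0 := by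
    have := congrArg (fun t => t - χ 1) h1
    simpa using this.symm
  have h3 := hχ a ha a⁻¹ (A.inv_mem ha)
  rw [mul_inv_cancel, h2] at h3
  exact eq_neg_of_add_eq_zero_right h3.symm

private theorem chi_div {p : ℕ} {A : Subgroup P} {χ : P → ZMod p}
    (hχ : ∀ x ∈ A, ∀ y ∈ A, χ (x * y) = χ x + χ y) {a b : P} (ha : a ∈ A) (hb : b ∈ A) :
    χ (a * b⁻¹) = χ a - χ b := by
  rw [hχ a ha _ (A.inv_mem hb), chi_inv hχ hb, sub_eq_add_neg]

private theorem tp_sum_one {p : ℕ} (A : Subgroup P) (χ : P → ZMod p)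
    (hχ : ∀ x ∈ A, ∀ y ∈ A, χ (x * y) = χ x + χ y) :
    ∀ (n : ℕ) (y : (Fin n → Bool) → P), (∀ e, y e ∈ A) →
      χ (tp n y) = ∑ e, sg (ZMod p) e * χ (y e)
  | 0, y, _ => by
    rw [Fintype.sum_eq_single (Fin.elim0 : Fin 0 → Bool) (fun e he => absurd (Subsingleton.elim _ _) he),
      tp, sg, Fin.prod_univ_zero, one_mul]
  | n + 1, y, h => by
    have h1 := tp_sum_one A χ hχ n (hf true y * (hf false y)⁻¹)
      (fun e => A.mul_mem (h _) (A.inv_mem (h _)))
    rw [tp, h1, sum_cons]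
    refine Finset.sum_congr rfl fun e _ => ?_
    have h2 : χ ((hf true y * (hf false y)⁻¹) e) = χ (y (Fin.cons true e)) - χ (y (Fin.cons false e)) :=
      chi_div hχ (h _) (h _)
    rw [h2, sg_cons, sg_cons]
    simp only [if_true, Bool.false_eq_true, if_false]
    ring

/-- the top coefficient if all vertices are equal modulo an abelian subgroup -/
theorem tp_sum {p : ℕ} (A : Subgroup P) (χ : P → ZMod p) (hχ : ∀ x ∈ A, ∀ y ∈ A, χ (x * y) = χ x + χ y)
    {x : (Fin (n + 1) → Bool) → P} (h : ∀ e, x e * c⁻¹ ∈ A) :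
    χ (tp (n + 1) x) = ∑ e, sg (ZMod p) e * χ (x e * c⁻¹) := by
  have h0 : ∀ e, (hf true x * (hf false x)⁻¹) e =
      x (Fin.cons true e) * c⁻¹ * (x (Fin.cons false e) * c⁻¹)⁻¹ := by
    intro e
    show x (Fin.cons true e) * (x (Fin.cons false e))⁻¹ = _
    group
  have h1 := tp_sum_one A χ hχ n (hf true x * (hf false x)⁻¹)
    (fun e => by
      rw [h0]
      exact A.mul_mem (h _) (A.inv_mem (h _)))
  rw [tp, h1, sum_cons]
  refine Finset.sum_congr rfl fun e _ => ?_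
  rw [h0, chi_div hχ (h _) (h _), sg_cons, sg_cons]
  simp only [if_true, Bool.false_eq_true, if_false]
  ring

end A

end H62.BL
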