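import Pool.Agent.H42.WM.WrdB

/-!
# [H42 WM E] the cocycle (statements: helper62)
-/

set_option autoImplicit false

open scoped Classical

noncomputable section

namespace H62.BL

section cvl

variable {α R : Type} [CommRing R]

private theorem ee_sum (c c' : List α → R) (w : List α) :
    cv c c' w = ∑ i ∈ Finset.range (w.length + 1), c (w.take i) * c' (w.drop i) := by
  induction w generalizing c with
  | nil => simp [cv]
  | cons a w ih =>
    rw [cv, ih, List.length_cons, Finset.sum_range_succ' _ (w.length + 1)]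
    simp only [List.take_succ_cons, List.drop_succ_cons, List.take_zero, List.drop_zero]
    rw [add_comm]

private theorem ee_al (c d c' : List α → R) (w : List α) :
    cv (fun u => c u + d u) c' w = cv c c' w + cv d c' w := by
  rw [ee_sum, ee_sum, ee_sum, ← Finset.sum_add_distrib]
  exact Finset.sum_congr rfl fun i _ => add_mul _ _ _

private theorem ee_ml (r : R) (c c' : List α → R) (w : List α) :
    cv (fun u => r * c u) c' w = r * cv c c' w := by
  rw [ee_sum, ee_sum, Finset.mul_sum]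
  exact Finset.sum_congr rfl fun i _ => mul_assoc _ _ _

private theorem ee_ar (c c' d : List α → R) (w : List α) :
    cv c (fun u => c' u + d u) w = cv c c' w + cv c d w := by
  rw [ee_sum, ee_sum, ee_sum, ← Finset.sum_add_distrib]
  exact Finset.sum_congr rfl fun i _ => mul_add _ _ _

private theorem ee_mr (r : R) (c c' : List α → R) (w : List α) :
    cv c (fun u => r * c' u) w = r * cv c c' w := by
  rw [ee_sum, ee_sum, Finset.mul_sum]
  exact Finset.sum_congr rfl fun i _ => mul_left_comm _ _ _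

private theorem ee_assoc (c c' c'' : List α → R) (w : List α) : cv (cv c c') c'' w = cv c (cv c' c'') w := by
  induction w generalizing c with
  | nil => simp only [cv, mul_assoc]
  | cons a w ih =>
    have h1 : cv (cv c c') c'' (a :: w) = cv c c' [] * c'' (a :: w) +
        cv (fun u => cv c c' (a :: u)) c'' w := rfl
    have h2 : (fun u => cv c c' (a :: u)) = fun u => c [] * c' (a :: u) + cv (fun v => c (a :: v)) c' u := rfl
    have h3 : cv c (cv c' c'') (a :: w) = c [] * cv c' c'' (a :: w) + cv (fun v => c (a :: v)) (cv c' c'') w := rfl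
    have h4 : cv c' c'' (a :: w) = c' [] * c'' (a :: w) + cv (fun v => c' (a :: v)) c'' w := rfl
    have h5 : cv c c' [] = c [] * c' [] := rfl
    rw [h1, h2, ee_al, ee_ml, h3, h4, h5, ih]
    ring

private theorem ee_el (c : List α → R) (w : List α) : cv e1 c w = c w := by
  rw [ee_sum, Finset.sum_eq_single 0]
  · rw [List.take_zero, List.drop_zero, e1, if_pos rfl, one_mul]
  · intro i hi h0
    rw [Finset.mem_range] at hi
    have h1 : w.take i ≠ [] := by
      intro h
      have h2 := congrArg List.length h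
      rw [List.length_take, List.length_nil] at h2
      omega
    rw [e1, if_neg h1, zero_mul]
  · intro h
    exact absurd (Finset.mem_range.2 (Nat.succ_pos _)) h

private theorem ee_er (c : List α → R) (w : List α) : cv c e1 w = c w := by
  rw [ee_sum, Finset.sum_eq_single w.length]
  · rw [List.take_length, List.drop_length, e1, if_pos rfl, mul_one]
  · intro i hi h0
    rw [Finset.mem_range] at hi
    have h1 : w.drop i ≠ [] := by
      intro h
      have h2 := congrArg List.length h
      rw [List.length_drop, List.length_nil] at h2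
      omega
    rw [e1, if_neg h1, mul_zero]
  · intro h
    exact absurd (Finset.mem_range.2 (Nat.lt_succ_self _)) h

private theorem ee_xl (x : α) (c : List α → R) (a : α) (w : List α) :
    cv (el x) c (a :: w) = if a = x then c w else 0 := by
  have h1 : cv (el x) c (a :: w) = el x [] * c (a :: w) + cv (fun v => el x (a :: v)) c w := rfl
  have h2 : (el x [] : R) = 0 := if_neg (by simp)
  rw [h1, h2, zero_mul, zero_add]
  by_cases h : a = x
  · have h3 : (fun v => (el x (a :: v) : R)) = e1 := by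
      funext v
      unfold el e1
      simp only [List.cons.injEq, h, true_and]
    rw [h3, ee_el, if_pos h]
  · have h3 : (fun v => (el x (a :: v) : R)) = fun v => 0 * e1 v := by
      funext v
      unfold el
      simp only [List.cons.injEq, h, false_and, if_false, zero_mul]
    rw [h3, ee_ml, zero_mul, if_neg h]

private theorem ee_xr (x : α) (c : List α → R) (a : α) (w : List α) :
    cv c (el x) (w ++ [a]) = if a = x then c w else 0 := by
  induction w generalizing c with
  | nil =>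
    have h1 : cv c (el x) ([] ++ [a]) = c [] * el x [a] + c [a] * el x [] := rfl
    rw [h1]
    unfold el
    by_cases h : a = x
    · simp [h]
    · simp [h]
  | cons b w ih =>
    have h1 : cv c (el x) (b :: w ++ [a]) = c [] * el x (b :: (w ++ [a])) +
        cv (fun v => c (b :: v)) (el x) (w ++ [a]) := rfl
    have h2 : (el x (b :: (w ++ [a])) : R) = 0 := by
      unfold el
      refine if_neg fun h => ?_
      have h3 := congrArg List.length h
      simp at h3
    rw [h1, h2, mul_zero, zero_add, ih]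

variable {Q : Type} [Group Q] [MulAction Q α]

private theorem ee_qa (q : Q) (c c' : List α → R) (w : List α) :
    qa q (cv c c') w = cv (qa q c) (qa q c') w := by
  unfold qa
  rw [ee_sum, ee_sum, List.length_map]
  refine Finset.sum_congr rfl fun i _ => ?_
  rw [List.map_take, List.map_drop]

omit [CommRing R] in
private theorem ee_qq (q q' : Q) (c : List α → R) : qa q (qa q' c) = qa (q * q') c := by
  funext w
  unfold qa
  rw [List.map_map]
  congr 2
  funext a
  rw [Function.comp_apply, smul_smul, mul_inv_rev]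

omit [CommRing R] in
private theorem ee_q1 (c : List α → R) : qa (1 : Q) c = c := by
  funext w
  unfold qa
  congr 1
  simp only [inv_one, one_smul, List.map_id']

private theorem ee_qe (q : Q) : qa q (e1 : List α → R) = e1 := by
  funext w
  unfold qa e1
  simp only [List.map_eq_nil_iff]

end cvl

section grp

variable {P : Type} [Group P] {f : ℕ → Subgroup P}

private theorem ee_conj (hf : Fl f) (i : ℕ) (a b : P) (hb : b ∈ f i) : a * b * a⁻¹ ∈ f i := by
  have h1 := hf.com 0 i a (by rw [hf.top]; trivial) b hb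
  rw [Nat.zero_add] at h1
  have h2 := (f i).mul_mem h1 hb
  rwa [inv_mul_cancel_right] at h2

private theorem ee_nor (hf : Fl f) (i : ℕ) : (f i).Normal := ⟨fun b hb a => ee_conj hf i a b hb⟩

private theorem ee_anti (hf : Fl f) {i j : ℕ} (h : i ≤ j) : f j ≤ f i := by
  induction j, h using Nat.le_induction with
  | base => exact le_rfl
  | succ j _ ih => exact (hf.anti j).trans ih

private theorem ee_cm (hf : Fl f) {i j k : ℕ} (h : k ≤ i + j) {a b : P} (ha : a ∈ f i) (hb : b ∈ f j) :
    a * b * a⁻¹ * b⁻¹ ∈ f k := ee_anti hf h (hf.com i j a ha b hb)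

private theorem ee_ab {H : Type} [Group H] {Z A Y R : H} (h1 : Z * (Y * R) = Y * R * Z)
    (h2 : Z * (A * (Y * R) * A⁻¹ * (Y * R)⁻¹) = A * (Y * R) * A⁻¹ * (Y * R)⁻¹ * Z) (h3 : A * Y = Y * A)
    (h4 : Y * (A * R * A⁻¹ * R⁻¹) = A * R * A⁻¹ * R⁻¹ * Y) :
    Z * A * (Y * R) * (Z * A)⁻¹ * (Y * R)⁻¹ = A * R * A⁻¹ * R⁻¹ := by
  have h6 : Y * R * Z⁻¹ * (Y * R)⁻¹ = Z⁻¹ := by
    rw [mul_inv_eq_iff_eq_mul, mul_inv_eq_iff_eq_mul, mul_assoc, ← h1, inv_mul_cancel_left]
  calc Z * A * (Y * R) * (Z * A)⁻¹ * (Y * R)⁻¹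
      = Z * (A * (Y * R) * A⁻¹ * (Y * R)⁻¹) * (Y * R * Z⁻¹ * (Y * R)⁻¹) := by group
    _ = A * (Y * R) * A⁻¹ * (Y * R)⁻¹ := by rw [h2, h6, mul_inv_cancel_right]
    _ = A * Y * R * A⁻¹ * R⁻¹ * Y⁻¹ := by group
    _ = Y * A * R * A⁻¹ * R⁻¹ * Y⁻¹ := by rw [h3]
    _ = Y * (A * R * A⁻¹ * R⁻¹) * Y⁻¹ := by group
    _ = A * R * A⁻¹ * R⁻¹ := by rw [h4, mul_inv_cancel_right]

private theorem ee_step (hf : Fl f) (m : ℕ) {a a' r r' : P} (ha : a ∈ f 1) (haa : a' * a⁻¹ ∈ f 2)
    (hr : r ∈ f (m + 1)) (hrr : r' * r⁻¹ ∈ f (m + 2)) :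
    (a' * r' * a'⁻¹ * r'⁻¹) * (a * r * a⁻¹ * r⁻¹)⁻¹ ∈ f (m + 3) := by
  have := ee_nor hf (m + 3)
  obtain ⟨z, hz⟩ : ∃ z, z = a' * a⁻¹ := ⟨_, rfl⟩
  obtain ⟨y, hy⟩ : ∃ y, y = r' * r⁻¹ := ⟨_, rfl⟩
  rw [← hz] at haa
  rw [← hy] at hrr
  have ea : a' = z * a := by rw [hz, inv_mul_cancel_right]
  have er : r' = y * r := by rw [hy, inv_mul_cancel_right]
  have hr' : r' ∈ f (m + 1) := by
    rw [er]
    exact (f (m + 1)).mul_mem (ee_anti hf (by omega) hrr) hr
  have key : ∀ x x' : P, x * x' * x⁻¹ * x'⁻¹ ∈ f (m + 3) →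
      (x : P ⧸ f (m + 3)) * (x' : P ⧸ f (m + 3)) = (x' : P ⧸ f (m + 3)) * (x : P ⧸ f (m + 3)) := by
    intro x x' h
    rw [← QuotientGroup.mk_mul, ← QuotientGroup.mk_mul, QuotientGroup.eq_iff_div_mem, div_eq_mul_inv,
      mul_inv_rev, ← mul_assoc]
    exact h
  rw [← div_eq_mul_inv, ← QuotientGroup.eq_iff_div_mem]
  have h1 := key z r' (ee_cm hf (by omega) haa hr')
  have h2 := key z (a * r' * a⁻¹ * r'⁻¹)
    (ee_cm (i := 2) (j := m + 2) hf (by omega) haa (ee_cm hf (by omega) ha hr'))
  have h3 := key a y (ee_cm hf (by omega) ha hrr)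
  have h4 := key y (a * r * a⁻¹ * r⁻¹)
    (ee_cm (i := m + 2) (j := m + 2) hf (by omega) hrr (ee_cm hf (by omega) ha hr))
  rw [er] at h1 h2
  simp only [QuotientGroup.mk_mul, QuotientGroup.mk_inv] at h1 h2 h3 h4
  rw [ea, er]
  simp only [QuotientGroup.mk_mul, QuotientGroup.mk_inv]
  exact ee_ab h1 h2 h3 h4

private theorem ee_rn (hf : Fl f) : ∀ (u v : List P), List.Forall₂ (fun a b => a ∈ f 1 ∧ b * a⁻¹ ∈ f 2) u v →
    ∀ m, u.length = m + 1 → rn u ∈ f (m + 1) ∧ rn v * (rn u)⁻¹ ∈ f (m + 2) := by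
  intro u v h
  induction h with
  | nil =>
    intro m hm
    rw [List.length_nil] at hm
    omega
  | @cons a b u v hab huv ih =>
    intro m hm
    cases huv with
    | nil =>
      rw [List.length_singleton] at hm
      obtain rfl : m = 0 := by omega
      exact hab
    | @cons c d u v hcd huv =>
      rw [List.length_cons, List.length_cons] at hm
      obtain ⟨k, rfl⟩ : ∃ k, m = k + 1 := ⟨m - 1, by omega⟩
      obtain ⟨h1, h2⟩ := ih k (by rw [List.length_cons]; omega)
      refine ⟨?_, ?_⟩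
      · exact ee_cm (i := 1) (j := k + 1) hf (by omega) hab.1 h1
      · exact ee_step hf k hab.1 hab.2 h1 h2

private theorem ee_cj (x : P) : ∀ u : List P, x * rn u * x⁻¹ = rn (u.map fun a => x * a * x⁻¹)
  | [] => by
    show x * 1 * x⁻¹ = 1
    rw [mul_one, mul_inv_cancel]
  | [a] => rfl
  | a :: b :: w => by
    have ih := ee_cj x (b :: w)
    rw [List.map_cons] at ih
    rw [List.map_cons, List.map_cons]
    show x * (a * rn (b :: w) * a⁻¹ * (rn (b :: w))⁻¹) * x⁻¹ = _
    rw [rn, ← ih]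
    group

end grp

section E

variable {P Q L : Type} [Group P] [Group Q] [MulAction Q L] [Fintype L] {p n : ℕ} [Fact p.Prime]
  (D : LG p n P Q L)

omit [Fintype L] [Fact p.Prime] in
private theorem ee_rw (x : P) (w : List (Lr (Fin (n + 2)) L)) (hw : w.length = n + 1) :
    D.rw (w.map fun a => D.pi x • a) = x * D.rw w * x⁻¹ ∧ D.rw w ∈ D.f (n + 1) := by
  have h1 : List.Forall₂ (fun a b => a ∈ D.f 1 ∧ b * a⁻¹ ∈ D.f 2) (w.map fun a => x * D.s a.l * x⁻¹)
      ((w.map fun a => D.pi x • a).map fun a => D.s a.l) := by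
    rw [List.map_map]
    clear hw
    induction w with
    | nil => exact List.Forall₂.nil
    | cons a w ih => exact List.Forall₂.cons ⟨ee_conj D.fl 1 x _ (D.s_mem _), D.s_act x a.l⟩ ih
  have h2 := ee_rn D.fl _ _ h1 n (by rw [List.length_map, hw])
  have h3 : (w.map fun a => x * D.s a.l * x⁻¹) = (w.map fun a => D.s a.l).map fun a => x * a * x⁻¹ := by
    rw [List.map_map]
    rfl
  rw [D.bot, Subgroup.mem_bot, h3, ← ee_cj, mul_inv_eq_one] at h2
  refine ⟨h2.2, ?_⟩
  have h4 := ee_conj D.fl (n + 1) x⁻¹ _ h2.1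
  rw [inv_inv] at h4
  have h5 : x⁻¹ * (x * D.rw w * x⁻¹) * x = D.rw w := by group
  rw [← h5]
  exact h4

include D in
theorem eps_inv (q : Q) (w : List (Lr (Fin (n + 2)) L)) : D.eps (w.map fun a => q • a) = D.eps w := by
  cases w with
  | nil => rfl
  | cons a w =>
    obtain ⟨x, rfl⟩ := D.sur q
    have h0 : ∀ v : List (Lr (Fin (n + 2)) L), (v.map fun a => D.pi x • a).map Lr.i = v.map Lr.i := by
      intro v
      rw [List.map_map]
      rfl
    have h1 := h0 (a :: w)
    have h2 := h0 w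
    rw [List.map_cons] at h1
    rw [List.map_cons]
    rw [LG.eps, LG.eps, h1, h2, List.length_map]
    by_cases hc : (List.map Lr.i (a :: w)).Nodup ∧ w.length = n + 1 ∧ (List.map Lr.i w).getLast? = some 0
    · rw [if_pos hc, if_pos hc]
      obtain ⟨h3, h4⟩ := ee_rw D x w hc.2.1
      rw [h3]
      exact D.ch_act x a.l _ h4
    · rw [if_neg hc, if_neg hc]

/-- the functional -/
private def TT (c : List (Lr (Fin (n + 2)) L) → ZMod p) : ZMod p :=
  ∑ t : Fin (n + 2) → Lr (Fin (n + 2)) L, c (List.ofFn t) * D.eps (List.ofFn t)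

private theorem TT_cc (a b : UG Q (Lr (Fin (n + 2)) L) (ZMod p) (WN Q L Set.univ (n + 1))) :
    D.cc a b = TT D (cv a.c (qa a.q b.c)) := rfl

private theorem TT_add (c d : List (Lr (Fin (n + 2)) L) → ZMod p) :
    TT D (fun w => c w + d w) = TT D c + TT D d := by
  unfold TT
  rw [← Finset.sum_add_distrib]
  exact Finset.sum_congr rfl fun t _ => add_mul _ _ _

private theorem TT_mul (r : ZMod p) (c : List (Lr (Fin (n + 2)) L) → ZMod p) :
    TT D (fun w => r * c w) = r * TT D c := by
  unfold TT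
  rw [Finset.mul_sum]
  exact Finset.sum_congr rfl fun t _ => mul_assoc _ _ _

private theorem TT_zero (a : UG Q (Lr (Fin (n + 2)) L) (ZMod p) (WN Q L Set.univ (n + 1))) : TT D a.c = 0 := by
  unfold TT
  refine Finset.sum_eq_zero fun t _ => ?_
  rw [a.out, zero_mul]
  intro h
  have h1 := h.1
  rw [List.length_ofFn] at h1
  omega

private theorem TT_congr {c d : List (Lr (Fin (n + 2)) L) → ZMod p}
    (h : ∀ t : List (Lr (Fin (n + 2)) L), t.length = n + 2 → (t.map Lr.i).Nodup → c t = d t) : TT D c = TT D d := by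
  unfold TT
  refine Finset.sum_congr rfl fun t _ => ?_
  by_cases h1 : ((List.ofFn t).map Lr.i).Nodup
  · rw [h _ (by rw [List.length_ofFn]) h1]
  · have h2 : D.eps (List.ofFn t) = 0 := by
      generalize List.ofFn t = w at h1
      cases w with
      | nil => rfl
      | cons a w => exact if_neg fun h3 => h1 h3.1
    rw [h2, mul_zero, mul_zero]

private theorem TT_qa (q : Q) (c : List (Lr (Fin (n + 2)) L) → ZMod p) : TT D (qa q c) = TT D c := by
  unfold TT
  refine Fintype.sum_equiv (Equiv.piCongrRight fun _ => MulAction.toPerm q⁻¹) _ _ fun t => ?_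
  have h1 : List.ofFn (Equiv.piCongrRight (fun _ => MulAction.toPerm q⁻¹) t) =
      (List.ofFn t).map fun a => q⁻¹ • a := by
    rw [List.map_ofFn]
    rfl
  rw [h1, eps_inv D]
  rfl

private theorem ee_prop {t : List (Lr (Fin (n + 2)) L)} (h1 : t.length = n + 2) (h2 : (t.map Lr.i).Nodup) {i : ℕ}
    (hi : i ≤ n + 1) : t.take i ∈ (WN Q L Set.univ (n + 1)).s ∧ (0 < i → t.drop i ∈ (WN Q L Set.univ (n + 1)).s) := by
  refine ⟨⟨?_, ?_, fun a _ => trivial⟩, fun h0 => ⟨?_, ?_, fun a _ => trivial⟩⟩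
  · rw [List.length_take]
    omega
  · rw [List.map_take]
    exact h2.sublist (List.take_sublist _ _)
  · rw [List.length_drop]
    omega
  · rw [List.map_drop]
    exact h2.sublist (List.drop_sublist _ _)

private theorem ee_trl (c c' : List (Lr (Fin (n + 2)) L) → ZMod p) {t : List (Lr (Fin (n + 2)) L)}
    (h1 : t.length = n + 2) (h2 : (t.map Lr.i).Nodup) :
    cv (tr (WN Q L Set.univ (n + 1)) c) c' t = cv c c' t - c t * c' [] := by
  rw [ee_sum, ee_sum, Finset.sum_range_succ, Finset.sum_range_succ, List.take_length, List.drop_length]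
  have h3 : tr (WN Q L Set.univ (n + 1)) c t = 0 := by
    refine if_neg fun h => ?_
    have h4 := h.1
    omega
  rw [h3, zero_mul, add_zero, add_sub_cancel_right]
  refine Finset.sum_congr rfl fun i hi => ?_
  rw [Finset.mem_range, h1] at hi
  have h5 := (ee_prop (Q := Q) h1 h2 (i := i) (by omega)).1
  unfold tr
  rw [if_pos h5]

private theorem ee_trr (c c' : List (Lr (Fin (n + 2)) L) → ZMod p) {t : List (Lr (Fin (n + 2)) L)}
    (h1 : t.length = n + 2) (h2 : (t.map Lr.i).Nodup) :
    cv c (tr (WN Q L Set.univ (n + 1)) c') t = cv c c' t - c [] * c' t := by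
  rw [ee_sum, ee_sum, Finset.sum_range_succ', Finset.sum_range_succ' _ t.length, List.take_zero, List.drop_zero]
  have h3 : tr (WN Q L Set.univ (n + 1)) c' t = 0 := by
    refine if_neg fun h => ?_
    have h4 := h.1
    omega
  rw [h3, mul_zero, add_zero, add_sub_cancel_right]
  refine Finset.sum_congr rfl fun i hi => ?_
  rw [Finset.mem_range, h1] at hi
  have h5 : t.drop (i + 1) ∈ (WN Q L Set.univ (n + 1)).s := by
    refine ⟨?_, ?_, fun a _ => trivial⟩
    · rw [List.length_drop]
      omega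
    · rw [List.map_drop]
      exact h2.sublist (List.drop_sublist _ _)
  unfold tr
  rw [if_pos h5]

private theorem ee_qtr (q : Q) (c : List (Lr (Fin (n + 2)) L) → ZMod p) :
    qa q (tr (WN Q L Set.univ (n + 1)) c) = tr (WN Q L Set.univ (n + 1)) (qa q c) := by
  funext w
  unfold qa tr
  simp only [(WN Q L Set.univ (n + 1)).act q⁻¹ w]

theorem cc_l1 (a : UG Q (Lr (Fin (n + 2)) L) (ZMod p) (WN Q L Set.univ (n + 1))) : D.cc 1 a = 0 := by
  rw [TT_cc]
  have h1 : cv (1 : UG Q (Lr (Fin (n + 2)) L) (ZMod p) (WN Q L Set.univ (n + 1))).c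
      (qa (1 : UG Q (Lr (Fin (n + 2)) L) (ZMod p) (WN Q L Set.univ (n + 1))).q a.c) = a.c := by
    show cv e1 (qa (1 : Q) a.c) = a.c
    rw [ee_q1]
    exact funext fun w => ee_el _ w
  rw [h1]
  exact TT_zero D a

theorem cc_r1 (a : UG Q (Lr (Fin (n + 2)) L) (ZMod p) (WN Q L Set.univ (n + 1))) : D.cc a 1 = 0 := by
  rw [TT_cc]
  have h1 : cv a.c (qa a.q (1 : UG Q (Lr (Fin (n + 2)) L) (ZMod p) (WN Q L Set.univ (n + 1))).c) = a.c := by
    show cv a.c (qa a.q e1) = a.c
    rw [ee_qe]
    exact funext fun w => ee_er _ w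
  rw [h1]
  exact TT_zero D a

theorem cc_co (a b c : UG Q (Lr (Fin (n + 2)) L) (ZMod p) (WN Q L Set.univ (n + 1))) :
    D.cc b c + D.cc a (b * c) = D.cc (a * b) c + D.cc a b := by
  obtain ⟨B, hB⟩ : ∃ B, B = qa a.q b.c := ⟨_, rfl⟩
  obtain ⟨C, hC⟩ : ∃ C, C = qa (a.q * b.q) c.c := ⟨_, rfl⟩
  have hC0 : C [] = 1 := by
    rw [hC]
    exact c.one
  have e1 : D.cc a b = TT D (cv a.c B) := by rw [TT_cc, hB]
  have e2 : D.cc b c = TT D (cv B C) := by
    rw [TT_cc, ← TT_qa D a.q]
    congr 1
    funext w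
    rw [ee_qa, ee_qq, hB, hC]
  have e3 : D.cc (a * b) c = TT D (cv (cv a.c B) C) - TT D (cv a.c B) := by
    have h1 : D.cc (a * b) c = TT D (cv (tr (WN Q L Set.univ (n + 1)) (cv a.c B)) C) := by
      rw [hB, hC]
      rfl
    have h2 : TT D (cv (tr (WN Q L Set.univ (n + 1)) (cv a.c B)) C) =
        TT D (fun w => cv (cv a.c B) C w + (-1) * cv a.c B w) := by
      refine TT_congr D fun t h3 h4 => ?_
      rw [ee_trl _ _ h3 h4, hC0]
      ring
    rw [h1, h2, TT_add D (cv (cv a.c B) C), TT_mul]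
    ring
  have e4 : D.cc a (b * c) = TT D (cv a.c (cv B C)) - TT D (cv B C) := by
    have h1 : D.cc a (b * c) = TT D (cv a.c (tr (WN Q L Set.univ (n + 1)) (cv B C))) := by
      have h2 : cv B C = qa a.q (cv b.c (qa b.q c.c)) := by
        funext w
        rw [ee_qa, ee_qq, hB, hC]
      rw [h2, ← ee_qtr]
      rfl
    have h2 : TT D (cv a.c (tr (WN Q L Set.univ (n + 1)) (cv B C))) =
        TT D (fun w => cv a.c (cv B C) w + (-1) * cv B C w) := by
      refine TT_congr D fun t h3 h4 => ?_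
      rw [ee_trr _ _ h3 h4, a.one]
      ring
    rw [h1, h2, TT_add D (cv a.c (cv B C)), TT_mul]
    ring
  have e5 : cv (cv a.c B) C = cv a.c (cv B C) := funext fun w => ee_assoc _ _ _ w
  rw [e1, e2, e3, e4, e5]
  ring

theorem cc_qi (q q' : Q) : D.cc (qi q) (qi q') = 0 := by
  rw [TT_cc]
  have h1 : cv (qi q : UG Q (Lr (Fin (n + 2)) L) (ZMod p) (WN Q L Set.univ (n + 1))).c
      (qa (qi q : UG Q (Lr (Fin (n + 2)) L) (ZMod p) (WN Q L Set.univ (n + 1))).q
        (qi q' : UG Q (Lr (Fin (n + 2)) L) (ZMod p) (WN Q L Set.univ (n + 1))).c) =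
      (1 : UG Q (Lr (Fin (n + 2)) L) (ZMod p) (WN Q L Set.univ (n + 1))).c := by
    show cv e1 (qa q e1) = e1
    rw [ee_qe]
    exact funext fun w => ee_el _ w
  rw [h1]
  exact TT_zero D _

private theorem ee_lt (x : Lr (Fin (n + 2)) L) (s : ZMod p) :
    (lt x s : UG Q (Lr (Fin (n + 2)) L) (ZMod p) (WN Q L Set.univ (n + 1))).c = fun w => e1 w + s * el x w := by
  funext w
  show tr (WN Q L Set.univ (n + 1)) (e1 + s • el x) w = _
  unfold tr
  by_cases h : w ∈ (WN Q L Set.univ (n + 1)).s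
  · rw [if_pos h]
    rfl
  · rw [if_neg h]
    have h1 : w ≠ [] := by
      rintro rfl
      exact h (WN Q L Set.univ (n + 1)).nil
    have h2 : w ≠ [x] := by
      rintro rfl
      exact h ⟨by simp, by simp, fun a _ => trivial⟩
    rw [e1, if_neg h1, el, if_neg h2, mul_zero, add_zero]

/-- the commutator of lifts of `u` and of `1 + s x`, `x = (k, l)` fixed by `u` -/
theorem cc_iv (u : UG Q (Lr (Fin (n + 2)) L) (ZMod p) (WN Q L Set.univ (n + 1))) (k : Fin (n + 2)) (l : L)
    (hu : u.q • l = l) (s : ZMod p) :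
    D.cc u (lt ⟨k, l⟩ s) - D.cc (lt ⟨k, l⟩ s) u =
      s * ∑ t : Fin (n + 1) → Lr (Fin (n + 2)) L, u.c (List.ofFn t) *
        (D.eps (List.ofFn t ++ [⟨k, l⟩]) - D.eps (⟨k, l⟩ :: List.ofFn t)) := by
  obtain ⟨x, hx⟩ : ∃ x : Lr (Fin (n + 2)) L, x = ⟨k, l⟩ := ⟨_, rfl⟩
  rw [← hx]
  have hux : u.q⁻¹ • x = x := by
    rw [inv_smul_eq_iff, hx, lr_smul, hu]
  have e1' : qa u.q (fun w => e1 w + s * el x w) = fun w => e1 w + s * el x w := by
    funext w
    have h1 := congrFun (ee_qe (R := ZMod p) u.q) w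
    have h2 : qa u.q (el x : List (Lr (Fin (n + 2)) L) → ZMod p) w = el x w := by
      unfold qa el
      have h3 : (w.map fun a => u.q⁻¹ • a) = [x] ↔ w = [x] := by
        constructor
        · intro h
          have h4 := congrArg (List.map fun a => u.q • a) h
          rw [List.map_map] at h4
          have h5 : ((fun a : Lr (Fin (n + 2)) L => u.q • a) ∘ fun a => u.q⁻¹ • a) = id := by
            funext a
            exact smul_inv_smul _ _
          rw [h5, List.map_id] at h4
          rw [h4, List.map_cons, List.map_nil]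
          congr 1
          rw [← hux, smul_inv_smul, hux]
        · rintro rfl
          rw [List.map_cons, List.map_nil, hux]
      simp only [h3]
    show qa u.q e1 w + s * qa u.q (el x) w = _
    rw [h1, h2]
  have e2 : D.cc u (lt x s) = s * TT D (cv u.c (el x)) := by
    rw [TT_cc, ee_lt, e1']
    have h1 : cv u.c (fun w => e1 w + s * el x w) = fun w => u.c w + s * cv u.c (el x) w := by
      funext w
      rw [ee_ar, ee_er, ee_mr]
    rw [h1, TT_add D u.c, TT_mul, TT_zero, zero_add]
  have e3 : D.cc (lt x s) u = s * TT D (cv (el x) u.c) := by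
    have h0 : D.cc (lt x s) u = TT D (cv (fun w => e1 w + s * el x w) u.c) := by
      rw [TT_cc, ee_lt]
      show TT D (cv _ (qa (1 : Q) u.c)) = _
      rw [ee_q1]
    have h1 : cv (fun w => e1 w + s * el x w) u.c = fun w => u.c w + s * cv (el x) u.c w := by
      funext w
      rw [ee_al, ee_el, ee_ml]
    rw [h0, h1, TT_add D u.c, TT_mul, TT_zero, zero_add]
  have e4 : TT D (cv u.c (el x)) = ∑ t : Fin (n + 1) → Lr (Fin (n + 2)) L, u.c (List.ofFn t) *
      D.eps (List.ofFn t ++ [x]) := by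
    unfold TT
    rw [← (Fin.snocEquiv fun _ : Fin (n + 2) => Lr (Fin (n + 2)) L).sum_comp, Fintype.sum_prod_type,
      Finset.sum_eq_single x]
    · refine Finset.sum_congr rfl fun t _ => ?_
      have h1 : List.ofFn ((Fin.snocEquiv fun _ : Fin (n + 2) => Lr (Fin (n + 2)) L) (x, t)) = List.ofFn t ++ [x] := by
        rw [List.ofFn_succ', List.concat_eq_append]
        simp [Fin.snocEquiv]
      rw [h1, ee_xr, if_pos rfl]
    · intro y _ hy
      refine Finset.sum_eq_zero fun t _ => ?_
      have h1 : List.ofFn ((Fin.snocEquiv fun _ : Fin (n + 2) => Lr (Fin (n + 2)) L) (y, t)) = List.ofFn t ++ [y] := by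
        rw [List.ofFn_succ', List.concat_eq_append]
        simp [Fin.snocEquiv]
      rw [h1, ee_xr, if_neg hy, zero_mul]
    · intro h
      exact absurd (Finset.mem_univ _) h
  have e5 : TT D (cv (el x) u.c) = ∑ t : Fin (n + 1) → Lr (Fin (n + 2)) L, u.c (List.ofFn t) *
      D.eps (x :: List.ofFn t) := by
    unfold TT
    rw [← (Fin.consEquiv fun _ : Fin (n + 2) => Lr (Fin (n + 2)) L).sum_comp, Fintype.sum_prod_type,
      Finset.sum_eq_single x]
    · refine Finset.sum_congr rfl fun t _ => ?_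
      have h1 : List.ofFn ((Fin.consEquiv fun _ : Fin (n + 2) => Lr (Fin (n + 2)) L) (x, t)) = x :: List.ofFn t := by
        rw [List.ofFn_succ]
        simp [Fin.consEquiv]
      rw [h1, ee_xl, if_pos rfl]
    · intro y _ hy
      refine Finset.sum_eq_zero fun t _ => ?_
      have h1 : List.ofFn ((Fin.consEquiv fun _ : Fin (n + 2) => Lr (Fin (n + 2)) L) (y, t)) = y :: List.ofFn t := by
        rw [List.ofFn_succ]
        simp [Fin.consEquiv]
      rw [h1, ee_xl, if_neg hy, zero_mul]
    · intro h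
      exact absurd (Finset.mem_univ _) h
  rw [e2, e3, e4, e5, ← mul_sub, ← Finset.sum_sub_distrib]
  congr 1
  exact Finset.sum_congr rfl fun t _ => (mul_sub _ _ _).symm

end E

end H62.BL
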