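import Pool.Agent.H42.WM.WrdB

/-!
# [H42 WM G] the functional `kp` at a Lie bracket (statement: helper62)
-/

set_option autoImplicit false

open scoped Classical

noncomputable section

set_option linter.unusedSectionVars false

namespace H62.BL

section words33

variable {α R : Type} [CommRing R]

private theorem kb_zero_left (c : List α → R) (w : List α) : cv (fun _ => (0 : R)) c w = 0 := by
  induction w with
  | nil => rw [cv, zero_mul]
  | cons a w ih => rw [cv, zero_mul, zero_add, ih]

private theorem cv_e1_left (c : List α → R) (w : List α) : cv (e1 : List α → R) c w = c w := by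
  cases w with
  | nil => rw [cv, e1, if_pos rfl, one_mul]
  | cons a w =>
    rw [cv, e1, if_pos rfl, one_mul]
    have h1 : (fun u : List α => (e1 (a :: u) : R)) = fun _ => 0 := by
      funext u
      exact if_neg (by simp)
    rw [h1, kb_zero_left, add_zero]

private theorem kb_el_left (a b : α) (c : List α → R) (w : List α) :
    cv (el a) c (b :: w) = if b = a then c w else 0 := by
  rw [cv]
  have h0 : (el a [] : R) = 0 := if_neg (by simp)
  rw [h0, zero_mul, zero_add]
  split_ifs with h
  · subst h
    have h1 : (fun u : List α => (el b (b :: u) : R)) = e1 := by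
      funext u
      simp [el, e1]
    rw [h1, cv_e1_left]
  · have h1 : (fun u : List α => (el a (b :: u) : R)) = fun _ => 0 := by
      funext u
      simp [el, h]
    rw [h1, kb_zero_left]

variable {I L : Type}

private theorem kb_el_right (a : Lr I L) (j : I) (ha : a.i ≠ j) (w : List (Lr I L)) :
    ∀ (c : List (Lr I L) → R), (w.map Lr.i).getLast? = some j → cv c (el a) w = 0 := by
  induction w with
  | nil =>
    intro c h
    simp at h
  | cons b w ih =>
    intro c h
    rw [cv]
    cases w with
    | nil =>
      have h1 : b.i = j := by simpa using h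
      have h2 : (el a [b] : R) = 0 := by
        refine if_neg fun h3 => ha ?_
        have h4 : b = a := by simpa using h3
        rw [← h4, h1]
      have h3 : (el a [] : R) = 0 := if_neg (by simp)
      rw [h2, cv, h3, mul_zero, mul_zero, add_zero]
    | cons b' w' =>
      have h2 : (el a (b :: b' :: w') : R) = 0 := if_neg (by simp)
      rw [h2, mul_zero, zero_add]
      exact ih _ (by simpa using h)

private theorem br_last (z : Lr I L) (j : I) (y : List (Lr I L)) (hy : ∀ a ∈ y, a.i ≠ j) :
    ∀ w : List (Lr I L), (w.map Lr.i).getLast? = some j →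
      (br (y ++ [z]) w : R) = if w = y ++ [z] then 1 else 0 := by
  induction y with
  | nil =>
    intro w _
    rfl
  | cons a y ih =>
    intro w hw
    have hne : y ++ [z] ≠ [] := by simp
    obtain ⟨b, v, hbv⟩ := List.exists_cons_of_ne_nil hne
    have h1 : (br (a :: y ++ [z]) w : R) = cv (el a) (br (y ++ [z])) w - cv (br (y ++ [z])) (el a) w := by
      rw [List.cons_append, hbv]
      rfl
    rw [h1, kb_el_right a j (hy a (by simp)) w _ hw, sub_zero]
    cases w with
    | nil => simp at hw
    | cons d w =>
      rw [kb_el_left]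
      by_cases hd : d = a
      · subst hd
        rw [if_pos rfl]
        cases w with
        | nil =>
          exfalso
          have h2 : d.i = j := by simpa using hw
          exact hy d (by simp) h2
        | cons d' w' =>
          have h2 := ih (fun a' ha' => hy a' (List.mem_cons_of_mem _ ha')) (d' :: w') (by simpa using hw)
          rw [h2]
          simp
      · rw [if_neg hd, if_neg]
        intro h2
        rw [List.cons_append] at h2
        exact hd (List.cons.inj h2).1

end words33

section groups33

variable {P : Type} [Group P]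

private theorem fl_anti {f : ℕ → Subgroup P} (hf : Fl f) {i j : ℕ} (h : i ≤ j) : f j ≤ f i := by
  induction j, h using Nat.le_induction with
  | base => exact le_rfl
  | succ k _ ih => exact (hf.anti k).trans ih

private theorem rn_cons (a : P) (w : List P) (hw : w ≠ []) :
    rn (a :: w) = a * rn w * a⁻¹ * (rn w)⁻¹ := by
  cases w with
  | nil => exact absurd rfl hw
  | cons b w => rfl

private theorem rn_mem {f : ℕ → Subgroup P} (hf : Fl f) (w : List P) (hw : w ≠ [])
    (h : ∀ a ∈ w, a ∈ f 1) : rn w ∈ f w.length := by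
  induction w with
  | nil => exact absurd rfl hw
  | cons a w ih =>
    by_cases hw' : w = []
    · subst hw'
      exact h a (by simp)
    · rw [rn_cons a w hw', List.length_cons, add_comm]
      exact hf.com 1 w.length a (h a (by simp)) _
        (ih hw' fun b hb => h b (List.mem_cons_of_mem _ hb))

private theorem rn_congr {f : ℕ → Subgroup P} (hf : Fl f) (x x' : P) (hx' : x' ∈ f 1)
    (h : x * x'⁻¹ ∈ f 2) (w : List P) (hw : ∀ a ∈ w, a ∈ f 1) :
    rn (w ++ [x]) * (rn (w ++ [x']))⁻¹ ∈ f (w.length + 2) := by
  induction w with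
  | nil => exact h
  | cons a w ih =>
    have h1 := ih fun b hb => hw b (List.mem_cons_of_mem _ hb)
    have ha := hw a (by simp)
    rw [List.cons_append, List.cons_append, rn_cons _ _ (by simp), rn_cons _ _ (by simp)]
    set g := rn (w ++ [x]) with hg
    set g' := rn (w ++ [x']) with hg'
    have hg1 : g' ∈ f (w.length + 1) := by
      have h2 := rn_mem hf (w ++ [x']) (by simp) (by
        intro b hb
        rw [List.mem_append, List.mem_singleton] at hb
        rcases hb with hb | rfl
        · exact hw b (List.mem_cons_of_mem _ hb)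
        · exact hx')
      simpa using h2
    have h3 := hf.com 1 _ a ha _ h1
    have h4 := hf.com 1 _ a ha _ hg1
    have h5 := hf.com _ _ _ h1 _ h4
    have h6 : a * g * a⁻¹ * g⁻¹ * (a * g' * a⁻¹ * g'⁻¹)⁻¹ =
        (a * (g * g'⁻¹) * a⁻¹ * (g * g'⁻¹)⁻¹) *
          ((g * g'⁻¹) * (a * g' * a⁻¹ * g'⁻¹) * (g * g'⁻¹)⁻¹ * (a * g' * a⁻¹ * g'⁻¹)⁻¹) := by
      group
    rw [h6]
    refine mul_mem (fl_anti hf ?_ h3) (fl_anti hf ?_ h5)
    · rw [List.length_cons]
      omega
    · rw [List.length_cons]
      omega

end groups33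

section E

variable {P Q L : Type} [Group P] [Group Q] [MulAction Q L] [Fintype L] {p n : ℕ} [Fact p.Prime]
  (D : LG p n P Q L)

/-- `kp` at a Lie bracket, for two labels with the same `s`: `y` has the indices `n + 1, n, ..., 1` -/
theorem kp_br (l : Fin (n + 1) → L) (l₀ l₁ : L) (h : D.s l₀ * (D.s l₁)⁻¹ ∈ D.f 2) :
    D.kp l₀ (br (List.ofFn fun i : Fin (n + 1) => (⟨i.rev.succ, l i⟩ : Lr (Fin (n + 2)) L))) -
        D.kp l₁ (br (List.ofFn fun i : Fin (n + 1) => (⟨i.rev.succ, l i⟩ : Lr (Fin (n + 2)) L))) =
      D.ch l₀ (D.rw (List.ofFn fun i : Fin (n + 1) => (⟨i.rev.succ, l i⟩ : Lr (Fin (n + 2)) L))) -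
        D.ch l₁ (D.rw (List.ofFn fun i : Fin (n + 1) => (⟨i.rev.succ, l i⟩ : Lr (Fin (n + 2)) L))) := by
  set y : Fin (n + 1) → Lr (Fin (n + 2)) L := fun i => ⟨i.rev.succ, l i⟩ with hy
  have hlast : ((List.ofFn y).map Lr.i).getLast? = some 1 := by
    rw [List.map_ofFn, List.ofFn_succ', List.concat_eq_append, List.getLast?_append]
    simp [hy]
  have hnodup : ((List.ofFn y).map Lr.i).Nodup := by
    rw [List.map_ofFn, List.nodup_ofFn]
    intro i j hij
    have h1 : i.rev.succ = j.rev.succ := hij
    exact Fin.rev_injective (Fin.succ_injective _ h1)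
  have hne0 : ∀ b ∈ List.ofFn y, b.i ≠ 0 := by
    intro b hb
    rw [List.mem_ofFn] at hb
    obtain ⟨i, rfl⟩ := hb
    change (i.rev.succ : Fin (n + 2)) ≠ 0
    exact Fin.succ_ne_zero _
  -- `br y` at the words with the last index `1`
  have hbr : ∀ w : List (Lr (Fin (n + 2)) L), (w.map Lr.i).getLast? = some 1 →
      (br (List.ofFn y) w : ZMod p) = if w = List.ofFn y then 1 else 0 := by
    intro w hw
    have h1 : List.ofFn y = List.ofFn (fun i : Fin n => y i.castSucc) ++ [y (Fin.last n)] := by
      rw [List.ofFn_succ', List.concat_eq_append]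
    rw [h1]
    refine br_last _ 1 _ ?_ w hw
    intro a ha
    rw [List.mem_ofFn] at ha
    obtain ⟨i, rfl⟩ := ha
    intro h2
    have h3 : (i.castSucc.rev.succ : Fin (n + 2)).val = 1 := by
      have h5 : (i.castSucc.rev.succ : Fin (n + 2)) = 1 := h2
      have h4 := congrArg Fin.val h5
      rw [Fin.val_one] at h4
      exact h4
    rw [Fin.val_succ, Fin.val_rev, Fin.val_castSucc] at h3
    have := i.2
    omega
  -- the difference of the functionals
  have hkw : ∀ t : Fin (n + 1) → Lr (Fin (n + 2)) L,
      (br (List.ofFn y) (List.ofFn t) : ZMod p) * D.kw l₀ (List.ofFn t) -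
        br (List.ofFn y) (List.ofFn t) * D.kw l₁ (List.ofFn t) =
      if t = y then D.ch l₀ (D.rw (List.ofFn y)) - D.ch l₁ (D.rw (List.ofFn y)) else 0 := by
    intro t
    have ht : List.ofFn t = t 0 :: List.ofFn (fun i : Fin n => t i.succ) := List.ofFn_succ
    have hsec : D.ch (t 0).l (D.rw (List.ofFn (fun i : Fin n => t i.succ) ++ [⟨0, l₀⟩])) =
        D.ch (t 0).l (D.rw (List.ofFn (fun i : Fin n => t i.succ) ++ [⟨0, l₁⟩])) := by
      have h1 := rn_congr D.fl (D.s l₀) (D.s l₁) (D.s_mem l₁) h
        ((List.ofFn (fun i : Fin n => t i.succ)).map fun a => D.s a.l) (by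
          intro a ha
          rw [List.mem_map] at ha
          obtain ⟨b, _, rfl⟩ := ha
          exact D.s_mem _)
      rw [List.length_map, List.length_ofFn, D.bot, Subgroup.mem_bot, mul_inv_eq_one] at h1
      have h2 : D.rw (List.ofFn (fun i : Fin n => t i.succ) ++ [⟨0, l₀⟩]) =
          D.rw (List.ofFn (fun i : Fin n => t i.succ) ++ [⟨0, l₁⟩]) := by
        unfold LG.rw
        rw [List.map_append, List.map_append]
        exact h1
      rw [h2]
    by_cases hty : t = y
    · subst hty
      rw [if_pos rfl, hbr _ hlast, if_pos rfl, one_mul, one_mul]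
      rw [ht] at hlast hnodup hne0 ⊢
      have hc : ((y 0 :: List.ofFn (fun i : Fin n => y i.succ)).map Lr.i).Nodup ∧
          (List.ofFn (fun i : Fin n => y i.succ)).length = n ∧
            ∀ b ∈ y 0 :: List.ofFn (fun i : Fin n => y i.succ), b.i ≠ 0 :=
        ⟨hnodup, List.length_ofFn, hne0⟩
      rw [LG.kw, LG.kw, if_pos hc, if_pos hc, if_pos hlast, if_pos hlast, hsec]
      ring
    · rw [if_neg hty]
      by_cases hl : ((List.ofFn t).map Lr.i).getLast? = some 1
      · rw [hbr _ hl, if_neg (fun h1 => hty (List.ofFn_injective h1)), zero_mul, zero_mul, sub_zero]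
      · rw [ht] at hl ⊢
        rw [LG.kw, LG.kw, if_neg hl, if_neg hl, hsec, sub_self]
  unfold LG.kp
  rw [← Finset.sum_sub_distrib, Finset.sum_congr rfl fun t _ => hkw t, Finset.sum_ite_eq' Finset.univ y,
    if_pos (Finset.mem_univ _)]

end E

end H62.BL
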