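import Pool.Agent.H42.WM.Ser

/-!
# The group `Mg Q L R` of pairs (series with constant term 1, element of `Q`) and its quotients `Uq W`

`W`: a set of words closed under factors and stable under `Q` (`FC`). `Ker W`: the pairs `(y, 1)`, `y` zero on the nonempty words of `W`.
`Uq W = Mg / Ker W`: for `R = ZMod p` and finite `W`, `Q` a `p`-group: a finite `p`-group.
-/

set_option autoImplicit false

noncomputable section

namespace H42.WM

variable {L R Q : Type} [CommRing R] [Group Q] [MulAction Q L]

/-- the action of `Q` on words -/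
def wm (h : Q) (w : List L) : List L := w.map fun l => h • l

theorem wm_one (w : List L) : wm (1 : Q) w = w := by
  unfold wm
  simp

theorem wm_mul (g h : Q) (w : List L) : wm (g * h) w = wm g (wm h w) := by
  unfold wm
  rw [List.map_map]
  refine List.map_congr_left fun l _ => ?_
  exact mul_smul g h l

theorem wm_append (g : Q) (u v : List L) : wm g (u ++ v) = wm g u ++ wm g v := List.map_append

theorem wm_nil (g : Q) : wm g ([] : List L) = [] := rfl

theorem wm_cons (g : Q) (a : L) (w : List L) : wm g (a :: w) = (g • a) :: wm g w := rfl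

theorem wm_eq_nil (g : Q) (w : List L) : wm g w = [] ↔ w = [] := List.map_eq_nil_iff

theorem wm_length (g : Q) (w : List L) : (wm g w).length = w.length := List.length_map _

theorem wm_take (g : Q) (w : List L) (i : ℕ) : wm g (w.take i) = (wm g w).take i := by
  unfold wm
  rw [List.map_take]

theorem wm_drop (g : Q) (w : List L) (i : ℕ) : wm g (w.drop i) = (wm g w).drop i := by
  unfold wm
  rw [List.map_drop]

/-- the action on series -/
def ac (h : Q) (y : Ser L R) : Ser L R := fun w => y (wm h⁻¹ w)

theorem ac_apply (h : Q) (y : Ser L R) (w : List L) : ac h y w = y (wm h⁻¹ w) := rfl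

theorem ac_mul (h : Q) (y f : Ser L R) : ac h (y * f) = ac h y * ac h f := by
  funext w
  rw [ac_apply, Ser.mul_eq, Ser.mul_eq, wm_length]
  refine Finset.sum_congr rfl fun i _ => ?_
  rw [ac_apply, ac_apply, wm_take, wm_drop]

/-- the action on the group of series with constant term 1 -/
def act (Q L R : Type) [CommRing R] [Group Q] [MulAction Q L] : Q →* MulAut (U1 L R) where
  toFun h :=
    { toFun := fun y => ⟨ac h y.s, by rw [ac_apply, wm_nil]; exact y.nil⟩
      invFun := fun y => ⟨ac h⁻¹ y.s, by rw [ac_apply, wm_nil]; exact y.nil⟩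
      left_inv := fun y => by
        refine U1.ext (funext fun w => ?_)
        change y.s (wm h⁻¹ (wm h⁻¹⁻¹ w)) = y.s w
        rw [← wm_mul, mul_inv_cancel, wm_one]
      right_inv := fun y => by
        refine U1.ext (funext fun w => ?_)
        change y.s (wm h⁻¹⁻¹ (wm h⁻¹ w)) = y.s w
        rw [← wm_mul, inv_mul_cancel, wm_one]
      map_mul' := fun y f => U1.ext (ac_mul h y.s f.s) }
  map_one' := by
    refine MulEquiv.ext fun y => U1.ext (funext fun w => ?_)
    change y.s (wm (1 : Q)⁻¹ w) = y.s w
    rw [inv_one, wm_one]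
  map_mul' g h := by
    refine MulEquiv.ext fun y => U1.ext (funext fun w => ?_)
    change y.s (wm (g * h)⁻¹ w) = y.s (wm h⁻¹ (wm g⁻¹ w))
    rw [← wm_mul, mul_inv_rev]

/-- pairs (series with constant term 1, element of `Q`) -/
abbrev Mg (Q L R : Type) [CommRing R] [Group Q] [MulAction Q L] : Type :=
  SemidirectProduct (U1 L R) Q (act Q L R)

/-- the coefficient of a word -/
def co (a : Mg Q L R) (w : List L) : R := a.left.s w

/-- the element with given series and given component in `Q` -/
def pr (y : U1 L R) (h : Q) : Mg Q L R := ⟨y, h⟩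

theorem co_nil (a : Mg Q L R) : co a [] = 1 := a.left.nil

theorem co_one (w : List L) : co (1 : Mg Q L R) w = (1 : Ser L R) w := rfl

theorem co_one_ne {w : List L} (hw : w ≠ []) : co (1 : Mg Q L R) w = 0 := Ser.one_ne hw

/-- equality in `Mg` -/
theorem mg_ext {a b : Mg Q L R} (h1 : a.right = b.right) (h2 : ∀ w, co a w = co b w) : a = b :=
  SemidirectProduct.ext (U1.ext (funext h2)) h1

/-- coefficients of a product -/
theorem co_mul (a b : Mg Q L R) (w : List L) :
    co (a * b) w = ∑ i ∈ Finset.range (w.length + 1),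
      co a (w.take i) * co b (wm a.right⁻¹ (w.drop i)) := by
  change (a.left.s * ac a.right b.left.s) w = _
  rw [Ser.mul_eq]
  rfl

/-- coefficients of a product, nonempty word, extreme terms separated -/
theorem co_mul_ne (a b : Mg Q L R) {w : List L} (hw : w ≠ []) :
    co (a * b) w = co a w + co b (wm a.right⁻¹ w) + ∑ i ∈ Finset.Ioo 0 w.length,
      co a (w.take i) * co b (wm a.right⁻¹ (w.drop i)) := by
  have h0 : 0 < w.length := List.length_pos_iff.2 hw
  have h1 : Finset.range (w.length + 1) = insert 0 (insert w.length (Finset.Ioo 0 w.length)) := by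
    ext i
    simp only [Finset.mem_range, Finset.mem_insert, Finset.mem_Ioo]
    omega
  rw [co_mul, h1, Finset.sum_insert, Finset.sum_insert]
  · rw [List.take_zero, List.drop_zero, List.take_length, List.drop_length, wm_nil, co_nil, co_nil]
    ring
  · simp
  · simp only [Finset.mem_insert, Finset.mem_Ioo]
    omega

/-! ### sets of words, quotients -/

/-- closed under factors and stable under `Q` -/
structure FC (Q : Type) {L : Type} [Group Q] [MulAction Q L] (W : Set (List L)) : Prop where
  fac : ∀ u v, u ++ v ∈ W → u ∈ W ∧ v ∈ W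
  inv : ∀ (h : Q) (w), w ∈ W → wm h w ∈ W

/-- equal modulo `W` -/
def EqW (W : Set (List L)) (a b : Mg Q L R) : Prop := a.right = b.right ∧ ∀ w ∈ W, co a w = co b w

theorem EqW.refl (W : Set (List L)) (a : Mg Q L R) : EqW W a a := ⟨rfl, fun _ _ => rfl⟩

theorem EqW.symm {W : Set (List L)} {a b : Mg Q L R} (h : EqW W a b) : EqW W b a :=
  ⟨h.1.symm, fun w hw => (h.2 w hw).symm⟩

theorem EqW.trans {W : Set (List L)} {a b c : Mg Q L R} (h : EqW W a b) (h' : EqW W b c) :
    EqW W a c := ⟨h.1.trans h'.1, fun w hw => (h.2 w hw).trans (h'.2 w hw)⟩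

theorem EqW.mul {W : Set (List L)} (hW : FC Q W) {a b a' b' : Mg Q L R} (h : EqW W a b)
    (h' : EqW W a' b') : EqW W (a * a') (b * b') := by
  refine ⟨by rw [SemidirectProduct.mul_right, SemidirectProduct.mul_right, h.1, h'.1],
    fun w hw => ?_⟩
  rw [co_mul, co_mul, h.1]
  refine Finset.sum_congr rfl fun i _ => ?_
  obtain ⟨h1, h2⟩ := hW.fac (w.take i) (w.drop i) (by rwa [List.take_append_drop])
  rw [h.2 _ h1, h'.2 _ (hW.inv _ _ h2)]

/-- equality modulo `W` as a congruence -/
def qc {W : Set (List L)} (hW : FC Q W) (R : Type) [CommRing R] : Con (Mg Q L R) where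
  r := EqW W
  iseqv := ⟨EqW.refl W, EqW.symm, EqW.trans⟩
  mul' := fun h h' => h.mul hW h'

/-- the quotient group -/
abbrev Uq {W : Set (List L)} (hW : FC Q W) (R : Type) [CommRing R] : Type := (qc hW R).Quotient

/-- the projection -/
def mk {W : Set (List L)} (hW : FC Q W) : Mg Q L R →* Uq hW R := (qc hW R).mk'

theorem mk_eq {W : Set (List L)} (hW : FC Q W) {a b : Mg Q L R} :
    mk hW a = mk hW b ↔ a.right = b.right ∧ ∀ w ∈ W, co a w = co b w := (qc hW R).eq

theorem mk_surj {W : Set (List L)} (hW : FC Q W) :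
    Function.Surjective (mk (R := R) hW) := (qc hW R).mk'_surjective

/-- the component in `Q` of an element of the quotient -/
def rt {W : Set (List L)} (hW : FC Q W) : Uq hW R →* Q :=
  (qc hW R).lift (SemidirectProduct.rightHom) fun _ _ h => h.1

theorem rt_mk {W : Set (List L)} (hW : FC Q W) (a : Mg Q L R) : rt hW (mk hW a) = a.right := rfl

/-- the inclusion of `Q` -/
def inq {W : Set (List L)} (hW : FC Q W) (R : Type) [CommRing R] : Q →* Uq hW R :=
  (mk hW).comp (SemidirectProduct.inr : Q →* Mg Q L R)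

/-- the quotient as a set -/
def uqe {W : Set (List L)} (hW : FC Q W) (R : Type) [CommRing R] :
    Uq hW R ≃ Q × ({w // w ∈ W ∧ w ≠ []} → R) where
  toFun x := Con.liftOn x (fun a : Mg Q L R => (a.right, fun w => co a w.1)) (by
    intro a b h
    exact Prod.ext h.1 (funext fun w => h.2 w.1 w.2.1))
  invFun x := mk hW ⟨⟨fun w => by
    classical exact if h : w ∈ W ∧ w ≠ [] then x.2 ⟨w, h⟩ else if w = [] then 1 else 0,
      by simp⟩, x.1⟩
  left_inv := by
    intro x
    obtain ⟨a, rfl⟩ := mk_surj hW x
    refine (mk_eq hW).2 ⟨rfl, fun w hw => ?_⟩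
    by_cases h : w = []
    · subst h
      rw [co_nil, co_nil]
    · exact dif_pos ⟨hw, h⟩
  right_inv := by
    intro x
    refine Prod.ext rfl (funext fun w => ?_)
    exact dif_pos w.2

/-- number of elements of the quotient -/
theorem card_uq {W : Set (List L)} (hW : FC Q W) [Finite Q] [Finite R] (hf : W.Finite) :
    Finite (Uq hW R) ∧
      Nat.card (Uq hW R) = Nat.card Q * Nat.card R ^ (Nat.card {w // w ∈ W ∧ w ≠ []}) := by
  have h1 : Finite {w // w ∈ W ∧ w ≠ []} := (hf.subset fun w hw => hw.1 : Set.Finite {w | w ∈ W ∧ w ≠ []})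
  refine ⟨Finite.of_equiv _ (uqe hW R).symm, ?_⟩
  rw [Nat.card_congr (uqe hW R), Nat.card_prod, Nat.card_fun]

theorem pgroup_uq {p : ℕ} [Fact p.Prime] {W : Set (List L)} (hW : FC Q W) [Finite Q]
    (hQ : IsPGroup p Q) (hf : W.Finite) : IsPGroup p (Uq hW (ZMod p)) := by
  obtain ⟨h1, h2⟩ := card_uq (R := ZMod p) hW hf
  obtain ⟨n, hn⟩ := IsPGroup.iff_card.1 hQ
  refine IsPGroup.of_card (n := n + Nat.card {w // w ∈ W ∧ w ≠ []}) ?_
  rw [h2, hn, Nat.card_zmod, pow_add]

end H42.WM
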