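import Pool.Agent.H62.BL.Alg

/-!
# [H42 WM B] the group `UG` (statements: helper62)
-/

set_option autoImplicit false

open scoped Classical

noncomputable section

namespace H62.BL

section B

variable {Q α R : Type} [Group Q] [MulAction Q α] [CommRing R] {W W' : WSet Q α}

theorem cv_nil (y f : List α → R) : cv y f [] = y [] * f [] := by rw [cv]

theorem cv_cons (y f : List α → R) (a : α) (w : List α) :
    cv y f (a :: w) = y [] * f (a :: w) + cv (fun v => y (a :: v)) f w := by rw [cv]

theorem cv_add_left (y y' f : List α → R) (w : List α) :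
    cv (fun v => y v + y' v) f w = cv y f w + cv y' f w := by
  induction w generalizing y y' with
  | nil => simp only [cv_nil]; ring
  | cons a w ih => simp only [cv_cons]; rw [ih]; ring

theorem cv_smul_left (c : R) (y f : List α → R) (w : List α) :
    cv (fun v => c * y v) f w = c * cv y f w := by
  induction w generalizing y with
  | nil => simp only [cv_nil]; ring
  | cons a w ih => simp only [cv_cons]; rw [ih]; ring

theorem cv_add_right (y f f' : List α → R) (w : List α) :
    cv y (fun v => f v + f' v) w = cv y f w + cv y f' w := by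
  induction w generalizing y with
  | nil => simp only [cv_nil]; ring
  | cons a w ih => simp only [cv_cons]; rw [ih]; ring

theorem cv_smul_right (c : R) (y f : List α → R) (w : List α) :
    cv y (fun v => c * f v) w = c * cv y f w := by
  induction w generalizing y with
  | nil => simp only [cv_nil]; ring
  | cons a w ih => simp only [cv_cons]; rw [ih]; ring

theorem cv_zero_left (f : List α → R) (w : List α) : cv (fun _ => (0 : R)) f w = 0 := by
  have h1 := cv_smul_left (0 : R) (fun _ => (0 : R)) f w
  simpa using h1

theorem cv_zero_right (y : List α → R) (w : List α) : cv y (fun _ => (0 : R)) w = 0 := by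
  have h1 := cv_smul_right (0 : R) y (fun _ => (0 : R)) w
  simpa using h1

theorem cv_assoc (y f g : List α → R) (w : List α) :
    cv (cv y f) g w = cv y (cv f g) w := by
  induction w generalizing y with
  | nil => simp only [cv_nil]; ring
  | cons a w ih =>
    have h1 : (fun v => cv y f (a :: v)) =
        fun v => y [] * f (a :: v) + cv (fun v => y (a :: v)) f v := by
      funext v
      rw [cv_cons]
    rw [cv_cons, cv_cons, h1, cv_add_left, cv_smul_left, ih, cv_nil, cv_cons f g]
    ring

theorem cv_one_left (f : List α → R) (w : List α) : cv e1 f w = f w := by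
  cases w with
  | nil => simp [cv_nil, e1]
  | cons a w =>
    rw [cv_cons]
    have h1 : (fun v : List α => (e1 (a :: v) : R)) = fun _ => (0 : R) := by
      funext v
      simp [e1]
    rw [h1, cv_zero_left]
    simp [e1]

theorem cv_one_right (y : List α → R) (w : List α) : cv y e1 w = y w := by
  induction w generalizing y with
  | nil => simp [cv_nil, e1]
  | cons a w ih =>
    rw [cv_cons, ih]
    simp [e1]

/-- the product as a sum over the splittings of the word -/
theorem cv_eq (y f : List α → R) (w : List α) :
    cv y f w = ∑ i ∈ Finset.range (w.length + 1), y (w.take i) * f (w.drop i) := by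
  induction w generalizing y with
  | nil => simp [cv_nil]
  | cons a w ih =>
    rw [cv_cons, ih, List.length_cons, Finset.sum_range_succ' _ (w.length + 1)]
    simp only [List.take_succ_cons, List.drop_succ_cons, List.take_zero, List.drop_zero]
    ring

/-- the product at `w` depends only on the values at the factors of `w` -/
theorem cv_congr {y y' f f' : List α → R} {w : List α}
    (h : ∀ u v, u ++ v = w → y u = y' u ∧ f v = f' v) : cv y f w = cv y' f' w := by
  rw [cv_eq, cv_eq]
  refine Finset.sum_congr rfl fun i _ => ?_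
  obtain ⟨h1, h2⟩ := h _ _ (List.take_append_drop i w)
  rw [h1, h2]

theorem cv_neg_left (y f : List α → R) (w : List α) :
    cv (fun v => -y v) f w = -cv y f w := by
  have h1 := cv_smul_left (-1 : R) y f w
  simpa using h1

theorem cv_sub_left (y y' f : List α → R) (w : List α) :
    cv (fun v => y v - y' v) f w = cv y f w - cv y' f w := by
  have h1 := cv_add_left y (fun v => -y' v) f w
  rw [cv_neg_left] at h1
  simpa [sub_eq_add_neg] using h1

theorem cv_sub_right (y f f' : List α → R) (w : List α) :
    cv y (fun v => f v - f' v) w = cv y f w - cv y f' w := by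
  have h1 := cv_smul_right (-1 : R) y f' w
  have h2 := cv_add_right y f (fun v => -1 * f' v) w
  rw [h1] at h2
  simpa [sub_eq_add_neg] using h2

theorem qa_one (c : List α → R) : qa (1 : Q) c = c := by
  funext w
  simp [qa]

theorem qa_mul (q q' : Q) (c : List α → R) : qa (q * q') c = qa q (qa q' c) := by
  funext w
  simp only [qa, List.map_map]
  congr 1
  refine List.map_congr_left fun a _ => ?_
  rw [mul_inv_rev, mul_smul]
  rfl

theorem qa_e1 (q : Q) : qa q (e1 : List α → R) = e1 := by
  funext w
  simp [qa, e1]

theorem qa_cv (q : Q) (y f : List α → R) : qa q (cv y f) = cv (qa q y) (qa q f) := by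
  funext w
  simp only [qa, cv_eq, List.length_map, List.map_take, List.map_drop]

theorem tr_of {c : List α → R} {w : List α} (h : w ∈ W.s) : tr W c w = c w := if_pos h

theorem tr_out {c : List α → R} {w : List α} (h : w ∉ W.s) : tr W c w = 0 := if_neg h

theorem tr_self (a : UG Q α R W) : tr W a.c = a.c := by
  funext w
  by_cases h : w ∈ W.s
  · exact if_pos h
  · rw [a.out w h]
    exact if_neg h

theorem tr_qa (q : Q) (c : List α → R) : tr W (qa q c) = qa q (tr W c) := by
  funext w
  have h1 := W.act q⁻¹ w
  simp only [tr, qa, h1]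

theorem tr_cv (y f : List α → R) : tr W (cv (tr W y) (tr W f)) = tr W (cv y f) := by
  funext w
  by_cases h : w ∈ W.s
  · rw [tr_of h, tr_of h]
    refine cv_congr fun u v huv => ?_
    rw [← huv] at h
    exact ⟨tr_of (W.left _ _ h), tr_of (W.right _ _ h)⟩
  · rw [tr_out h, tr_out h]

theorem tr_cv_left (y f : List α → R) : tr W (cv (tr W y) f) = tr W (cv y f) := by
  funext w
  by_cases h : w ∈ W.s
  · rw [tr_of h, tr_of h]
    refine cv_congr fun u v huv => ?_
    rw [← huv] at h
    exact ⟨tr_of (W.left _ _ h), rfl⟩
  · rw [tr_out h, tr_out h]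

theorem tr_cv_right (y f : List α → R) : tr W (cv y (tr W f)) = tr W (cv y f) := by
  funext w
  by_cases h : w ∈ W.s
  · rw [tr_of h, tr_of h]
    refine cv_congr fun u v huv => ?_
    rw [← huv] at h
    exact ⟨rfl, tr_of (W.right _ _ h)⟩
  · rw [tr_out h, tr_out h]

theorem tr_e1 : tr W (e1 : List α → R) = e1 := by
  funext w
  by_cases h : w ∈ W.s
  · exact tr_of h
  · rw [tr_out h]
    exact (if_neg fun h2 => h (by rw [h2]; exact W.nil)).symm

theorem ug_assoc (a b c : UG Q α R W) : a * b * c = a * (b * c) := by
  refine UG.ext (mul_assoc a.q b.q c.q) ?_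
  rw [ug_mul_c, ug_mul_c, ug_mul_c, ug_mul_c, ug_mul_q, tr_cv_left, ← tr_qa, tr_cv_right, qa_cv,
    qa_mul]
  funext w
  by_cases h : w ∈ W.s
  · rw [tr_of h, tr_of h, cv_assoc]
  · rw [tr_out h, tr_out h]

theorem ug_one_q : (1 : UG Q α R W).q = 1 := rfl

theorem ug_one_c : (1 : UG Q α R W).c = e1 := rfl

theorem ug_mul_one (a : UG Q α R W) : a * 1 = a := by
  refine UG.ext (mul_one a.q) ?_
  rw [ug_mul_c, ug_one_c, qa_e1]
  funext w
  by_cases h : w ∈ W.s
  · rw [tr_of h, cv_one_right]
  · rw [tr_out h, a.out w h]

/-- approximations of the right inverse of `c`, `c [] = 1` -/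
def ivs (c : List α → R) : ℕ → List α → R
  | 0 => e1
  | n + 1 => fun w => e1 w - cv (fun v => c v - e1 v) (ivs c n) w

theorem ivs_stab {c : List α → R} (hc : c [] = 1) (n : ℕ) :
    ∀ w : List α, w.length ≤ n → ivs c (n + 1) w = ivs c n w := by
  induction n with
  | zero =>
    intro w hw
    have h1 : w = [] := List.length_eq_zero_iff.1 (by omega)
    subst h1
    change e1 [] - cv (fun v => c v - e1 v) (ivs c 0) [] = ivs c 0 []
    rw [cv_nil, hc]
    simp [e1, ivs]
  | succ n ih =>
    intro w hw
    change e1 w - cv (fun v => c v - e1 v) (ivs c (n + 1)) w =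
      e1 w - cv (fun v => c v - e1 v) (ivs c n) w
    congr 1
    rw [cv_eq, cv_eq]
    refine Finset.sum_congr rfl fun i _ => ?_
    rcases Nat.eq_zero_or_pos i with rfl | hi
    · rw [List.take_zero, hc]
      simp [e1]
    · rcases Nat.eq_zero_or_pos w.length with h0 | h0
      · have h1 : w = [] := List.length_eq_zero_iff.1 h0
        subst h1
        rw [List.take_nil, hc]
        simp [e1]
      · rw [ih (w.drop i) (by rw [List.length_drop]; omega)]

theorem ivs_stab' {c : List α → R} (hc : c [] = 1) (n m : ℕ) (h : n ≤ m) :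
    ∀ w : List α, w.length ≤ n → ivs c m w = ivs c n w := by
  induction m, h using Nat.le_induction with
  | base => intro w _; rfl
  | succ m h ih =>
    intro w hw
    rw [ivs_stab hc m w (hw.trans h), ih w hw]

theorem cv_right_inv {c : List α → R} (hc : c [] = 1) :
    cv c (fun w => ivs c w.length w) = e1 := by
  funext w
  have h1 : cv c (fun w => ivs c w.length w) w = cv c (ivs c w.length) w := by
    refine cv_congr fun u v huv => ⟨rfl, ?_⟩
    refine (ivs_stab' hc _ _ ?_ v le_rfl).symm
    rw [← huv, List.length_append]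
    omega
  have h2 : cv c (ivs c w.length) w =
      cv (fun v => (c v - e1 v) + e1 v) (ivs c w.length) w := by
    congr 1
    funext v
    ring
  have h3 := ivs_stab hc w.length w le_rfl
  change e1 w - cv (fun v => c v - e1 v) (ivs c w.length) w = ivs c w.length w at h3
  rw [h1, h2, cv_add_left, cv_one_left, ← h3]
  ring

theorem ug_exists_inv (a : UG Q α R W) : ∃ b : UG Q α R W, a * b = 1 := by
  obtain ⟨d, hd⟩ : ∃ d : List α → R, cv a.c d = e1 := ⟨_, cv_right_inv a.one⟩
  have hd0 : d [] = 1 := by
    have h1 := congrFun hd []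
    rw [cv_nil, a.one, one_mul] at h1
    rw [h1]
    exact if_pos rfl
  refine ⟨⟨a.q⁻¹, tr W (qa a.q⁻¹ d), ?_, fun w hw => tr_out hw⟩, UG.ext (mul_inv_cancel a.q) ?_⟩
  · rw [tr_of W.nil]
    exact hd0
  · rw [ug_mul_c]
    change tr W (cv a.c (qa a.q (tr W (qa a.q⁻¹ d)))) = e1
    rw [← tr_qa, tr_cv_right, ← qa_mul, mul_inv_cancel, qa_one, hd, tr_e1]

instance : Inv (UG Q α R W) := ⟨fun a => (ug_exists_inv a).choose⟩

instance : Group (UG Q α R W) :=
  Group.ofRightAxioms ug_assoc ug_mul_one fun a => (ug_exists_inv a).choose_spec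

/-- truncation to a smaller set of words -/
def trh (h : W'.s ⊆ W.s) : UG Q α R W →* UG Q α R W' where
  toFun a := ⟨a.q, tr W' a.c, by rw [tr, if_pos W'.nil, a.one], fun w hw => if_neg hw⟩
  map_one' := UG.ext rfl tr_e1
  map_mul' a b := by
    refine UG.ext rfl ?_
    change tr W' (tr W (cv a.c (qa a.q b.c))) = tr W' (cv (tr W' a.c) (qa a.q (tr W' b.c)))
    rw [← tr_qa, tr_cv]
    funext w
    by_cases hw : w ∈ W'.s
    · rw [tr_of hw, tr_of hw, tr_of (h hw)]
    · rw [tr_out hw, tr_out hw]

/-- the hom `Q → UG` -/
def qh : Q →* UG Q α R W where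
  toFun := qi
  map_one' := rfl
  map_mul' a b := by
    refine UG.ext rfl ?_
    change e1 = tr W (cv e1 (qa a e1))
    rw [qa_e1]
    have h1 : cv e1 e1 = (e1 : List α → R) := funext fun w => cv_one_left e1 w
    rw [h1, tr_e1]

theorem ug_eq_qi (a : UG Q α R W) (h : ∀ w, w ≠ [] → a.c w = 0) : a = qi a.q := by
  refine UG.ext rfl (funext fun w => ?_)
  change a.c w = e1 w
  rcases eq_or_ne w [] with rfl | h0
  · rw [a.one]
    exact (if_pos rfl).symm
  · rw [h w h0]
    exact (if_neg h0).symm

theorem lt_q (a : α) (s : R) : (lt a s : UG Q α R W).q = 1 := rfl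

theorem lt_c (a : α) (s : R) : (lt a s : UG Q α R W).c = tr W (e1 + s • el a) := rfl

theorem lt_zero (a : α) : lt a (0 : R) = (1 : UG Q α R W) := by
  refine UG.ext rfl ?_
  rw [lt_c, zero_smul, add_zero, tr_e1]
  rfl

theorem cv_el_left (a : α) (f : List α → R) (w : List α) :
    cv (el a) f w = match w with
      | [] => 0
      | b :: v => if b = a then f v else 0 := by
  cases w with
  | nil => simp [cv_nil, el]
  | cons b v =>
    rw [cv_cons]
    have h1 : (fun u : List α => (el a (b :: u) : R)) = fun u => (if b = a then 1 else 0) * e1 u := by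
      funext u
      by_cases h : b = a <;> by_cases h2 : u = [] <;> simp [el, e1, h, h2]
    rw [h1, cv_smul_left, cv_one_left]
    simp [el]

theorem cv_el_right (a : α) (f : List α → R) (w v : List α) (hw : w = v ++ [a]) :
    cv f (el a) w = f v := by
  rw [cv_eq, Finset.sum_eq_single v.length]
  · rw [hw, List.take_left', List.drop_left'] <;> simp [el]
  · intro i hi hne
    rw [Finset.mem_range, hw, List.length_append, List.length_singleton] at hi
    have h1 : el (R := R) a (w.drop i) = 0 := by
      refine if_neg fun h => hne ?_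
      have h2 := congrArg List.length h
      simp only [List.length_drop, hw, List.length_append, List.length_singleton] at h2
      omega
    rw [h1, mul_zero]
  · intro h
    exfalso
    apply h
    rw [Finset.mem_range, hw, List.length_append, List.length_singleton]
    omega

theorem cv_el_right' (a : α) (f : List α → R) (w : List α) (hw : ∀ v, w ≠ v ++ [a]) :
    cv f (el a) w = 0 := by
  rw [cv_eq]
  refine Finset.sum_eq_zero fun i _ => ?_
  have h1 : el (R := R) a (w.drop i) = 0 := by
    refine if_neg fun h => hw (w.take i) ?_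
    rw [← h, List.take_append_drop]
  rw [h1, mul_zero]

theorem lt_mul_lt {a : α} (ha : [a, a] ∉ W.s) (s t : R) :
    (lt a s * lt a t : UG Q α R W) = lt a (s + t) := by
  refine UG.ext (mul_one _) ?_
  rw [ug_mul_c, lt_q, qa_one, lt_c, lt_c, lt_c, tr_cv]
  funext w
  by_cases h : w ∈ W.s
  · rw [tr_of h, tr_of h]
    have h1 : (e1 + s • el a : List α → R) = fun v => e1 v + s * el a v := rfl
    have h2 : (e1 + t • el a : List α → R) = fun v => e1 v + t * el a v := rfl
    rw [h1, h2, cv_add_left, cv_smul_left, cv_one_left, cv_add_right, cv_smul_right, cv_one_right,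
      cv_el_left]
    have h3 : (match w with
      | [] => (0 : R)
      | b :: v => if b = a then el a v else 0) = 0 := by
      cases w with
      | nil => rfl
      | cons b v =>
        by_cases hb : b = a
        · subst hb
          refine (if_pos rfl).trans (if_neg fun hv => ha ?_)
          rw [hv] at h
          exact h
        · exact if_neg hb
    rw [h3]
    change _ = e1 w + (s + t) * el a w
    ring
  · rw [tr_out h, tr_out h]

theorem lt_pow {p : ℕ} {a : α} (ha : [a, a] ∉ W.s) (s : ZMod p) : (lt a s : UG Q α (ZMod p) W) ^ p = 1 := by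
  have h1 : ∀ n : ℕ, (lt a s : UG Q α (ZMod p) W) ^ n = lt a (n * s) := by
    intro n
    induction n with
    | zero => rw [pow_zero, Nat.cast_zero, zero_mul, lt_zero]
    | succ n ih =>
      rw [pow_succ, ih, lt_mul_lt ha]
      congr 1
      push_cast
      ring
  rw [h1, ZMod.natCast_self, zero_mul, lt_zero]

theorem ug_comm (a : α) (s : R) (u : UG Q α R W) (hu : u.q • a = a)
    (h : ∀ w, w ≠ [] → u.c w ≠ 0 → w ++ [a] ∉ W.s ∧ a :: w ∉ W.s) : u * lt a s = lt a s * u := by
  refine UG.ext ?_ ?_
  · rw [ug_mul_q, ug_mul_q, lt_q, mul_one, one_mul]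
  · have hqa : qa u.q (e1 + s • el a : List α → R) = fun v => e1 v + s * el a v := by
      funext w
      have h2 : ∀ v : List α, (v.map fun b => u.q⁻¹ • b) = [a] ↔ v = [a] := by
        intro v
        constructor
        · intro h3
          have h4 := congrArg (List.map fun b => u.q • b) h3
          rw [List.map_map] at h4
          have h5 : ((fun b : α => u.q • b) ∘ fun b => u.q⁻¹ • b) = id := by
            funext b
            exact smul_inv_smul _ _
          rw [h5, List.map_id] at h4
          rw [h4, List.map_singleton, hu]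
        · intro h3
          rw [h3, List.map_singleton]
          congr 1
          rw [inv_smul_eq_iff, hu]
      have h3 : ∀ v : List α, (v.map fun b => u.q⁻¹ • b) = [] ↔ v = [] := fun v => by simp
      change (if (w.map fun b => u.q⁻¹ • b) = [] then (1 : R) else 0) +
        s * (if (w.map fun b => u.q⁻¹ • b) = [a] then (1 : R) else 0) =
        (if w = [] then (1 : R) else 0) + s * (if w = [a] then (1 : R) else 0)
      simp only [h2, h3]
    rw [ug_mul_c, ug_mul_c, lt_q, qa_one, lt_c, tr_cv_left, ← tr_qa, tr_cv_right, hqa]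
    have h1 : (e1 + s • el a : List α → R) = fun v => e1 v + s * el a v := rfl
    rw [h1]
    funext w
    by_cases hw : w ∈ W.s
    · rw [tr_of hw, tr_of hw, cv_add_right, cv_add_left, cv_one_left, cv_one_right, cv_smul_right,
        cv_smul_left]
      congr 2
      by_cases h0 : w = [a]
      · rw [cv_el_right a u.c w [] (by rw [h0]; rfl), h0, cv_el_left]
        simp
      · have h4 : cv u.c (el a) w = 0 := by
          by_cases h5 : ∃ v, w = v ++ [a]
          · obtain ⟨v, hv⟩ := h5
            rw [cv_el_right a u.c w v hv]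
            by_contra h6
            have h7 : v ≠ [] := by
              rintro rfl
              exact h0 hv
            exact (h v h7 h6).1 (hv ▸ hw)
          · exact cv_el_right' a u.c w fun v hv => h5 ⟨v, hv⟩
        rw [h4, cv_el_left]
        cases w with
        | nil => rfl
        | cons b v =>
          by_cases hb : b = a
          · subst hb
            change 0 = if b = b then u.c v else 0
            rw [if_pos rfl]
            by_contra h6
            have h7 : v ≠ [] := by
              rintro rfl
              exact h0 rfl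
            exact (h v h7 (Ne.symm h6)).2 hw
          · exact (if_neg hb).symm
    · rw [tr_out hw, tr_out hw]

/-- the group as a set -/
def uge : UG Q α R W ≃ Q × ({w // w ∈ W.s ∧ w ≠ []} → R) where
  toFun a := (a.q, fun w => a.c w.1)
  invFun x := ⟨x.1, fun w => if h : w ∈ W.s ∧ w ≠ [] then x.2 ⟨w, h⟩ else if w = [] then 1 else 0,
    by simp, fun w hw => by
      rw [dif_neg fun h => hw h.1, if_neg fun h => hw (by rw [h]; exact W.nil)]⟩
  left_inv a := by
    refine UG.ext rfl (funext fun w => ?_)
    change (if h : w ∈ W.s ∧ w ≠ [] then a.c w else if w = [] then 1 else 0) = a.c w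
    by_cases h0 : w = []
    · rw [dif_neg fun h => h.2 h0, if_pos h0, h0, a.one]
    · by_cases h1 : w ∈ W.s
      · rw [dif_pos ⟨h1, h0⟩]
      · rw [dif_neg fun h => h1 h.1, if_neg h0, a.out w h1]
  right_inv x := by
    refine Prod.ext rfl (funext fun w => ?_)
    change (if h : w.1 ∈ W.s ∧ w.1 ≠ [] then x.2 ⟨w.1, h⟩ else if w.1 = [] then 1 else 0) = x.2 w
    rw [dif_pos w.2]

theorem ug_finite {p : ℕ} [NeZero p] [Finite Q] (hW : W.s.Finite) : Finite (UG Q α (ZMod p) W) := by
  have h1 : Finite {w // w ∈ W.s ∧ w ≠ []} :=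
    (hW.subset fun w hw => hw.1 : Set.Finite {w | w ∈ W.s ∧ w ≠ []})
  exact Finite.of_equiv _ uge.symm

theorem ug_card {p : ℕ} [NeZero p] [Finite Q] (hW : W.s.Finite) :
    Nat.card (UG Q α (ZMod p) W) = Nat.card Q * p ^ (Nat.card W.s - 1) := by
  have h1 : Finite {w // w ∈ W.s ∧ w ≠ []} :=
    (hW.subset fun w hw => hw.1 : Set.Finite {w | w ∈ W.s ∧ w ≠ []})
  have h2 : Nat.card {w // w ∈ W.s ∧ w ≠ []} = Nat.card W.s - 1 := by
    have h3 : {w | w ∈ W.s ∧ w ≠ []} = W.s \ {[]} := by
      ext w
      simp
    have h4 := Set.ncard_sdiff_singleton_of_mem W.nil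
    rw [← h3] at h4
    exact h4
  rw [Nat.card_congr uge, Nat.card_prod, Nat.card_fun, Nat.card_zmod, h2]

theorem wn_finite {I L : Type} [MulAction Q L] [Finite I] [Finite L] (S : Set I) (n : ℕ) :
    (WN Q L S n).s.Finite := by
  have h1 : (⋃ k ∈ Set.Iic n, {w : List (Lr I L) | w.length = k}).Finite :=
    Set.Finite.biUnion (Set.finite_Iic n) fun k _ => List.finite_length_eq _ _
  refine h1.subset fun w hw => ?_
  simp only [Set.mem_iUnion]
  exact ⟨w.length, hw.1, rfl⟩

end B

end H62.BL
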