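import Pool.Agent.H42.WM.CubA
import Pool.Agent.H42.WM.WrdB

/-!
# [H42 WM C] the homomorphisms `cub`, `unh`, `rel`, `abe` (statements: helper62)
-/

set_option autoImplicit false

open scoped Classical

noncomputable section

namespace H62.BL

section C

variable {Gn I L P Q R : Type} [Group P] [Group Q] [MulAction Q L] [CommRing R]

/-- the values at the vertices of the cube -/
def cub {m : ℕ} (kd : Gn → Option (Fin m × Bool)) (bs : Gn → P) (g : Fin m → P) :
    FreeGroup Gn →* ((Fin m → Bool) → P) :=
  FreeGroup.lift fun x => match kd x with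
    | none => fun _ => bs x
    | some (j, b) => fa j b (g j)

/-- the universal hom with coefficients `s` -/
def unh (W : WSet Q (Lr I L)) (kd : Gn → Option (I × Bool)) (bs : Gn → Q) (lam : I → L)
    (s : I → Bool → R) : FreeGroup Gn →* UG Q (Lr I L) R W :=
  FreeGroup.lift fun x => match kd x with
    | none => qi (bs x)
    | some (j, b) => lt ⟨j, lam j⟩ (s j b)

/-- the relative universal hom -/
def rel (W : WSet Q (Lr I L)) (kd : Gn → Option (I × Bool)) (bs : Gn → Q) (lam : I → L) :
    FreeGroup Gn →* UG Q (Lr I L) R W := unh W kd bs lam fun _ b => if b then 1 else -1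

/-- the universal hom of the vertex `e` -/
def abe (W : WSet Q (Lr I L)) (kd : Gn → Option (I × Bool)) (bs : Gn → Q) (lam : I → L) (e : I → Bool) :
    FreeGroup Gn →* UG Q (Lr I L) R W := unh W kd bs lam fun j b => if e j = b then 1 else 0

/-- the letter `a` with the second index `b` -/
private def lf (a : Lr I L) (b : Bool) : Lr (I × Bool) L := ⟨(a.i, b), a.l⟩

/-- forget the second index -/
private def pr (a : Lr (I × Bool) L) : Lr I L := ⟨a.i.1, a.l⟩

/-- specialisation -/
private def spb (s : I → Bool → R) : (List (Lr (I × Bool) L) → R) → List (Lr I L) → R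
  | c, [] => c []
  | c, a :: w => ∑ b : Bool, s a.i b * spb s (fun u => c (lf a b :: u)) w

private theorem spb_nil (s : I → Bool → R) (c : List (Lr (I × Bool) L) → R) : spb s c [] = c [] := rfl

private theorem spb_cons (s : I → Bool → R) (c : List (Lr (I × Bool) L) → R) (a : Lr I L) (w : List (Lr I L)) :
    spb s c (a :: w) = ∑ b : Bool, s a.i b * spb s (fun u => c (lf a b :: u)) w := rfl

private theorem spb_add (s : I → Bool → R) (c c' : List (Lr (I × Bool) L) → R) (w : List (Lr I L)) :
    spb s (c + c') w = spb s c w + spb s c' w := by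
  induction w generalizing c c' with
  | nil => rfl
  | cons a w ih =>
    rw [spb_cons, spb_cons, spb_cons, ← Finset.sum_add_distrib]
    refine Finset.sum_congr rfl fun b _ => ?_
    rw [← mul_add, ← ih]
    rfl

private theorem spb_smul (s : I → Bool → R) (r : R) (c : List (Lr (I × Bool) L) → R) (w : List (Lr I L)) :
    spb s (r • c) w = r * spb s c w := by
  induction w generalizing c with
  | nil => rfl
  | cons a w ih =>
    rw [spb_cons, spb_cons, Finset.mul_sum]
    refine Finset.sum_congr rfl fun b _ => ?_
    rw [mul_left_comm, ← ih]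
    rfl

private theorem spb_zero (s : I → Bool → R) (w : List (Lr I L)) :
    spb s (0 : List (Lr (I × Bool) L) → R) w = 0 := by
  have h := spb_smul s 0 (0 : List (Lr (I × Bool) L) → R) w
  rw [zero_smul, zero_mul] at h
  exact h

private theorem rc_add_left {α : Type} (c c' d : List α → R) (w : List α) :
    cv (c + c') d w = cv c d w + cv c' d w := by
  induction w generalizing c c' with
  | nil => exact add_mul _ _ _
  | cons a w ih =>
    show (c [] + c' []) * d (a :: w) + cv ((fun u => c (a :: u)) + fun u => c' (a :: u)) d w =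
      c [] * d (a :: w) + cv (fun u => c (a :: u)) d w + (c' [] * d (a :: w) + cv (fun u => c' (a :: u)) d w)
    rw [ih]
    ring

private theorem rc_smul_left {α : Type} (r : R) (c d : List α → R) (w : List α) :
    cv (r • c) d w = r * cv c d w := by
  induction w generalizing c with
  | nil => exact mul_assoc _ _ _
  | cons a w ih =>
    show (r * c []) * d (a :: w) + cv (r • fun u => c (a :: u)) d w =
      r * (c [] * d (a :: w) + cv (fun u => c (a :: u)) d w)
    rw [ih]
    ring

private theorem cv_sum_left {α ι : Type} (T : Finset ι) (c : ι → List α → R) (d : List α → R) (w : List α) :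
    cv (fun u => ∑ i ∈ T, c i u) d w = ∑ i ∈ T, cv (c i) d w := by
  induction T using Finset.induction_on with
  | empty =>
    have h := rc_smul_left (0 : R) (fun _ => 0 : List α → R) d w
    rw [zero_mul] at h
    rw [Finset.sum_empty, ← h]
    congr 1
    funext u
    simp
  | insert i T hi ih =>
    rw [Finset.sum_insert hi, ← ih, ← rc_add_left]
    congr 1
    funext u
    rw [Finset.sum_insert hi]
    rfl

private theorem spb_cv (s : I → Bool → R) (c c' : List (Lr (I × Bool) L) → R) (w : List (Lr I L)) :
    spb s (cv c c') w = cv (spb s c) (spb s c') w := by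
  induction w generalizing c with
  | nil => rfl
  | cons a w ih =>
    have h1 : ∀ b : Bool, spb s (fun u => cv c c' (lf a b :: u)) w =
        c [] * spb s (fun u => c' (lf a b :: u)) w + cv (spb s fun u => c (lf a b :: u)) (spb s c') w := by
      intro b
      rw [← ih, ← spb_smul, ← spb_add]
      rfl
    rw [spb_cons]
    show _ = c [] * spb s c' (a :: w) + cv (fun u => spb s c (a :: u)) (spb s c') w
    have h2 : (fun u => spb s c (a :: u)) = fun u => ∑ b : Bool,
        (s a.i b • spb s fun u' => c (lf a b :: u')) u := rfl
    rw [h2, cv_sum_left, spb_cons, Finset.mul_sum, ← Finset.sum_add_distrib]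
    refine Finset.sum_congr rfl fun b _ => ?_
    rw [h1, rc_smul_left]
    ring

private theorem spb_qa (s : I → Bool → R) (q : Q) (c : List (Lr (I × Bool) L) → R) (w : List (Lr I L)) :
    spb s (qa q c) w = qa q (spb s c) w := by
  induction w generalizing c with
  | nil => rfl
  | cons a w ih =>
    show _ = spb s c ((q⁻¹ • a) :: w.map fun a => q⁻¹ • a)
    rw [spb_cons, spb_cons]
    refine Finset.sum_congr rfl fun b _ => ?_
    have h1 : (fun u => qa q c (lf a b :: u)) = qa q (fun u => c (lf (q⁻¹ • a) b :: u)) := rfl
    rw [h1, ih]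
    rfl

/-- the words whose projection is in `W` -/
private def WJ (W : WSet Q (Lr I L)) : WSet Q (Lr (I × Bool) L) where
  s := {w | w.map pr ∈ W.s}
  nil := W.nil
  left u v h := by
    have h1 : (u ++ v).map pr ∈ W.s := h
    rw [List.map_append] at h1
    exact W.left _ _ h1
  right u v h := by
    have h1 : (u ++ v).map pr ∈ W.s := h
    rw [List.map_append] at h1
    exact W.right _ _ h1
  act q w := by
    have h1 : (w.map fun a : Lr (I × Bool) L => q • a).map pr = (w.map pr).map fun a => q • a := by
      rw [List.map_map, List.map_map]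
      rfl
    show (w.map fun a : Lr (I × Bool) L => q • a).map pr ∈ W.s ↔ w.map pr ∈ W.s
    rw [h1]
    exact W.act q _

private theorem spb_ext (s : I → Bool → R) {c c' : List (Lr (I × Bool) L) → R} {w : List (Lr I L)}
    (h : ∀ w' : List (Lr (I × Bool) L), w'.map pr = w → c w' = c' w') : spb s c w = spb s c' w := by
  induction w generalizing c c' with
  | nil => exact h [] rfl
  | cons a w ih =>
    rw [spb_cons, spb_cons]
    refine Finset.sum_congr rfl fun b _ => ?_
    rw [ih (c := fun u => c (lf a b :: u)) (c' := fun u => c' (lf a b :: u)) fun w' hw' => h _ (by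
      rw [List.map_cons, hw']
      rfl)]

private theorem spb_tr (W : WSet Q (Lr I L)) (s : I → Bool → R) (c : List (Lr (I × Bool) L) → R)
    (w : List (Lr I L)) : spb s (tr (WJ W) c) w = tr W (spb s c) w := by
  by_cases hw : w ∈ W.s
  · rw [tr, if_pos hw]
    refine spb_ext s fun w' hw' => ?_
    have h1 : w' ∈ (WJ W).s := by
      show w'.map pr ∈ W.s
      rw [hw']
      exact hw
    rw [tr, if_pos h1]
  · rw [tr, if_neg hw, ← spb_zero s w]
    refine spb_ext s fun w' hw' => ?_
    have h1 : w' ∉ (WJ W).s := by
      show ¬ w'.map pr ∈ W.s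
      rw [hw']
      exact hw
    rw [tr, if_neg h1]
    rfl

private theorem spb_e1 (s : I → Bool → R) : spb s (e1 : List (Lr (I × Bool) L) → R) = e1 := by
  funext w
  cases w with
  | nil => rfl
  | cons a w =>
    have h1 : ∀ b : Bool, (fun u => (e1 : List (Lr (I × Bool) L) → R) (lf a b :: u)) = 0 := by
      intro b
      funext u
      exact if_neg (by simp)
    rw [spb_cons, Finset.sum_eq_zero fun b _ => by rw [h1, spb_zero, mul_zero]]
    exact (if_neg (by simp)).symm

private theorem spb_el (s : I → Bool → R) (j : I) (b : Bool) (l : L) :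
    spb s (el (⟨(j, b), l⟩ : Lr (I × Bool) L) : List (Lr (I × Bool) L) → R) = s j b • el ⟨j, l⟩ := by
  funext w
  cases w with
  | nil =>
    show (if ([] : List (Lr (I × Bool) L)) = [⟨(j, b), l⟩] then (1 : R) else 0) =
      s j b * (if ([] : List (Lr I L)) = [⟨j, l⟩] then (1 : R) else 0)
    rw [if_neg (by simp), if_neg (by simp), mul_zero]
  | cons a w =>
    show _ = s j b * (if a :: w = [⟨j, l⟩] then (1 : R) else 0)
    rw [spb_cons]
    by_cases ha : a = ⟨j, l⟩
    · subst ha
      have h1 : ∀ b' : Bool, (fun u => (el (⟨(j, b), l⟩ : Lr (I × Bool) L) : List (Lr (I × Bool) L) → R)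
          (lf ⟨j, l⟩ b' :: u)) = if b' = b then e1 else 0 := by
        intro b'
        funext u
        split_ifs with hb
        · subst hb
          show (if lf ⟨j, l⟩ b' :: u = [⟨(j, b'), l⟩] then (1 : R) else 0) = if u = [] then 1 else 0
          by_cases hu : u = []
          · subst hu
            exact (if_pos rfl).trans (if_pos rfl).symm
          · rw [if_neg hu, if_neg]
            intro h
            exact hu (List.cons.inj h).2
        · show (if lf ⟨j, l⟩ b' :: u = [⟨(j, b), l⟩] then (1 : R) else 0) = 0
          rw [if_neg]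
          intro h
          have h2 := (List.cons.inj h).1
          have h3 := congrArg Lr.i h2
          exact hb (congrArg Prod.snd h3)
      rw [Finset.sum_eq_single b]
      · rw [h1, if_pos rfl, spb_e1]
        congr 1
        by_cases hw : w = []
        · subst hw
          rw [if_pos rfl]
          exact if_pos rfl
        · rw [if_neg (fun h => hw (List.cons.inj h).2)]
          exact if_neg hw
      · intro b' _ hb'
        rw [h1, if_neg hb', spb_zero, mul_zero]
      · intro h
        exact absurd (Finset.mem_univ b) h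
    · rw [if_neg (fun h => ha (List.cons.inj h).1), mul_zero]
      refine Finset.sum_eq_zero fun b' _ => ?_
      have h1 : (fun u => (el (⟨(j, b), l⟩ : Lr (I × Bool) L) : List (Lr (I × Bool) L) → R)
          (lf a b' :: u)) = 0 := by
        funext u
        show (if lf a b' :: u = [⟨(j, b), l⟩] then (1 : R) else 0) = 0
        rw [if_neg]
        intro h
        have h2 := (List.cons.inj h).1
        apply ha
        have h3 := congrArg Lr.i h2
        have h4 := congrArg Lr.l h2
        exact Lr.ext (congrArg Prod.fst h3) h4
      rw [h1, spb_zero, mul_zero]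

/-- specialisation as a hom -/
private def sph (W : WSet Q (Lr I L)) (s : I → Bool → R) : UG Q (Lr (I × Bool) L) R (WJ W) →* UG Q (Lr I L) R W :=
  MonoidHom.mk' (fun a => ⟨a.q, spb s a.c, a.one, fun w hw => by
    rw [← spb_zero s w]
    refine spb_ext s fun w' hw' => a.out w' ?_
    show ¬ w'.map pr ∈ W.s
    rw [hw']
    exact hw⟩) (by
    intro a b
    refine UG.ext rfl ?_
    funext w
    show spb s (tr (WJ W) (cv a.c (qa a.q b.c))) w = tr W (cv (spb s a.c) (qa a.q (spb s b.c))) w
    rw [spb_tr]
    unfold tr
    split_ifs
    · rw [spb_cv]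
      congr 1
      funext w'
      exact spb_qa s _ _ _
    · rfl)

/-- the universal hom over `I × Bool` -/
private def uu (R : Type) [CommRing R] (W : WSet Q (Lr I L)) (kd : Gn → Option (I × Bool)) (bs : Gn → Q) (lam : I → L) :
    FreeGroup Gn →* UG Q (Lr (I × Bool) L) R (WJ W) :=
  FreeGroup.lift fun x => match kd x with
    | none => qi (bs x)
    | some (j, b) => lt ⟨(j, b), lam j⟩ 1

private theorem unh_c (W : WSet Q (Lr I L)) (kd : Gn → Option (I × Bool)) (bs : Gn → Q) (lam : I → L)
    (s : I → Bool → R) (z : FreeGroup Gn) (w : List (Lr I L)) :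
    (unh W kd bs lam s z).c w = spb s (uu R W kd bs lam z).c w := by
  have h1 : unh W kd bs lam s = (sph W s).comp (uu R W kd bs lam) := by
    refine FreeGroup.ext_hom _ _ fun x => ?_
    rw [MonoidHom.comp_apply]
    unfold unh uu
    rw [FreeGroup.lift_apply_of, FreeGroup.lift_apply_of]
    rcases kd x with _ | ⟨j, b⟩
    · refine UG.ext rfl ?_
      exact (spb_e1 s).symm
    · refine UG.ext rfl ?_
      funext w
      show tr W (e1 + s j b • el ⟨j, lam j⟩) w = spb s (tr (WJ W) (e1 + (1 : R) • el ⟨(j, b), lam j⟩)) w
      rw [spb_tr]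
      unfold tr
      split_ifs
      · rw [spb_add, spb_smul, one_mul, spb_e1, spb_el]
        rfl
      · rfl
  rw [h1]
  rfl

/-- the lift of the word with second indices `e` -/
private def lw (e : I → Bool) (w : List (Lr I L)) : List (Lr (I × Bool) L) := w.map fun a => lf a (e a.i)

private theorem spb_abe (e : I → Bool) (c : List (Lr (I × Bool) L) → R) (w : List (Lr I L)) :
    spb (fun j b => if e j = b then 1 else 0) c w = c (lw e w) := by
  induction w generalizing c with
  | nil => rfl
  | cons a w ih =>
    rw [spb_cons, Finset.sum_eq_single (e a.i)]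
    · rw [if_pos rfl, one_mul, ih]
      rfl
    · intro b _ hb
      rw [if_neg (Ne.symm hb), zero_mul]
    · intro h
      exact absurd (Finset.mem_univ _) h

private theorem spb_all (s : I → Bool → R) (c : List (Lr (I × Bool) L) → R) (C : R) (w : List (Lr I L))
    (hw : (w.map Lr.i).Nodup) (h : ∀ e, c (lw e w) = C) :
    spb s c w = C * (w.map fun a => s a.i true + s a.i false).prod := by
  induction w generalizing c with
  | nil =>
    rw [List.map_nil, List.prod_nil, mul_one, spb_nil]
    exact h fun _ => true
  | cons a w ih =>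
    rw [List.map_cons, List.nodup_cons] at hw
    have h1 : ∀ b : Bool, spb s (fun u => c (lf a b :: u)) w =
        C * (w.map fun a => s a.i true + s a.i false).prod := by
      intro b
      refine ih _ hw.2 fun e => ?_
      rw [← h (Function.update e a.i b)]
      congr 1
      show lf a b :: lw e w = lf a (Function.update e a.i b a.i) :: lw (Function.update e a.i b) w
      rw [Function.update_self]
      congr 1
      refine List.map_congr_left fun a' ha' => ?_
      rw [Function.update_of_ne]
      intro h2
      exact hw.1 (List.mem_map.2 ⟨a', ha', h2⟩)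
    rw [spb_cons, Finset.sum_congr rfl fun b _ => by rw [h1 b], ← Finset.sum_mul, Fintype.sum_bool,
      List.map_cons, List.prod_cons]
    ring

/-- the relative coefficients are alternating sums: they vanish if the coefficients of the vertices are constant -/
theorem rel_zero {S : Set I} {n : ℕ} (kd : Gn → Option (I × Bool)) (bs : Gn → Q) (lam : I → L)
    (z : FreeGroup Gn) (w : List (Lr I L)) (hw : w ≠ []) (C : R)
    (h : ∀ e, (abe (WN Q L S n) kd bs lam e z : UG Q (Lr I L) R _).c w = C) :
    (rel (WN Q L S n) kd bs lam z : UG Q (Lr I L) R _).c w = 0 := by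
  by_cases hW : w ∈ (WN Q L S n).s
  · have h1 : ∀ e, (uu R (WN Q L S n) kd bs lam z).c (lw e w) = C := by
      intro e
      rw [← h e]
      unfold abe
      rw [unh_c, spb_abe]
    unfold rel
    rw [unh_c, spb_all _ _ C w hW.2.1 h1]
    obtain ⟨a, w', rfl⟩ := List.exists_cons_of_ne_nil hw
    rw [List.map_cons, List.prod_cons]
    simp
  · exact (rel (WN Q L S n) kd bs lam z).out w hW

/-- the coefficient of `w` depends only on the vertices `e i`, `i` an index of `w` -/
theorem abe_local {S : Set I} {n : ℕ} (kd : Gn → Option (I × Bool)) (bs : Gn → Q) (lam : I → L)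
    (z : FreeGroup Gn) (w : List (Lr I L)) (e e' : I → Bool) (h : ∀ a ∈ w, e a.i = e' a.i) :
    (abe (WN Q L S n) kd bs lam e z : UG Q (Lr I L) R _).c w =
      (abe (WN Q L S n) kd bs lam e' z : UG Q (Lr I L) R _).c w := by
  unfold abe
  rw [unh_c, unh_c, spb_abe, spb_abe]
  congr 1
  refine List.map_congr_left fun a ha => ?_
  rw [h a ha]

theorem cub_hk {m : ℕ} {f : ℕ → Subgroup P} (hF : Fl f) (kd : Gn → Option (Fin m × Bool)) (bs : Gn → P)
    (g : Fin m → P) (hg : ∀ j, g j ∈ f 1) (z : FreeGroup Gn) : IsHK f m 0 (cub kd bs g z) := by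
  have htop : ∀ a : P, a ∈ f 0 := fun a => by
    rw [hF.top]
    exact Subgroup.mem_top a
  have hof : ∀ x : Gn, IsHK f m 0 (cub kd bs g (FreeGroup.of x)) := by
    intro x
    unfold cub
    rw [FreeGroup.lift_apply_of]
    rcases kd x with _ | ⟨j, b⟩
    · exact hk_const (htop _)
    · exact hk_fa hF j b (hg j)
  induction z using FreeGroup.induction_on with
  | C1 =>
    rw [map_one]
    exact hk_const (htop 1)
  | of x => exact hof x
  | inv_of x _ =>
    rw [map_inv]
    exact hk_inv hF (hof x)
  | mul x y hx hy =>
    rw [map_mul]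
    exact hk_mul hF hx hy

theorem cub_face_hk {m : ℕ} {f : ℕ → Subgroup P} (hF : Fl f) (kd : Gn → Option (Fin (m + 1) × Bool))
    (bs : Gn → P) (g : Fin (m + 1) → P) (hg : ∀ j, g j ∈ f 1) (z : FreeGroup Gn) (k : Fin (m + 1))
    (b : Bool) : IsHK f m 0 (fun e => cub kd bs g z (k.insertNth b e)) := by
  have htop : ∀ a : P, a ∈ f 0 := fun a => by
    rw [hF.top]
    exact Subgroup.mem_top a
  have hof : ∀ x : Gn, IsHK f m 0 (fun e => cub kd bs g (FreeGroup.of x) (k.insertNth b e)) := by
    intro x
    unfold cub
    rw [FreeGroup.lift_apply_of]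
    rcases kd x with _ | ⟨j, b'⟩
    · exact hk_const (htop _)
    · show IsHK f m 0 (fun e => if (k.insertNth b e : Fin (m + 1) → Bool) j = b' then g j else 1)
      rcases eq_or_ne j k with hj | hj
      · subst hj
        simp only [Fin.insertNth_apply_same]
        exact hk_const (htop _)
      · obtain ⟨j', rfl⟩ := Fin.exists_succAbove_eq hj
        simp only [Fin.insertNth_apply_succAbove]
        exact hk_fa hF j' b' (hg _)
  induction z using FreeGroup.induction_on with
  | C1 =>
    rw [map_one]
    exact hk_const (htop 1)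
  | of x => exact hof x
  | inv_of x _ =>
    rw [map_inv]
    exact hk_inv hF (hof x)
  | mul x y hx hy =>
    rw [map_mul]
    exact hk_mul hF hx hy

end C

end H62.BL
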