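import Mathlib

/-!
# Noncommutative power series as functions on words

`Ser L R`: functions `List L → R` with the concatenation product `cv`. `U1 L R`: the group of the series with constant term 1.
`Mg Q L R = U1 L R ⋊ Q` for a group `Q` acting on the letters.
-/

set_option autoImplicit false

noncomputable section

namespace H42.WM

/-! ### the ring of series -/

/-- noncommutative power series: functions on words -/
def Ser (L R : Type) : Type := List L → R

variable {L R Q : Type}

instance Ser.acg [CommRing R] : AddCommGroup (Ser L R) :=
  inferInstanceAs (AddCommGroup (List L → R))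

/-- the concatenation product -/
def cv [CommRing R] (y f : List L → R) : List L → R
  | [] => y [] * f []
  | a :: w => y [] * f (a :: w) + cv (fun v => y (a :: v)) f w

section cvl

variable [CommRing R]

theorem cv_nil (y f : List L → R) : cv y f [] = y [] * f [] := by rw [cv]

theorem cv_cons (y f : List L → R) (a : L) (w : List L) :
    cv y f (a :: w) = y [] * f (a :: w) + cv (fun v => y (a :: v)) f w := by rw [cv]

theorem cv_add_left (y y' f : List L → R) (w : List L) :
    cv (fun v => y v + y' v) f w = cv y f w + cv y' f w := by
  induction w generalizing y y' with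
  | nil => simp only [cv_nil]; ring
  | cons a w ih => simp only [cv_cons]; rw [ih]; ring

theorem cv_smul_left (c : R) (y f : List L → R) (w : List L) :
    cv (fun v => c * y v) f w = c * cv y f w := by
  induction w generalizing y with
  | nil => simp only [cv_nil]; ring
  | cons a w ih => simp only [cv_cons]; rw [ih]; ring

theorem cv_add_right (y f f' : List L → R) (w : List L) :
    cv y (fun v => f v + f' v) w = cv y f w + cv y f' w := by
  induction w generalizing y with
  | nil => simp only [cv_nil]; ring
  | cons a w ih => simp only [cv_cons]; rw [ih]; ring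

theorem cv_assoc (y f g : List L → R) (w : List L) :
    cv (cv y f) g w = cv y (cv f g) w := by
  induction w generalizing y with
  | nil => simp only [cv_nil]; ring
  | cons a w ih =>
    have h1 : (fun v => cv y f (a :: v)) =
        fun v => y [] * f (a :: v) + cv (fun v => y (a :: v)) f v := by
      funext v
      rw [cv_cons]
    rw [cv_cons, cv_cons, h1, cv_add_left, cv_smul_left, ih, cv_nil, cv_cons f g]
    ring

theorem cv_one_left (f : List L → R) (w : List L) :
    cv (fun v => if v = [] then (1 : R) else 0) f w = f w := by
  cases w with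
  | nil => simp [cv_nil]
  | cons a w =>
    rw [cv_cons]
    have h1 : (fun v : List L => if a :: v = [] then (1 : R) else 0) = fun v => (0 : R) * 0 := by
      funext v
      simp
    rw [h1, cv_smul_left]
    simp

theorem cv_one_right (y : List L → R) (w : List L) :
    cv y (fun v => if v = [] then (1 : R) else 0) w = y w := by
  induction w generalizing y with
  | nil => simp [cv_nil]
  | cons a w ih =>
    rw [cv_cons, ih]
    simp

theorem cv_zero_right (y : List L → R) (w : List L) : cv y (fun _ => (0 : R)) w = 0 := by
  have h1 := cv_add_right y (fun _ => (0 : R)) (fun _ => 0) w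
  simpa using h1

/-- the product as a sum over the splittings of the word -/
theorem cv_eq (y f : List L → R) (w : List L) :
    cv y f w = ∑ i ∈ Finset.range (w.length + 1), y (w.take i) * f (w.drop i) := by
  induction w generalizing y with
  | nil => simp [cv_nil]
  | cons a w ih =>
    rw [cv_cons, ih, List.length_cons, Finset.sum_range_succ' _ (w.length + 1)]
    simp only [List.take_succ_cons, List.drop_succ_cons, List.take_zero, List.drop_zero]
    ring

/-- the product at `w` depends only on the values at the factors of `w` -/
theorem cv_congr {y y' f f' : List L → R} {w : List L}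
    (h : ∀ u v, u ++ v = w → y u = y' u ∧ f v = f' v) : cv y f w = cv y' f' w := by
  rw [cv_eq, cv_eq]
  refine Finset.sum_congr rfl fun i _ => ?_
  obtain ⟨h1, h2⟩ := h _ _ (List.take_append_drop i w)
  rw [h1, h2]

end cvl

instance [CommRing R] : Mul (Ser L R) := ⟨cv⟩
instance [CommRing R] : One (Ser L R) := ⟨fun v => by
  classical exact if v = [] then 1 else 0⟩

section rng

variable [CommRing R]

theorem Ser.mul_apply (y f : Ser L R) (w : List L) : (y * f) w = cv y f w := rfl

theorem Ser.add_apply (y f : Ser L R) (w : List L) : (y + f) w = y w + f w := rfl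

theorem Ser.sub_apply (y f : Ser L R) (w : List L) : (y - f) w = y w - f w := rfl

theorem Ser.neg_apply (y : Ser L R) (w : List L) : (-y) w = -(y w) := rfl

theorem Ser.zero_apply (w : List L) : (0 : Ser L R) w = 0 := rfl

theorem Ser.one_nil : (1 : Ser L R) [] = 1 := if_pos rfl

theorem Ser.one_cons (a : L) (w : List L) : (1 : Ser L R) (a :: w) = 0 := if_neg (by simp)

theorem Ser.one_ne {w : List L} (h : w ≠ []) : (1 : Ser L R) w = 0 := if_neg h

theorem Ser.one_eq : (1 : Ser L R) = fun v => if v = [] then (1 : R) else 0 := by
  funext v
  cases v with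
  | nil => exact Ser.one_nil
  | cons a w => rw [Ser.one_cons, if_neg (by simp)]

instance : Ring (Ser L R) :=
  { (Ser.acg : AddCommGroup (Ser L R)) with
    mul := (· * ·)
    one := 1
    left_distrib := fun y f g => funext fun w => cv_add_right y f g w
    right_distrib := fun y f g => funext fun w => cv_add_left y f g w
    zero_mul := fun f => by
      funext w
      change cv (fun _ => (0 : R)) f w = 0
      have h1 := cv_smul_left (0 : R) (fun _ : List L => (0 : R)) f w
      simpa using h1
    mul_zero := fun y => by
      funext w
      exact cv_zero_right y w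
    mul_assoc := fun y f g => funext fun w => cv_assoc y f g w
    one_mul := fun f => by
      funext w
      change cv (1 : Ser L R) f w = f w
      rw [Ser.one_eq]
      exact cv_one_left f w
    mul_one := fun f => by
      funext w
      change cv f (1 : Ser L R) w = f w
      rw [Ser.one_eq]
      exact cv_one_right f w }

end rng


/-! ### series with constant term 1 -/

section trunc

variable [CommRing R]

theorem Ser.mul_nil (y f : Ser L R) : (y * f) [] = y [] * f [] := cv_nil y f

theorem Ser.mul_eq (y f : Ser L R) (w : List L) :
    (y * f) w = ∑ i ∈ Finset.range (w.length + 1), y (w.take i) * f (w.drop i) := cv_eq y f w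

theorem Ser.mul_congr {y y' f f' : Ser L R} {w : List L}
    (h : ∀ u v, u ++ v = w → y u = y' u ∧ f v = f' v) : (y * f) w = (y' * f') w := cv_congr h

theorem Ser.sum_apply {α : Type} (s : Finset α) (f : α → Ser L R) (w : List L) :
    (∑ i ∈ s, f i) w = ∑ i ∈ s, f i w := by
  classical
  induction s using Finset.induction_on with
  | empty => simp [Ser.zero_apply]
  | insert a s ha ih => rw [Finset.sum_insert ha, Finset.sum_insert ha, Ser.add_apply, ih]

/-- powers of a series without constant term vanish on short words -/
theorem Ser.pow_short {z : Ser L R} (hz : z [] = 0) (n : ℕ) :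
    ∀ w : List L, w.length < n → (z ^ n) w = 0 := by
  induction n with
  | zero =>
    intro w hw
    exact absurd hw (Nat.not_lt_zero _)
  | succ n ih =>
    intro w hw
    rw [pow_succ', Ser.mul_eq]
    refine Finset.sum_eq_zero fun i hi => ?_
    rcases Nat.eq_zero_or_pos i with rfl | hi0
    · rw [List.take_zero, hz, zero_mul]
    · rcases Nat.eq_zero_or_pos w.length with h0 | h0
      · have h1 : w = [] := List.length_eq_zero_iff.1 h0
        subst h1
        rw [List.take_nil, hz, zero_mul]
      · rw [ih (w.drop i) (by rw [List.length_drop]; omega), mul_zero]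

/-- the inverse of a series with constant term 1 -/
def Ser.inv (y : Ser L R) : Ser L R := fun w => (∑ n ∈ Finset.range (w.length + 1), (1 - y) ^ n) w

theorem Ser.inv_nil (y : Ser L R) : y.inv [] = 1 := by
  change (∑ n ∈ Finset.range (0 + 1), (1 - y) ^ n) [] = 1
  rw [zero_add, Finset.sum_range_one, pow_zero, Ser.one_nil]

theorem Ser.inv_trunc {y : Ser L R} (hy : y [] = 1) (N : ℕ) (w : List L) (hw : w.length ≤ N) :
    y.inv w = (∑ n ∈ Finset.range (N + 1), (1 - y) ^ n) w := by
  have hz : (1 - y) [] = 0 := by rw [Ser.sub_apply, Ser.one_nil, hy, sub_self]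
  change (∑ n ∈ Finset.range (w.length + 1), (1 - y) ^ n) w = _
  rw [Ser.sum_apply, Ser.sum_apply]
  refine Finset.sum_subset (Finset.range_mono (by omega)) fun n _ hn => ?_
  rw [Finset.mem_range, not_lt] at hn
  exact Ser.pow_short hz n w (by omega)

theorem Ser.mul_inv {y : Ser L R} (hy : y [] = 1) : y * y.inv = 1 := by
  funext w
  have hz : (1 - y) [] = 0 := by rw [Ser.sub_apply, Ser.one_nil, hy, sub_self]
  have h1 : (y * y.inv) w = (y * ∑ n ∈ Finset.range (w.length + 1), (1 - y) ^ n) w := by
    refine Ser.mul_congr fun u v huv => ⟨rfl, Ser.inv_trunc hy _ v ?_⟩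
    rw [← huv, List.length_append]
    omega
  have h2 : (1 - (1 - y)) * ∑ n ∈ Finset.range (w.length + 1), (1 - y) ^ n =
      1 - (1 - y) ^ (w.length + 1) := mul_neg_geom_sum _ _
  rw [sub_sub_cancel] at h2
  rw [h1, h2, Ser.sub_apply, Ser.pow_short hz _ w (by omega), sub_zero]

end trunc

/-- series with constant term 1 -/
@[ext] structure U1 (L R : Type) [CommRing R] where
  /-- the series -/
  s : Ser L R
  nil : s [] = 1

namespace U1

variable [CommRing R]

instance : Mul (U1 L R) := ⟨fun a b => ⟨a.s * b.s, by rw [Ser.mul_nil, a.nil, b.nil, one_mul]⟩⟩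
instance : One (U1 L R) := ⟨⟨1, Ser.one_nil⟩⟩
instance : Inv (U1 L R) := ⟨fun a => ⟨a.s.inv, Ser.inv_nil _⟩⟩

theorem mul_s (a b : U1 L R) : (a * b).s = a.s * b.s := rfl

theorem one_s : (1 : U1 L R).s = 1 := rfl

theorem mul_inv (a : U1 L R) : a * a⁻¹ = 1 := U1.ext (Ser.mul_inv a.nil)

instance : Monoid (U1 L R) where
  mul_assoc a b c := U1.ext (mul_assoc a.s b.s c.s)
  one_mul a := U1.ext (one_mul a.s)
  mul_one a := U1.ext (mul_one a.s)

instance : Group (U1 L R) where
  inv_mul_cancel a := by
    calc a⁻¹ * a = a⁻¹ * a * (a⁻¹ * a⁻¹⁻¹) := by rw [mul_inv a⁻¹, mul_one]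
      _ = a⁻¹ * (a * a⁻¹) * a⁻¹⁻¹ := by simp only [mul_assoc]
      _ = 1 := by rw [mul_inv a, mul_one, mul_inv a⁻¹]

end U1

end H42.WM
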