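import Pool.Agent.H42.WM.CubA

/-!
# [H42 WM] functionals on cube groups

`Ad f n φ`: `φ` is additive on the cubes `IsHK f n 1` and zero on the cubes `IsHK f n 2`. Conjugation and commutators under such functionals; the
functional `χ (tp n ·)`.
-/

set_option autoImplicit false

open scoped Classical

noncomputable section

namespace H62.BL

variable {P : Type} [Group P] {f : ℕ → Subgroup P} {n p : ℕ}

/-- additive on `IsHK f n 1`, zero on `IsHK f n 2` -/
structure Ad (f : ℕ → Subgroup P) (n : ℕ) (φ : ((Fin n → Bool) → P) → ZMod p) : Prop where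
  add : ∀ x y, IsHK f n 1 x → IsHK f n 1 y → φ (x * y) = φ x + φ y
  zero : ∀ x, IsHK f n 2 x → φ x = 0

theorem hk_one (f : ℕ → Subgroup P) (n i : ℕ) : IsHK f n i 1 := hk_const (f i).one_mem

variable {φ : ((Fin n → Bool) → P) → ZMod p} {a b x y : (Fin n → Bool) → P} (hF : Fl f)

include hF

theorem hk_conj {i : ℕ} (ha : IsHK f n 0 a) (hx : IsHK f n i x) : IsHK f n i (a * x * a⁻¹) := by
  have h1 := hk_com hF ha hx
  rw [zero_add] at h1
  have h2 : a * x * a⁻¹ = (a * x * a⁻¹ * x⁻¹) * x := by group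
  rw [h2]
  exact hk_mul hF h1 hx

theorem hk_01 (ha : IsHK f n 1 a) : IsHK f n 0 a := hk_mono hF ha

theorem hk_12 (ha : IsHK f n 2 a) : IsHK f n 1 a := hk_mono hF ha

theorem hk_com01 (ha : IsHK f n 0 a) (hx : IsHK f n 1 x) : IsHK f n 1 (a * x * a⁻¹ * x⁻¹) := by
  have h1 := hk_com hF ha hx
  rwa [zero_add] at h1

theorem hk_com11 (ha : IsHK f n 1 a) (hx : IsHK f n 1 x) : IsHK f n 2 (a * x * a⁻¹ * x⁻¹) :=
  hk_com hF ha hx

theorem hk_com02 (ha : IsHK f n 0 a) (hx : IsHK f n 2 x) : IsHK f n 2 (a * x * a⁻¹ * x⁻¹) := by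
  have h1 := hk_com hF ha hx
  rwa [zero_add] at h1

omit hF in
theorem Ad.one (h : Ad f n φ) : φ 1 = 0 := h.zero 1 (hk_one f n 2)

theorem Ad.inv (h : Ad f n φ) (hx : IsHK f n 1 x) : φ x⁻¹ = -φ x := by
  have h1 := h.add x⁻¹ x (hk_inv hF hx) hx
  rw [inv_mul_cancel, h.one] at h1
  linear_combination -h1

theorem Ad.eq (h : Ad f n φ) (hy : IsHK f n 1 y)
    (hxy : IsHK f n 2 (x * y⁻¹)) : φ x = φ y := by
  have h1 : x = (x * y⁻¹) * y := by group
  rw [h1, h.add _ _ (hk_12 hF hxy) hy, h.zero _ hxy, zero_add]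

theorem Ad.conj (h : Ad f n φ) (ha : IsHK f n 0 a) : Ad f n fun x => φ (a * x * a⁻¹) where
  add x y hx hy := by
    have h1 : a * (x * y) * a⁻¹ = (a * x * a⁻¹) * (a * y * a⁻¹) := by group
    change φ (a * (x * y) * a⁻¹) = _
    rw [h1, h.add _ _ (hk_conj hF ha hx) (hk_conj hF ha hy)]
  zero x hx := h.zero _ (hk_conj hF ha hx)

theorem Ad.cadd (h : Ad f n φ) (ha : IsHK f n 0 a) (hx : IsHK f n 1 x) :
    φ (a * x * a⁻¹) = φ (a * x * a⁻¹ * x⁻¹) + φ x := by
  have h1 : a * x * a⁻¹ = (a * x * a⁻¹ * x⁻¹) * x := by group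
  rw [← h.add _ _ (hk_com01 hF ha hx) hx, ← h1]

theorem Ad.conj1 (h : Ad f n φ) (ha : IsHK f n 1 a) (hx : IsHK f n 1 x) :
    φ (a * x * a⁻¹) = φ x := by
  rw [h.cadd hF (hk_01 hF ha) hx, h.zero _ (hk_com11 hF ha hx), zero_add]

/-- the first entry of a commutator modulo `IsHK f n 1`, the second modulo `IsHK f n 2` -/
theorem hk_congr (ha : IsHK f n 0 a) (hab : IsHK f n 1 (b * a⁻¹)) (hx : IsHK f n 1 x)
    (hy : IsHK f n 1 y) (hxy : IsHK f n 2 (y * x⁻¹)) :
    IsHK f n 2 (b * y * b⁻¹ * y⁻¹ * (a * x * a⁻¹ * x⁻¹)⁻¹) := by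
  obtain ⟨u, hu⟩ : ∃ u, u = b * a⁻¹ := ⟨_, rfl⟩
  obtain ⟨v, hv⟩ : ∃ v, v = y * x⁻¹ := ⟨_, rfl⟩
  rw [← hu] at hab
  rw [← hv] at hxy
  have hb : b = u * a := by rw [hu]; group
  have hy' : y = v * x := by rw [hv]; group
  have h1 : b * y * b⁻¹ * y⁻¹ * (a * x * a⁻¹ * x⁻¹)⁻¹ =
      (u * (a * y * a⁻¹) * u⁻¹ * (a * y * a⁻¹)⁻¹) * ((a * v * a⁻¹ * v⁻¹) *
        (v * (a * x * a⁻¹ * x⁻¹) * v⁻¹ * (a * x * a⁻¹ * x⁻¹)⁻¹)) := by
    rw [hb, hy']
    group
  rw [h1]
  refine hk_mul hF (hk_com11 hF hab (hk_conj hF ha hy)) (hk_mul hF (hk_com02 hF ha hxy) ?_)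
  have h2 := hk_com hF hxy (hk_com01 hF ha hx)
  exact hk_mono hF h2

/-- elements on a face commute with elements supported on the face modulo `IsHK f n 2` -/
theorem hk_face (j : Fin n) {g : P} (hg : g ∈ f 1) (hx : IsHK f n 1 x)
    (hs : ∀ e : Fin n → Bool, e j = false → x e = 1) :
    IsHK f n 2 (fa j true g * x * (fa j true g)⁻¹ * x⁻¹) := by
  have h1 : fa j true g * x * (fa j true g)⁻¹ * x⁻¹ =
      (fun _ => g) * x * (fun _ => g)⁻¹ * x⁻¹ := by
    funext e
    simp only [Pi.mul_apply, Pi.inv_apply, fa]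
    rcases Bool.eq_false_or_eq_true (e j) with h | h
    · rw [if_pos h]
    · rw [hs e h]
      simp
  rw [h1]
  exact hk_com11 hF (hk_const hg) hx

/-! ### the top coefficient -/

theorem tp_mul (n : ℕ) : ∀ (i : ℕ), 1 ≤ i → ∀ x y : (Fin n → Bool) → P, IsHK f n i x → IsHK f n i y →
    tp n (x * y) * (tp n x * tp n y)⁻¹ ∈ f (n + i + 1) := by
  induction n with
  | zero =>
    intro i _ x y _ _
    have h1 : tp 0 (x * y) * (tp 0 x * tp 0 y)⁻¹ = 1 := by
      change x Fin.elim0 * y Fin.elim0 * (x Fin.elim0 * y Fin.elim0)⁻¹ = 1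
      group
    rw [h1]
    exact Subgroup.one_mem _
  | succ n ih =>
    intro i hi x y hx hy
    obtain ⟨x0, hx0⟩ : ∃ x0, x0 = hf false x := ⟨_, rfl⟩
    obtain ⟨y0, hy0⟩ : ∃ y0, y0 = hf false y := ⟨_, rfl⟩
    obtain ⟨u, hu⟩ : ∃ u, u = hf true x * (hf false x)⁻¹ := ⟨_, rfl⟩
    obtain ⟨v, hv⟩ : ∃ v, v = hf true y * (hf false y)⁻¹ := ⟨_, rfl⟩
    have hx' : IsHK f n i x0 ∧ IsHK f n (i + 1) u := by rw [hx0, hu]; exact hx
    have hy' : IsHK f n i y0 ∧ IsHK f n (i + 1) v := by rw [hy0, hv]; exact hy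
    have h1 : tp (n + 1) (x * y) = tp n (u * ((x0 * v * x0⁻¹ * v⁻¹) * v)) := by
      change tp n (hf true x * hf true y * (hf false x * hf false y)⁻¹) = _
      congr 1
      rw [hu, hv, hx0]
      group
    have h2 : tp (n + 1) x = tp n u := by rw [hu]; rfl
    have h3 : tp (n + 1) y = tp n v := by rw [hv]; rfl
    have hc : IsHK f n (i + (i + 1)) (x0 * v * x0⁻¹ * v⁻¹) := hk_com hF hx'.1 hy'.2
    have hm : ∀ (k : ℕ) (w : (Fin n → Bool) → P), IsHK f n (i + 2 + k) w → IsHK f n (i + 2) w := by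
      intro k
      induction k with
      | zero => intro w hw; exact hw
      | succ k ihk => intro w hw; exact ihk w (hk_mono hF hw)
    have hc2 : IsHK f n (i + 2) (x0 * v * x0⁻¹ * v⁻¹) := by
      refine hm (i - 1) _ ?_
      have h4 : i + 2 + (i - 1) = i + (i + 1) := by omega
      rwa [h4]
    have hc1 : IsHK f n (i + 1) (x0 * v * x0⁻¹ * v⁻¹) := hk_mono hF hc2
    have h4 := ih (i + 1) (by omega) u _ hx'.2 (hk_mul hF hc1 hy'.2)
    have h5 := ih (i + 1) (by omega) _ v hc1 hy'.2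
    have h6 : tp n (x0 * v * x0⁻¹ * v⁻¹) ∈ f (n + (i + 1) + 1) := by
      have h7 := hk_tp hF hc2
      have h8 : n + (i + 2) = n + (i + 1) + 1 := by omega
      rwa [h8] at h7
    have h7 : n + 1 + i + 1 = n + (i + 1) + 1 := by omega
    rw [h1, h2, h3, h7]
    have hnorm : ∀ g ∈ f (n + (i + 1) + 1), ∀ c : P, c * g * c⁻¹ ∈ f (n + (i + 1) + 1) := by
      intro g hg c
      have h8 := hF.com 0 (n + (i + 1) + 1) c (by rw [hF.top]; trivial) g hg
      rw [zero_add] at h8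
      have h9 : c * g * c⁻¹ = (c * g * c⁻¹ * g⁻¹) * g := by group
      rw [h9]
      exact Subgroup.mul_mem _ h8 hg
    have h8 : tp n (u * ((x0 * v * x0⁻¹ * v⁻¹) * v)) * (tp n u * tp n v)⁻¹ =
        (tp n (u * ((x0 * v * x0⁻¹ * v⁻¹) * v)) *
          (tp n u * tp n ((x0 * v * x0⁻¹ * v⁻¹) * v))⁻¹) *
        (tp n u * (tp n ((x0 * v * x0⁻¹ * v⁻¹) * v) *
          (tp n (x0 * v * x0⁻¹ * v⁻¹) * tp n v)⁻¹ * tp n (x0 * v * x0⁻¹ * v⁻¹)) *
          (tp n u)⁻¹) := by
      group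
    rw [h8]
    exact Subgroup.mul_mem _ h4 (hnorm _ (Subgroup.mul_mem _ h5 h6) _)

/-- the functional given by an additive function at the top coefficient -/
theorem ad_tp {n : ℕ} (hb : f (n + 2) = ⊥) {χ : P → ZMod p}
    (hχ : ∀ x ∈ f (n + 1), ∀ y ∈ f (n + 1), χ (x * y) = χ x + χ y) :
    Ad f n fun x => χ (tp n x) where
  add x y hx hy := by
    have h1 := tp_mul hF n 1 le_rfl x y hx hy
    have h2 : n + 1 + 1 = n + 2 := rfl
    rw [h2, hb, Subgroup.mem_bot, mul_inv_eq_one] at h1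
    change χ (tp n (x * y)) = _
    rw [h1]
    exact hχ _ (hk_tp hF hx) _ (hk_tp hF hy)
  zero x hx := by
    have h1 := hk_tp hF hx
    rw [hb, Subgroup.mem_bot] at h1
    have h2 := hχ 1 (Subgroup.one_mem _) 1 (Subgroup.one_mem _)
    rw [mul_one] at h2
    change χ (tp n x) = 0
    rw [h1]
    linear_combination -h2

omit hF

theorem tp_one (n : ℕ) : tp n (1 : (Fin n → Bool) → P) = 1 := by
  induction n with
  | zero => rfl
  | succ n ih =>
    change tp n (hf true 1 * (hf false 1)⁻¹) = 1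
    have h1 : hf true (1 : (Fin (n + 1) → Bool) → P) * (hf false 1)⁻¹ = 1 := by
      funext e
      simp [hf]
    rw [h1, ih]

/-- a function with support in the last vertex -/
theorem tp_last (n : ℕ) (x : (Fin n → Bool) → P) (hx : ∀ e, (∃ j, e j = false) → x e = 1) :
    tp n x = x fun _ => true := by
  induction n with
  | zero => exact congrArg x (Subsingleton.elim _ _)
  | succ n ih =>
    change tp n (hf true x * (hf false x)⁻¹) = _
    rw [ih]
    · change x (Fin.cons true fun _ => true) * (x (Fin.cons false fun _ => true))⁻¹ = _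
      rw [hx (Fin.cons false _) ⟨0, rfl⟩, inv_one, mul_one]
      congr 1
      funext j
      refine Fin.cases rfl (fun _ => rfl) j
    · rintro e ⟨j, hj⟩
      change x (Fin.cons true e) * (x (Fin.cons false e))⁻¹ = 1
      rw [hx (Fin.cons false _) ⟨0, rfl⟩, hx (Fin.cons true e) ⟨j.succ, hj⟩, inv_one, mul_one]

/-- a function which does not depend on a coordinate -/
theorem tp_indep (n : ℕ) (x : (Fin n → Bool) → P) (j : Fin n)
    (hx : ∀ e e' : Fin n → Bool, (∀ i, i ≠ j → e i = e' i) → x e = x e') : tp n x = 1 := by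
  induction n with
  | zero => exact j.elim0
  | succ n ih =>
    change tp n (hf true x * (hf false x)⁻¹) = 1
    rcases Fin.eq_zero_or_eq_succ j with rfl | ⟨j', rfl⟩
    · have h1 : hf true x * (hf false x)⁻¹ = 1 := by
        funext e
        change x (Fin.cons true e) * (x (Fin.cons false e))⁻¹ = 1
        rw [hx (Fin.cons true e) (Fin.cons false e), mul_inv_cancel]
        intro i hi
        obtain ⟨i', rfl⟩ := Fin.exists_succ_eq.2 hi
        rfl
      rw [h1, tp_one]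
    · refine ih _ j' fun e e' he => ?_
      have h1 : ∀ b, x (Fin.cons b e) = x (Fin.cons b e') := by
        intro b
        refine hx _ _ fun i hi => ?_
        rcases Fin.eq_zero_or_eq_succ i with rfl | ⟨i', rfl⟩
        · rfl
        · exact he i' fun h => hi (by rw [h])
      change x (Fin.cons true e) * (x (Fin.cons false e))⁻¹ =
        x (Fin.cons true e') * (x (Fin.cons false e'))⁻¹
      rw [h1, h1]

end H62.BL
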