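import Pool.Agent.H42.WM.TopA
import Pool.Agent.H42.WM.RelC

/-!
# [H42 WM] the elements `Eh w` of the cube group of a face, `w` a word

`k`: the index of the face. `Eh w`: the right normed commutator of the elements of the letters: the letter `(i, l)` is the constant `D.s l` for
`i = k.succAbove 0` (only the last letter), the element `D.s l` on the face `e j = true` for `i = k.succAbove j.succ`, and `1` for `i = k`.
-/

set_option autoImplicit false

open scoped Classical

noncomputable section

namespace H62.BL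

variable {P Q L : Type} [Group P] [Group Q] [MulAction Q L] {p n : ℕ}
  (D : LG p n P Q L) (k : Fin (n + 2))

/-- the element of a letter -/
def fle (a : Lr (Fin (n + 2)) L) : (Fin n → Bool) → P := fun e =>
  if a.i = k then 1 else
    if (k.insertNth true (Fin.cons true e : Fin (n + 1) → Bool) : Fin (n + 2) → Bool) a.i = true
    then D.s a.l else 1

/-- the element of a word -/
def Eh : List (Lr (Fin (n + 2)) L) → ((Fin n → Bool) → P)
  | [] => 1
  | [a] => if a.i = k.succAbove 0 then (fun _ => D.s a.l) else (1 : (Fin n → Bool) → P)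
  | a :: b :: w => fle D k a * Eh (b :: w) * (fle D k a)⁻¹ * (Eh (b :: w))⁻¹

theorem Eh_nil : Eh D k [] = 1 := by rw [Eh]

theorem Eh_one (a : Lr (Fin (n + 2)) L) :
    Eh D k [a] = if a.i = k.succAbove 0 then (fun _ => D.s a.l) else (1 : (Fin n → Bool) → P) := by
  rw [Eh]

theorem Eh_cons (a : Lr (Fin (n + 2)) L) {v : List (Lr (Fin (n + 2)) L)} (hv : v ≠ []) :
    Eh D k (a :: v) = fle D k a * Eh D k v * (fle D k a)⁻¹ * (Eh D k v)⁻¹ := by
  obtain ⟨b, w, rfl⟩ := List.exists_cons_of_ne_nil hv
  rw [Eh]

theorem fle_k {a : Lr (Fin (n + 2)) L} (h : a.i = k) : fle D k a = 1 := by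
  funext e
  exact if_pos h

theorem fle_0 {a : Lr (Fin (n + 2)) L} (h : a.i = k.succAbove 0) :
    fle D k a = fun _ => D.s a.l := by
  funext e
  rw [fle, if_neg (by rw [h]; exact Fin.succAbove_ne k 0), if_pos]
  rw [h, Fin.insertNth_apply_succAbove]
  rfl

theorem fle_s {a : Lr (Fin (n + 2)) L} {j : Fin n} (h : a.i = k.succAbove j.succ) :
    fle D k a = fa j true (D.s a.l) := by
  funext e
  rw [fle, if_neg (by rw [h]; exact Fin.succAbove_ne k _)]
  rw [h, Fin.insertNth_apply_succAbove]
  rfl

/-- the cases for an index -/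
theorem ix_cases (i : Fin (n + 2)) :
    i = k ∨ i = k.succAbove 0 ∨ ∃ j : Fin n, i = k.succAbove j.succ := by
  rcases eq_or_ne i k with h | h
  · exact Or.inl h
  · obtain ⟨j, hj⟩ := Fin.exists_succAbove_eq h
    rcases Fin.eq_zero_or_eq_succ j with rfl | ⟨j', rfl⟩
    · exact Or.inr (Or.inl hj.symm)
    · exact Or.inr (Or.inr ⟨j', hj.symm⟩)

theorem fle_hk (a : Lr (Fin (n + 2)) L) : IsHK D.f n 0 (fle D k a) := by
  rcases ix_cases k a.i with h | h | ⟨j, h⟩
  · rw [fle_k D k h]
    exact hk_one _ _ _
  · rw [fle_0 D k h]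
    exact hk_const (D.fl.anti 0 (D.s_mem a.l))
  · rw [fle_s D k h]
    exact hk_fa D.fl j true (D.s_mem a.l)

theorem Eh_hk (w : List (Lr (Fin (n + 2)) L)) : IsHK D.f n 1 (Eh D k w) := by
  induction w with
  | nil =>
    rw [Eh_nil]
    exact hk_one D.f n 1
  | cons a v ih =>
    rcases eq_or_ne v [] with rfl | hv
    · rw [Eh_one]
      split_ifs
      · exact hk_const (D.s_mem a.l)
      · exact hk_one _ _ _
    · rw [Eh_cons D k a hv]
      exact hk_com01 D.fl (fle_hk D k a) ih

theorem Eh_supp {w : List (Lr (Fin (n + 2)) L)} {j : Fin n}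
    (h : ∃ a ∈ w, a.i = k.succAbove j.succ) (e : Fin n → Bool) (he : e j = false) :
    Eh D k w e = 1 := by
  induction w with
  | nil => obtain ⟨a, ha, _⟩ := h; exact absurd ha (by simp)
  | cons a v ih =>
    rcases eq_or_ne v [] with rfl | hv
    · obtain ⟨b, hb, hb2⟩ := h
      rw [List.mem_singleton] at hb
      subst hb
      rw [Eh_one, if_neg]
      · rfl
      · rw [hb2]
        exact fun h => absurd (Fin.succAbove_right_injective h) (Fin.succ_ne_zero j)
    · rw [Eh_cons D k a hv]
      simp only [Pi.mul_apply, Pi.inv_apply]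
      obtain ⟨b, hb, hb2⟩ := h
      rcases List.mem_cons.1 hb with rfl | hb
      · have h1 : fle D k b e = 1 := by
          rw [fle_s D k hb2]
          exact if_neg (by rw [he]; simp)
        rw [h1]
        group
      · rw [ih ⟨b, hb, hb2⟩]
        group

theorem Eh_indep {w : List (Lr (Fin (n + 2)) L)} {j : Fin n}
    (h : ∀ a ∈ w, a.i ≠ k.succAbove j.succ) (e e' : Fin n → Bool)
    (he : ∀ i, i ≠ j → e i = e' i) : Eh D k w e = Eh D k w e' := by
  induction w with
  | nil => rw [Eh_nil]; rfl
  | cons a v ih =>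
    rcases eq_or_ne v [] with rfl | hv
    · rw [Eh_one]
      split_ifs <;> rfl
    · have h1 : fle D k a e = fle D k a e' := by
        rcases ix_cases k a.i with h2 | h2 | ⟨i, h2⟩
        · rw [fle_k D k h2]; rfl
        · rw [fle_0 D k h2]
        · rw [fle_s D k h2]
          have h3 : i ≠ j := by
            rintro rfl
            exact h a (List.mem_cons_self ..) h2
          change (if e i = true then D.s a.l else 1) = if e' i = true then D.s a.l else 1
          rw [he i h3]
      rw [Eh_cons D k a hv]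
      simp only [Pi.mul_apply, Pi.inv_apply]
      rw [h1, ih fun b hb => h b (List.mem_cons_of_mem _ hb)]

theorem Eh_k {w : List (Lr (Fin (n + 2)) L)} (h : ∃ a ∈ w, a.i = k) : Eh D k w = 1 := by
  induction w with
  | nil => rw [Eh_nil]
  | cons a v ih =>
    rcases eq_or_ne v [] with rfl | hv
    · obtain ⟨b, hb, hb2⟩ := h
      rw [List.mem_singleton] at hb
      subst hb
      rw [Eh_one, if_neg]
      rw [hb2]
      exact (Fin.succAbove_ne k 0).symm
    · rw [Eh_cons D k a hv]
      obtain ⟨b, hb, hb2⟩ := h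
      rcases List.mem_cons.1 hb with rfl | hb
      · rw [fle_k D k hb2]
        group
      · rw [ih ⟨b, hb, hb2⟩]
        group

theorem Eh_last {w : List (Lr (Fin (n + 2)) L)}
    (h : (w.map Lr.i).getLast? ≠ some (k.succAbove 0)) : Eh D k w = 1 := by
  induction w with
  | nil => rw [Eh_nil]
  | cons a v ih =>
    rcases eq_or_ne v [] with rfl | hv
    · rw [Eh_one, if_neg]
      intro h1
      apply h
      rw [← h1]
      rfl
    · rw [Eh_cons D k a hv, ih]
      · group
      · intro h1
        apply h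
        rw [← h1, List.map_cons, List.getLast?_cons_of_ne_nil]
        rwa [Ne, List.map_eq_nil_iff]

/-- the value at the last vertex -/
theorem Eh_top {w : List (Lr (Fin (n + 2)) L)} (hk : ∀ a ∈ w, a.i ≠ k)
    (h : (w.map Lr.i).getLast? = some (k.succAbove 0)) : Eh D k w (fun _ => true) = D.rw w := by
  induction w with
  | nil => simp at h
  | cons a v ih =>
    rcases eq_or_ne v [] with rfl | hv
    · have h1 : a.i = k.succAbove 0 := Option.some.inj h
      rw [Eh_one, if_pos h1]
      rfl
    · have hv' : v.map Lr.i ≠ [] := by rwa [Ne, List.map_eq_nil_iff]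
      rw [List.map_cons, List.getLast?_cons_of_ne_nil hv'] at h
      have h2 := ih (fun b hb => hk b (List.mem_cons_of_mem _ hb)) h
      have h3 : fle D k a (fun _ => true) = D.s a.l := by
        rcases ix_cases k a.i with h4 | h4 | ⟨j, h4⟩
        · exact absurd h4 (hk a (List.mem_cons_self ..))
        · rw [fle_0 D k h4]
        · rw [fle_s D k h4]
          exact if_pos rfl
      rw [Eh_cons D k a hv]
      simp only [Pi.mul_apply, Pi.inv_apply]
      rw [h2, h3]
      obtain ⟨b, w, rfl⟩ := List.exists_cons_of_ne_nil hv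
      rfl

/-- conjugation by a constant -/
theorem Eh_act (y : P) (w : List (Lr (Fin (n + 2)) L)) :
    IsHK D.f n 2 (Eh D k (w.map fun a => D.pi y • a) *
      ((fun _ => y) * Eh D k w * (fun _ => y)⁻¹)⁻¹) := by
  have hc : IsHK D.f n 0 (fun _ => y) := hk_const (by rw [D.fl.top]; trivial)
  induction w with
  | nil =>
    rw [List.map_nil, Eh_nil]
    have h1 : (1 : (Fin n → Bool) → P) * ((fun _ => y) * 1 * (fun _ => y)⁻¹)⁻¹ = 1 := by group
    rw [h1]
    exact hk_one _ _ _
  | cons a v ih =>
    rcases eq_or_ne v [] with rfl | hv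
    · rw [List.map_singleton, Eh_one, Eh_one]
      by_cases h : a.i = k.succAbove 0
      · rw [if_pos h, if_pos (show (D.pi y • a).i = k.succAbove 0 from h)]
        exact hk_const (D.s_act y a.l)
      · rw [if_neg h, if_neg (show ¬ (D.pi y • a).i = k.succAbove 0 from h)]
        have h1 : (1 : (Fin n → Bool) → P) * ((fun _ => y) * 1 * (fun _ => y)⁻¹)⁻¹ = 1 := by group
        rw [h1]
        exact hk_one _ _ _
    · have hv' : (v.map fun a => D.pi y • a) ≠ [] := by rwa [Ne, List.map_eq_nil_iff]
      rw [List.map_cons, Eh_cons D k _ hv', Eh_cons D k a hv]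
      have h1 : (fun _ => y) * (fle D k a * Eh D k v * (fle D k a)⁻¹ * (Eh D k v)⁻¹) *
          (fun _ => y)⁻¹ = ((fun _ => y) * fle D k a * (fun _ => y)⁻¹) *
          ((fun _ => y) * Eh D k v * (fun _ => y)⁻¹) *
          ((fun _ => y) * fle D k a * (fun _ => y)⁻¹)⁻¹ *
          ((fun _ => y) * Eh D k v * (fun _ => y)⁻¹)⁻¹ := by group
      rw [h1]
      refine hk_congr D.fl (hk_conj D.fl hc (fle_hk D k a)) ?_
        (hk_conj D.fl hc (Eh_hk D k v)) (Eh_hk D k _) ih
      have hs : ∀ l : L, D.s (D.pi y • l) * (y * D.s l * y⁻¹)⁻¹ ∈ D.f 2 := D.s_act y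
      rcases ix_cases k a.i with h4 | h4 | ⟨j, h4⟩
      · rw [fle_k D k h4, fle_k D k (a := D.pi y • a) h4]
        have h5 : (1 : (Fin n → Bool) → P) * ((fun _ => y) * 1 * (fun _ => y)⁻¹)⁻¹ = 1 := by group
        rw [h5]
        exact hk_one _ _ _
      · rw [fle_0 D k h4, fle_0 D k (a := D.pi y • a) h4]
        exact hk_12 D.fl (hk_const (hs a.l))
      · rw [fle_s D k h4, fle_s D k (a := D.pi y • a) h4]
        have h5 : fa j true (D.s (D.pi y • a).l) *
            ((fun _ => y) * fa j true (D.s a.l) * (fun _ => y)⁻¹)⁻¹ =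
            (fa j true (D.s (D.pi y • a.l) * (y * D.s a.l * y⁻¹)⁻¹) : (Fin n → Bool) → P) := by
          funext e
          simp only [Pi.mul_apply, Pi.inv_apply, fa]
          split_ifs
          · rfl
          · group
        rw [h5]
        exact hk_fa D.fl j true (hs a.l)

end H62.BL
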