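import Pool.Agent.H42.WM.TopB

/-!
# [H42 WM] the crossed homomorphism of a face (proof of the top lemma)

`fh β z`: the half `β` of the face `k`, `b` of the cube of `z`. `prg c φ`: the sum of `c w * φ (Eh w)` over the words of `WN`. `EQ y`: the rule
for the action of `y` on functions on words. It holds for generators and is stable under products and inverses.
-/

set_option autoImplicit false

open scoped Classical

noncomputable section

namespace H62.BL

variable {Gn P Q L : Type} [Group P] [Group Q] [MulAction Q L] [Fintype L] {p n : ℕ}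
  (D : LG p n P Q L) (k : Fin (n + 2))

/-- the finite set of words -/
def Wf (Q L : Type) [Group Q] [MulAction Q L] [Fintype L] (n : ℕ) :
    Finset (List (Lr (Fin (n + 2)) L)) :=
  (wn_finite (Q := Q) (L := L) (Set.univ : Set (Fin (n + 2))) (n + 1)).toFinset

theorem mem_Wf {w : List (Lr (Fin (n + 2)) L)} :
    w ∈ Wf Q L n ↔ w ∈ (WN Q L (Set.univ : Set (Fin (n + 2))) (n + 1)).s := Set.Finite.mem_toFinset _

/-- the pairing of functions on words with functionals -/
def prg (c : List (Lr (Fin (n + 2)) L) → ZMod p) (φ : ((Fin n → Bool) → P) → ZMod p) : ZMod p :=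
  ∑ w ∈ Wf Q L n, c w * φ (Eh D k w)

theorem prg_tr (c : List (Lr (Fin (n + 2)) L) → ZMod p) (φ : ((Fin n → Bool) → P) → ZMod p) :
    prg D k (tr (WN Q L Set.univ (n + 1)) c) φ = prg D k c φ := by
  refine Finset.sum_congr rfl fun w hw => ?_
  rw [tr_of (mem_Wf.1 hw)]

section rho

variable {α R : Type} [MulAction Q α] [CommRing R] {W : WSet Q α}

/-- the action on functions on words -/
def rho (u : UG Q α R W) (c : List α → R) : List α → R := tr W (cv u.c (qa u.q c))

theorem rho_mul (u v : UG Q α R W) (c : List α → R) : rho (u * v) c = rho u (rho v c) := by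
  rw [rho, rho, rho, ug_mul_c, ug_mul_q, tr_cv_left, ← tr_qa, tr_cv_right, qa_cv, qa_mul]
  funext w
  by_cases h : w ∈ W.s
  · rw [tr_of h, tr_of h, cv_assoc]
  · rw [tr_out h, tr_out h]

theorem rho_one (c : List α → R) : rho (1 : UG Q α R W) c = tr W c := by
  rw [rho, ug_one_c, ug_one_q, qa_one]
  congr 1
  funext w
  exact cv_one_left c w

theorem rho_e1 (u : UG Q α R W) : rho u e1 = u.c := by
  rw [rho, qa_e1]
  have h1 : cv u.c e1 = u.c := funext fun w => cv_one_right u.c w
  rw [h1, tr_self]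

theorem rho_nil (u : UG Q α R W) (c : List α → R) : rho u c [] = c [] := by
  rw [rho, tr_of W.nil, cv_nil, u.one, one_mul, qa, List.map_nil]

end rho

/-- the half `β` of the face `k`, `b` of the cube of `z` -/
def fh (kd : Gn → Option (Fin (n + 2) × Bool)) (bs : Gn → P) (g : Fin (n + 2) → P) (b β : Bool) :
    FreeGroup Gn →* ((Fin n → Bool) → P) where
  toFun z e := cub kd bs g z (k.insertNth b (Fin.cons β e : Fin (n + 1) → Bool))
  map_one' := by
    funext e
    rw [map_one]
    rfl
  map_mul' y z := by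
    funext e
    rw [map_mul]
    rfl

variable (kd : Gn → Option (Fin (n + 2) × Bool)) (bs : Gn → P) (g : Fin (n + 2) → P)
  (lam : Fin (n + 2) → L) (b : Bool)

/-- the rule for the action of `y` -/
def EQ (y : FreeGroup Gn) : Prop :=
  ∀ (c : List (Lr (Fin (n + 2)) L) → ZMod p) (φ : ((Fin n → Bool) → P) → ZMod p), Ad D.f n φ →
    prg D k (rho (rel (WN Q L Set.univ (n + 1)) kd (fun x => D.pi (bs x)) lam y) c) φ =
      prg D k c (fun x => φ (fh k kd bs g b false y * x * (fh k kd bs g b false y)⁻¹)) +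
        c [] * φ (fh k kd bs g b true y * (fh k kd bs g b false y)⁻¹)

section closure

variable {D k kd bs g lam b}

theorem fh_hk (hg : ∀ j, g j ∈ D.f 1) (y : FreeGroup Gn) :
    IsHK D.f n 0 (fh k kd bs g b false y) ∧
      IsHK D.f n 1 (fh k kd bs g b true y * (fh k kd bs g b false y)⁻¹) :=
  cub_face_hk D.fl kd bs g hg y k b

theorem EQ_one : EQ D k kd bs g lam b 1 := by
  intro c φ hφ
  rw [map_one, rho_one, prg_tr, map_one, map_one]
  have h1 : (1 : (Fin n → Bool) → P) * 1⁻¹ = 1 := by group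
  rw [h1, hφ.one, mul_zero, add_zero]
  refine Finset.sum_congr rfl fun w _ => ?_
  congr 2
  group

theorem EQ_mul (hg : ∀ j, g j ∈ D.f 1) {y z : FreeGroup Gn} (hy : EQ D k kd bs g lam b y)
    (hz : EQ D k kd bs g lam b z) : EQ D k kd bs g lam b (y * z) := by
  intro c φ hφ
  obtain ⟨hy0, hy1⟩ := fh_hk (k := k) (kd := kd) (bs := bs) (b := b) hg y
  obtain ⟨hz0, hz1⟩ := fh_hk (k := k) (kd := kd) (bs := bs) (b := b) hg z
  rw [map_mul, rho_mul, hy _ φ hφ, rho_nil, hz c _ (hφ.conj D.fl hy0), map_mul, map_mul, add_assoc]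
  congr 1
  · refine Finset.sum_congr rfl fun w _ => ?_
    congr 2
    group
  · rw [← mul_add]
    congr 1
    have h1 : fh k kd bs g b true y * fh k kd bs g b true z *
        (fh k kd bs g b false y * fh k kd bs g b false z)⁻¹ =
        (fh k kd bs g b true y * (fh k kd bs g b false y)⁻¹) *
          (fh k kd bs g b false y * (fh k kd bs g b true z * (fh k kd bs g b false z)⁻¹) *
            (fh k kd bs g b false y)⁻¹) := by group
    rw [h1, hφ.add _ _ hy1 (hk_conj D.fl hy0 hz1)]
    ring

theorem EQ_inv (hg : ∀ j, g j ∈ D.f 1) {y : FreeGroup Gn} (hy : EQ D k kd bs g lam b y) :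
    EQ D k kd bs g lam b y⁻¹ := by
  intro c φ hφ
  obtain ⟨hy0, hy1⟩ := fh_hk (k := k) (kd := kd) (bs := bs) (b := b) hg y
  have hi0 := hk_inv D.fl hy0
  have h1 := hy (rho (rel (WN Q L Set.univ (n + 1)) kd (fun x => D.pi (bs x)) lam y⁻¹) c) _
    (hφ.conj D.fl hi0)
  rw [← rho_mul, ← map_mul, mul_inv_cancel, map_one, rho_one, prg_tr, rho_nil] at h1
  have h2 : prg D k (rho (rel (WN Q L Set.univ (n + 1)) kd (fun x => D.pi (bs x)) lam y⁻¹) c)
      (fun x => (fun x => φ ((fh k kd bs g b false y)⁻¹ * x * (fh k kd bs g b false y)⁻¹⁻¹))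
        (fh k kd bs g b false y * x * (fh k kd bs g b false y)⁻¹)) =
      prg D k (rho (rel (WN Q L Set.univ (n + 1)) kd (fun x => D.pi (bs x)) lam y⁻¹) c) φ := by
    refine Finset.sum_congr rfl fun w _ => ?_
    congr 2
    group
  rw [h2] at h1
  rw [map_inv (fh k kd bs g b false), map_inv (fh k kd bs g b true)]
  have h3 : φ ((fh k kd bs g b true y)⁻¹ * (fh k kd bs g b false y)⁻¹⁻¹) =
      -φ ((fh k kd bs g b false y)⁻¹ * (fh k kd bs g b true y * (fh k kd bs g b false y)⁻¹) *
        (fh k kd bs g b false y)⁻¹⁻¹) := by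
    rw [← hφ.inv D.fl (hk_conj D.fl hi0 hy1)]
    congr 1
    group
  rw [h3]
  linear_combination -h1

end closure

end H62.BL
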