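import Pool.Agent.H42.WM.TopC

/-!
# [H42 WM D] the top lemma (statement: helper62)
-/

set_option autoImplicit false

open scoped Classical

noncomputable section

namespace H62.BL

section gen

variable {Gn P Q L : Type} [Group P] [Group Q] [MulAction Q L] [Fintype L] {p n : ℕ}
  {D : LG p n P Q L} {k : Fin (n + 2)}
  {kd : Gn → Option (Fin (n + 2) × Bool)} {bs : Gn → P} {g : Fin (n + 2) → P}
  {lam : Fin (n + 2) → L} {b : Bool}

theorem fh_of (β : Bool) (x : Gn) (e : Fin n → Bool) :
    fh k kd bs g b β (FreeGroup.of x) e = (match kd x with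
      | none => (fun _ => bs x : (Fin (n + 2) → Bool) → P)
      | some (j, b') => fa j b' (g j)) (k.insertNth b (Fin.cons β e : Fin (n + 1) → Bool)) := by
  change cub kd bs g (FreeGroup.of x) _ = _
  rw [cub, FreeGroup.lift_apply_of]
  rcases kd x with _ | ⟨j, b'⟩ <;> rfl

theorem rel_of {Gn I L Q R : Type} [Group Q] [MulAction Q L] [CommRing R]
    (W : WSet Q (Lr I L)) (kd : Gn → Option (I × Bool)) (bs : Gn → Q) (lam : I → L) (x : Gn) :
    (rel W kd bs lam (FreeGroup.of x) : UG Q (Lr I L) R W) = (match kd x with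
      | none => qi (bs x)
      | some (j, b) => lt ⟨j, lam j⟩ (if b then 1 else -1)) := by
  rw [rel, unh, FreeGroup.lift_apply_of]
  rcases kd x with _ | ⟨j, b'⟩ <;> rfl

/-- the shift by a letter -/
theorem prg_shift (a : Lr (Fin (n + 2)) L) (c F : List (Lr (Fin (n + 2)) L) → ZMod p) :
    ∑ w ∈ Wf Q L n, cv (el a) c w * F w =
      ∑ v ∈ Wf Q L n, if a :: v ∈ Wf Q L n then c v * F (a :: v) else 0 := by
  have h1 : ∑ w ∈ Wf Q L n, cv (el a) c w * F w =
      ∑ w ∈ (Wf Q L n).filter (fun w => ∃ v, w = a :: v), c w.tail * F w := by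
    rw [Finset.sum_filter]
    refine Finset.sum_congr rfl fun w _ => ?_
    rw [cv_el_left]
    rcases w with _ | ⟨x, v⟩
    · rw [if_neg (by rintro ⟨v, hv⟩; exact absurd hv (by simp))]
      exact zero_mul _
    · by_cases hx : x = a
      · subst hx
        rw [if_pos ⟨v, rfl⟩]
        exact congrArg (· * F (x :: v)) (if_pos rfl)
      · rw [if_neg (by rintro ⟨v', hv'⟩; exact hx (List.cons.inj hv').1)]
        exact (congrArg (· * F (x :: v)) (if_neg hx)).trans (zero_mul _)
  rw [h1, ← Finset.sum_filter]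
  refine Finset.sum_nbij' (fun w => w.tail) (fun v => a :: v) ?_ ?_ ?_ ?_ ?_
  · intro w hw
    obtain ⟨hw1, v, rfl⟩ := Finset.mem_filter.1 hw
    refine Finset.mem_filter.2 ⟨?_, hw1⟩
    exact mem_Wf.2 ((WN Q L Set.univ (n + 1)).right [a] v (mem_Wf.1 hw1))
  · intro v hv
    exact Finset.mem_filter.2 ⟨(Finset.mem_filter.1 hv).2, v, rfl⟩
  · intro w hw
    obtain ⟨_, v, rfl⟩ := Finset.mem_filter.1 hw
    rfl
  · intro v _
    rfl
  · intro w hw
    obtain ⟨_, v, rfl⟩ := Finset.mem_filter.1 hw
    rfl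

/-- conjugation by the element of a face -/
theorem face_conj {φ : ((Fin n → Bool) → P) → ZMod p} (hφ : Ad D.f n φ) (i : Fin n) {u : P}
    (hu : u ∈ D.f 1) {x : (Fin n → Bool) → P} (hx : IsHK D.f n 1 x) :
    φ (fa i true u * x * (fa i true u)⁻¹) = φ x + φ (fa i true u * x * (fa i true u)⁻¹ * x⁻¹) ∧
      φ (fa i false u * x * (fa i false u)⁻¹) =
        φ x - φ (fa i true u * x * (fa i true u)⁻¹ * x⁻¹) := by
  have ht : IsHK D.f n 0 (fa i true u) := hk_fa D.fl i true hu
  have hc : IsHK D.f n 1 (fun _ => u) := hk_const hu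
  have hc0 : IsHK D.f n 0 (fun _ => u) := hk_01 D.fl hc
  refine ⟨by rw [hφ.cadd D.fl ht hx, add_comm], ?_⟩
  obtain ⟨y, hy⟩ : ∃ y, y = fa i true u * x * (fa i true u)⁻¹ * x⁻¹ := ⟨_, rfl⟩
  have hy1 : IsHK D.f n 1 y := by rw [hy]; exact hk_com01 D.fl ht hx
  have hti := hk_inv D.fl ht
  have h1 : (fa i false u : (Fin n → Bool) → P) = (fun _ => u) * (fa i true u)⁻¹ := by
    funext e
    simp only [Pi.mul_apply, Pi.inv_apply, fa]
    rcases Bool.eq_false_or_eq_true (e i) with h | h
    · rw [h]; simp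
    · rw [h]; simp
  have h2 : fa i false u * x * (fa i false u)⁻¹ =
      (fun _ => u) * ((fa i true u)⁻¹ * x * (fa i true u)⁻¹⁻¹) * (fun _ => u)⁻¹ := by
    rw [h1]
    group
  have h3 : (fa i true u)⁻¹ * x * (fa i true u)⁻¹⁻¹ =
      (fa i true u)⁻¹ * y⁻¹ * (fa i true u)⁻¹⁻¹ * x := by
    rw [hy]
    group
  have h4 : IsHK D.f n 1 ((fa i true u)⁻¹ * y⁻¹ * (fa i true u)⁻¹⁻¹) :=
    hk_conj D.fl hti (hk_inv D.fl hy1)
  have h5 : φ ((fa i true u)⁻¹ * y⁻¹ * (fa i true u)⁻¹⁻¹) = φ y⁻¹ := by
    refine hφ.eq D.fl (hk_inv D.fl hy1) ?_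
    have h6 : ((fa i true u)⁻¹ : (Fin n → Bool) → P) = fa i true u⁻¹ := by
      funext e
      simp only [Pi.inv_apply, fa]
      split_ifs
      · rfl
      · exact inv_one
    rw [inv_inv] at h4 ⊢
    have h7 : (fa i true u)⁻¹ * y⁻¹ * fa i true u * y⁻¹⁻¹ =
        fa i true u⁻¹ * y⁻¹ * (fa i true u⁻¹)⁻¹ * y⁻¹⁻¹ := by
      simp only [← h6, inv_inv]
    rw [h7]
    refine hk_face D.fl i (inv_mem hu) (hk_inv D.fl hy1) fun e he => ?_
    rw [hy]
    simp only [Pi.mul_apply, Pi.inv_apply, fa]
    rw [he]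
    simp
  rw [h2, hφ.conj1 D.fl hc (hk_conj D.fl hti hx), h3, hφ.add _ _ h4 hx, h5,
    hφ.inv D.fl hy1, ← hy]
  ring

/-- the rule for the generator `q_j^b'` at a word -/
theorem gen_claim {φ : ((Fin n → Bool) → P) → ZMod p} (hφ : Ad D.f n φ) (j : Fin (n + 2))
    (b' : Bool) {u : P} {l : L} (hu : u * (D.s l)⁻¹ ∈ D.f 2)
    (A T : (Fin n → Bool) → P)
    (hA : A = fun e => (fa j b' u : (Fin (n + 2) → Bool) → P)
      (k.insertNth b (Fin.cons false e : Fin (n + 1) → Bool)))
    (hT : T = fun e => (fa j b' u : (Fin (n + 2) → Bool) → P)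
      (k.insertNth b (Fin.cons true e : Fin (n + 1) → Bool)))
    {v : List (Lr (Fin (n + 2)) L)} (hv : v ∈ Wf Q L n) :
    φ (Eh D k v) + (if b' then 1 else -1) *
        (if (⟨j, l⟩ : Lr (Fin (n + 2)) L) :: v ∈ Wf Q L n then φ (Eh D k (⟨j, l⟩ :: v)) else 0) =
      φ (A * Eh D k v * A⁻¹) + if v = [] then φ (T * A⁻¹) else 0 := by
  have hu1 : u ∈ D.f 1 := by
    have h1 : u = (u * (D.s l)⁻¹) * D.s l := by group
    rw [h1]
    exact Subgroup.mul_mem _ (D.fl.anti 1 hu) (D.s_mem l)
  have hone : ∀ x : (Fin n → Bool) → P, x * 1 * x⁻¹ = 1 := fun x => by group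
  have hnil : [(⟨j, l⟩ : Lr (Fin (n + 2)) L)] ∈ Wf Q L n :=
    mem_Wf.2 ⟨by simp, by simp, by simp⟩
  obtain ⟨E, hE⟩ : ∃ E, E = Eh D k v := ⟨_, rfl⟩
  have hE1 : IsHK D.f n 1 E := by rw [hE]; exact Eh_hk D k v
  rcases ix_cases k j with hj | hj | ⟨i, hj⟩
  · -- direction `k`
    have hA' : A = fun _ => if b = b' then u else 1 := by
      rw [hA]
      funext e
      rw [fa, hj, Fin.insertNth_apply_same]
    have hT' : T = fun _ => if b = b' then u else 1 := by
      rw [hT]
      funext e
      rw [fa, hj, Fin.insertNth_apply_same]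
    have hA1 : IsHK D.f n 1 A := by
      rw [hA']
      refine hk_const ?_
      split_ifs
      · exact hu1
      · exact Subgroup.one_mem _
    have h1 : Eh D k (⟨j, l⟩ :: v) = 1 := Eh_k D k ⟨_, List.mem_cons_self .., hj⟩
    have h2 : T * A⁻¹ = 1 := by rw [hT', hA', mul_inv_cancel]
    rw [h1, hφ.one, ite_self, mul_zero, add_zero, h2, hφ.one, ite_self, add_zero, ← hE,
      hφ.conj1 D.fl hA1 hE1]
  · -- direction `k.succAbove 0`
    have hval : ∀ β : Bool, (fun e : Fin n → Bool => (fa j b' u : (Fin (n + 2) → Bool) → P)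
        (k.insertNth b (Fin.cons β e : Fin (n + 1) → Bool))) = fun _ => if β = b' then u else 1 := by
      intro β
      funext e
      rw [fa, hj, Fin.insertNth_apply_succAbove]
      rfl
    have hA' : A = fun _ => if false = b' then u else 1 := by rw [hA, hval]
    have hT' : T = fun _ => if true = b' then u else 1 := by rw [hT, hval]
    have hA1 : IsHK D.f n 1 A := by
      rw [hA']
      refine hk_const ?_
      split_ifs
      · exact hu1
      · exact Subgroup.one_mem _
    rw [← hE, hφ.conj1 D.fl hA1 hE1]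
    rcases eq_or_ne v [] with rfl | hv0
    · rw [if_pos hnil, if_pos rfl, Eh_one, if_pos hj]
      have h3 : φ (fun _ => D.s l) = φ (fun _ => u) := by
        symm
        refine hφ.eq D.fl (hk_const (D.s_mem l)) ?_
        exact hk_const hu
      rw [h3]
      have h4 : φ (T * A⁻¹) = (if b' then 1 else -1) * φ (fun _ => u) := by
        rcases Bool.eq_false_or_eq_true b' with hb | hb
        · have h5 : T * A⁻¹ = fun _ => u := by
            rw [hT', hA']
            funext e
            simp [hb]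
          rw [h5, hb]
          simp
        · have h5 : T * A⁻¹ = (fun _ => u)⁻¹ := by
            rw [hT', hA']
            funext e
            simp [hb]
          rw [h5, hφ.inv D.fl (hk_const hu1), hb]
          simp
      rw [h4]
    · rw [if_neg hv0, add_zero]
      have h3 : (if (⟨j, l⟩ : Lr (Fin (n + 2)) L) :: v ∈ Wf Q L n then
          φ (Eh D k (⟨j, l⟩ :: v)) else 0) = 0 := by
        split_ifs with hm
        · by_cases hl : (v.map Lr.i).getLast? = some (k.succAbove 0)
          · exfalso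
            have h4 := (mem_Wf.1 hm).2.1
            rw [List.map_cons, List.nodup_cons] at h4
            apply h4.1
            change j ∈ v.map Lr.i
            rw [hj]
            exact List.mem_of_getLast? hl
          · rw [Eh_cons D k _ hv0, Eh_last D k hl]
            have h4 : fle D k ⟨j, l⟩ * 1 * (fle D k ⟨j, l⟩)⁻¹ * 1⁻¹ = 1 := by group
            rw [h4, hφ.one]
        · rfl
      rw [h3, mul_zero, add_zero]
  · -- direction `k.succAbove i.succ`
    have hval : ∀ β : Bool, (fun e : Fin n → Bool => (fa j b' u : (Fin (n + 2) → Bool) → P)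
        (k.insertNth b (Fin.cons β e : Fin (n + 1) → Bool))) = fa i b' u := by
      intro β
      funext e
      rw [fa, hj, Fin.insertNth_apply_succAbove]
      rfl
    have hA' : A = fa i b' u := by rw [hA, hval]
    have hT' : T = fa i b' u := by rw [hT, hval]
    have h2 : T * A⁻¹ = 1 := by rw [hT', hA', mul_inv_cancel]
    rw [h2, hφ.one, ite_self, add_zero, ← hE, hA']
    have hlet : fle D k ⟨j, l⟩ = fa i true (D.s l) := fle_s D k hj
    rcases eq_or_ne v [] with rfl | hv0
    · have h3 : E = 1 := by rw [hE, Eh_nil]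
      have h5 : Eh D k [(⟨j, l⟩ : Lr (Fin (n + 2)) L)] = 1 := by
        rw [Eh_one, if_neg]
        change ¬ j = k.succAbove 0
        rw [hj]
        exact fun h => absurd (Fin.succAbove_right_injective h) (Fin.succ_ne_zero i)
      rw [if_pos hnil, h5, hφ.one, h3, hone, hφ.one, mul_zero, add_zero]
    · have hcong : φ (Eh D k (⟨j, l⟩ :: v)) =
          φ (fa i true u * E * (fa i true u)⁻¹ * E⁻¹) := by
        rw [Eh_cons D k _ hv0, ← hE, hlet]
        symm
        refine hφ.eq D.fl (hk_com01 D.fl (hk_fa D.fl i true (D.s_mem l)) hE1) ?_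
        refine hk_congr D.fl (hk_fa D.fl i true (D.s_mem l)) ?_ hE1 hE1 ?_
        · have h5 : (fa i true u * (fa i true (D.s l))⁻¹ : (Fin n → Bool) → P) =
              fa i true (u * (D.s l)⁻¹) := by
            funext e
            simp only [Pi.mul_apply, Pi.inv_apply, fa]
            split_ifs
            · rfl
            · group
          rw [h5]
          exact hk_fa D.fl i true hu
        · rw [mul_inv_cancel]
          exact hk_one D.f n 2
      have hin : (∃ a ∈ v, a.i = j) →
          φ (fa i true u * E * (fa i true u)⁻¹ * E⁻¹) = 0 := by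
        intro h
        refine hφ.zero _ (hk_face D.fl i hu1 hE1 fun e he => ?_)
        rw [hE]
        refine Eh_supp D k ?_ e he
        obtain ⟨a, ha, ha2⟩ := h
        exact ⟨a, ha, ha2.trans hj⟩
      have hout : (⟨j, l⟩ : Lr (Fin (n + 2)) L) :: v ∉ Wf Q L n →
          φ (fa i true u * E * (fa i true u)⁻¹ * E⁻¹) = 0 := by
        intro hm
        by_cases h : ∃ a ∈ v, a.i = j
        · exact hin h
        · by_cases hk : ∃ a ∈ v, a.i = k
          · rw [hE, Eh_k D k hk]
            have h5 : fa i true u * 1 * (fa i true u)⁻¹ * 1⁻¹ = (1 : (Fin n → Bool) → P) := by group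
            rw [h5, hφ.one]
          · exfalso
            apply hm
            obtain ⟨hv1, hv2, hv3⟩ := mem_Wf.1 hv
            have hnd : ((⟨j, l⟩ : Lr (Fin (n + 2)) L) :: v).map Lr.i |>.Nodup := by
              rw [List.map_cons, List.nodup_cons]
              refine ⟨fun hmem => h ?_, hv2⟩
              obtain ⟨a, ha, ha2⟩ := List.mem_map.1 hmem
              exact ⟨a, ha, ha2⟩
            refine mem_Wf.2 ⟨?_, hnd, fun a _ => trivial⟩
            have hkj : k ≠ j := by
              rw [hj]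
              exact (Fin.succAbove_ne k _).symm
            have hnd2 : (k :: ((⟨j, l⟩ : Lr (Fin (n + 2)) L) :: v).map Lr.i).Nodup := by
              rw [List.nodup_cons]
              refine ⟨fun hmem => ?_, hnd⟩
              rw [List.map_cons, List.mem_cons] at hmem
              rcases hmem with hmem | hmem
              · exact hkj hmem
              · obtain ⟨a, ha, ha2⟩ := List.mem_map.1 hmem
                exact hk ⟨a, ha, ha2⟩
            have h6 := hnd2.length_le_card
            rw [Fintype.card_fin, List.length_cons, List.length_map] at h6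
            omega
      obtain ⟨hc1, hc2⟩ := face_conj hφ i hu1 hE1
      have hite : (if (⟨j, l⟩ : Lr (Fin (n + 2)) L) :: v ∈ Wf Q L n then
          φ (Eh D k (⟨j, l⟩ :: v)) else 0) = φ (fa i true u * E * (fa i true u)⁻¹ * E⁻¹) := by
        split_ifs with hm
        · exact hcong
        · exact (hout hm).symm
      rw [hite]
      rcases Bool.eq_false_or_eq_true b' with hb | hb
      · rw [hb, hc1]
        simp
      · rw [hb, hc2]
        simp
        ring

theorem EQ_of (hg : ∀ j, g j * (D.s (lam j))⁻¹ ∈ D.f 2) (x : Gn) :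
    EQ D k kd bs g lam b (FreeGroup.of x) := by
  intro c φ hφ
  rw [rel_of]
  rcases hx : kd x with _ | ⟨j, b'⟩
  · -- fixed generator
    have hf : ∀ β, fh k kd bs g b β (FreeGroup.of x) = fun _ => bs x := by
      intro β
      funext e
      rw [fh_of, hx]
    rw [hf, hf, mul_inv_cancel, hφ.one, mul_zero, add_zero]
    have h1 : rho (qi (D.pi (bs x)) : UG Q (Lr (Fin (n + 2)) L) (ZMod p)
        (WN Q L Set.univ (n + 1))) c = tr (WN Q L Set.univ (n + 1)) (qa (D.pi (bs x)) c) := by
      have h2 : cv e1 (qa (D.pi (bs x)) c) = qa (D.pi (bs x)) c :=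
        funext fun w => cv_one_left _ w
      change tr _ (cv e1 (qa (D.pi (bs x)) c)) = _
      rw [h2]
    change prg D k (rho (qi (D.pi (bs x)) : UG Q (Lr (Fin (n + 2)) L) (ZMod p)
        (WN Q L Set.univ (n + 1))) c) φ = _
    rw [h1, prg_tr]
    refine Finset.sum_nbij' (fun w => w.map fun a => (D.pi (bs x))⁻¹ • a)
      (fun w => w.map fun a => D.pi (bs x) • a) ?_ ?_ ?_ ?_ ?_
    · intro w hw
      exact mem_Wf.2 (((WN Q L Set.univ (n + 1)).act _ w).2 (mem_Wf.1 hw))
    · intro w hw
      exact mem_Wf.2 (((WN Q L Set.univ (n + 1)).act _ w).2 (mem_Wf.1 hw))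
    · intro w _
      rw [List.map_map]
      have h3 : ((fun a : Lr (Fin (n + 2)) L => D.pi (bs x) • a) ∘
          fun a => (D.pi (bs x))⁻¹ • a) = id := funext fun a => smul_inv_smul _ _
      rw [h3, List.map_id]
    · intro w _
      rw [List.map_map]
      have h3 : ((fun a : Lr (Fin (n + 2)) L => (D.pi (bs x))⁻¹ • a) ∘
          fun a => D.pi (bs x) • a) = id := funext fun a => inv_smul_smul _ _
      rw [h3, List.map_id]
    · intro w _
      change c (w.map fun a => (D.pi (bs x))⁻¹ • a) * φ (Eh D k w) = _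
      congr 1
      have h4 := Eh_act D k (bs x) (w.map fun a => (D.pi (bs x))⁻¹ • a)
      rw [List.map_map] at h4
      have h3 : ((fun a : Lr (Fin (n + 2)) L => D.pi (bs x) • a) ∘
          fun a => (D.pi (bs x))⁻¹ • a) = id := funext fun a => smul_inv_smul _ _
      rw [h3, List.map_id] at h4
      exact hφ.eq D.fl (hk_conj D.fl (hk_const (by rw [D.fl.top]; trivial)) (Eh_hk D k _)) h4
  · -- prime of the cube
    have hf : ∀ β, fh k kd bs g b β (FreeGroup.of x) = fun e =>
        (fa j b' (g j) : (Fin (n + 2) → Bool) → P)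
          (k.insertNth b (Fin.cons β e : Fin (n + 1) → Bool)) := by
      intro β
      funext e
      rw [fh_of, hx]
    obtain ⟨ε, hε⟩ : ∃ ε : ZMod p, ε = if b' then 1 else -1 := ⟨_, rfl⟩
    have h1 : rho (lt ⟨j, lam j⟩ ε : UG Q (Lr (Fin (n + 2)) L) (ZMod p)
        (WN Q L Set.univ (n + 1))) c = tr (WN Q L Set.univ (n + 1))
          (fun w => c w + ε * cv (el ⟨j, lam j⟩) c w) := by
      rw [rho, lt_c, lt_q, qa_one, tr_cv_left]
      congr 1
      funext w
      have h2 : (e1 + ε • el ⟨j, lam j⟩ : List (Lr (Fin (n + 2)) L) → ZMod p) =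
        fun v => e1 v + ε * el ⟨j, lam j⟩ v := rfl
      rw [h2, cv_add_left, cv_one_left, cv_smul_left]
    change prg D k (rho (lt ⟨j, lam j⟩ (if b' then 1 else -1) :
      UG Q (Lr (Fin (n + 2)) L) (ZMod p) (WN Q L Set.univ (n + 1))) c) φ = _
    rw [← hε, h1, prg_tr]
    have h3 : prg D k (fun w => c w + ε * cv (el ⟨j, lam j⟩) c w) φ =
        ∑ v ∈ Wf Q L n, c v * (φ (Eh D k v) + ε *
          (if (⟨j, lam j⟩ : Lr (Fin (n + 2)) L) :: v ∈ Wf Q L n then
            φ (Eh D k (⟨j, lam j⟩ :: v)) else 0)) := by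
      have h4 := prg_shift (Q := Q) (p := p) (n := n) (⟨j, lam j⟩ : Lr (Fin (n + 2)) L) c
        fun w => φ (Eh D k w)
      calc prg D k (fun w => c w + ε * cv (el ⟨j, lam j⟩) c w) φ
          = ∑ v ∈ Wf Q L n, c v * φ (Eh D k v) +
            ε * ∑ w ∈ Wf Q L n, cv (el ⟨j, lam j⟩) c w * φ (Eh D k w) := by
            rw [Finset.mul_sum, ← Finset.sum_add_distrib]
            exact Finset.sum_congr rfl fun w _ => by ring
        _ = _ := by
            rw [h4, Finset.mul_sum, ← Finset.sum_add_distrib]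
            refine Finset.sum_congr rfl fun w _ => ?_
            split_ifs <;> ring
    rw [h3]
    have h5 : ∀ v ∈ Wf Q L n, c v * (φ (Eh D k v) + ε *
          (if (⟨j, lam j⟩ : Lr (Fin (n + 2)) L) :: v ∈ Wf Q L n then
            φ (Eh D k (⟨j, lam j⟩ :: v)) else 0)) =
        c v * φ (fh k kd bs g b false (FreeGroup.of x) * Eh D k v *
          (fh k kd bs g b false (FreeGroup.of x))⁻¹) +
        if v = [] then c [] * φ (fh k kd bs g b true (FreeGroup.of x) *
          (fh k kd bs g b false (FreeGroup.of x))⁻¹) else 0 := by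
      intro v hv
      rw [hε, gen_claim hφ j b' (hg j) _ _ (hf false) (hf true) hv, mul_add]
      congr 1
      split_ifs with h0
      · rw [h0]
      · rw [mul_zero]
    rw [Finset.sum_congr rfl h5, Finset.sum_add_distrib, Finset.sum_ite_eq' , if_pos]
    · rfl
    · exact mem_Wf.2 (WN Q L Set.univ (n + 1)).nil

theorem EQ_all (hg : ∀ j, g j * (D.s (lam j))⁻¹ ∈ D.f 2) (y : FreeGroup Gn) :
    EQ D k kd bs g lam b y := by
  have hg1 : ∀ j, g j ∈ D.f 1 := by
    intro j
    have h1 : g j = (g j * (D.s (lam j))⁻¹) * D.s (lam j) := by group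
    rw [h1]
    exact Subgroup.mul_mem _ (D.fl.anti 1 (hg j)) (D.s_mem _)
  induction y using FreeGroup.induction_on with
  | C1 => exact EQ_one
  | of x => exact EQ_of hg x
  | inv_of x h => exact EQ_inv hg1 h
  | mul y z hy hz => exact EQ_mul hg1 hy hz

end gen

section D

variable {Gn P Q L : Type} [Group P] [Group Q] [MulAction Q L] [Fintype L] {p n : ℕ} [Fact p.Prime]

/-- TOP LEMMA -/
theorem top_lemma (D : LG p n P Q L) (kd : Gn → Option (Fin (n + 2) × Bool)) (bs : Gn → P)
    (g : Fin (n + 2) → P) (lam : Fin (n + 2) → L) (hg : ∀ j, g j * (D.s (lam j))⁻¹ ∈ D.f 2)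
    (z : FreeGroup Gn) (k : Fin (n + 2)) (b : Bool) (χ : P → ZMod p)
    (hχ : ∀ x ∈ D.f (n + 1), ∀ y ∈ D.f (n + 1), χ (x * y) = χ x + χ y) :
    χ (tp (n + 1) (fun e => cub kd bs g z (k.insertNth b e))) =
      ∑ t : Fin (n + 1) → Lr (Fin (n + 2)) L,
        if (∀ i, (t i).i ≠ k) ∧ (t (Fin.last n)).i = k.succAbove 0 then
          (rel (WN Q L Set.univ (n + 1)) kd (fun x => D.pi (bs x)) lam z :
            UG Q _ (ZMod p) _).c (List.ofFn t) * χ (D.rw (List.ofFn t)) else 0 := by
  have hφ := ad_tp D.fl D.bot hχ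
  have h1 := EQ_all (D := D) (k := k) (kd := kd) (bs := bs) (g := g) (lam := lam) (b := b) hg z
    e1 _ hφ
  rw [rho_e1] at h1
  have h2 : prg D k (e1 : List (Lr (Fin (n + 2)) L) → ZMod p)
      (fun x => (fun x => χ (tp n x)) (fh k kd bs g b false z * x * (fh k kd bs g b false z)⁻¹)) =
      0 := by
    refine Finset.sum_eq_zero fun w _ => ?_
    rcases eq_or_ne w [] with rfl | hw
    · rw [Eh_nil]
      have h3 : fh k kd bs g b false z * 1 * (fh k kd bs g b false z)⁻¹ = 1 := by group
      change _ * χ (tp n (fh k kd bs g b false z * 1 * (fh k kd bs g b false z)⁻¹)) = 0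
      rw [h3]
      exact mul_eq_zero_of_right _ hφ.one
    · have h3 : (e1 : List (Lr (Fin (n + 2)) L) → ZMod p) w = 0 := if_neg hw
      rw [h3, zero_mul]
  have h3 : (e1 : List (Lr (Fin (n + 2)) L) → ZMod p) [] = 1 := if_pos rfl
  rw [h2, zero_add, h3, one_mul] at h1
  have h4 : tp (n + 1) (fun e => cub kd bs g z (k.insertNth b e)) =
      tp n (fh k kd bs g b true z * (fh k kd bs g b false z)⁻¹) := rfl
  rw [h4]
  change χ (tp n (fh k kd bs g b true z * (fh k kd bs g b false z)⁻¹)) = _
  rw [← h1]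
  -- words of length `n + 1`
  obtain ⟨r, hr⟩ : ∃ r : UG Q (Lr (Fin (n + 2)) L) (ZMod p) (WN Q L Set.univ (n + 1)),
    r = rel (WN Q L Set.univ (n + 1)) kd (fun x => D.pi (bs x)) lam z := ⟨_, rfl⟩
  rw [← hr]
  change ∑ w ∈ Wf Q L n, r.c w * χ (tp n (Eh D k w)) = _
  have hχ1 : χ 1 = 0 := by
    have h5 := hχ 1 (Subgroup.one_mem _) 1 (Subgroup.one_mem _)
    rw [mul_one] at h5
    linear_combination -h5
  have hval : ∀ w ∈ Wf Q L n, χ (tp n (Eh D k w)) =
      if w.length = n + 1 ∧ (∀ a ∈ w, a.i ≠ k) ∧ (w.map Lr.i).getLast? = some (k.succAbove 0) then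
        χ (D.rw w) else 0 := by
    intro w hw
    obtain ⟨hw1, hw2, -⟩ := mem_Wf.1 hw
    by_cases hk : ∃ a ∈ w, a.i = k
    · rw [Eh_k D k hk, tp_one, hχ1, if_neg]
      rintro ⟨-, h5, -⟩
      obtain ⟨a, ha, ha2⟩ := hk
      exact h5 a ha ha2
    · have hk' : ∀ a ∈ w, a.i ≠ k := fun a ha ha2 => hk ⟨a, ha, ha2⟩
      by_cases hl : (w.map Lr.i).getLast? = some (k.succAbove 0)
      · by_cases hn : w.length = n + 1
        · rw [if_pos ⟨hn, hk', hl⟩, ← Eh_top D k hk' hl, tp_last]
          rintro e ⟨j, hj⟩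
          refine Eh_supp D k ?_ e hj
          -- the index `k.succAbove j.succ` occurs
          by_contra hcon
          have hnd : (k.succAbove j.succ :: k :: w.map Lr.i).Nodup := by
            rw [List.nodup_cons, List.nodup_cons, List.mem_cons]
            refine ⟨?_, ?_, hw2⟩
            · rintro (h5 | h5)
              · exact Fin.succAbove_ne k _ h5
              · obtain ⟨a, ha, ha2⟩ := List.mem_map.1 h5
                exact hcon ⟨a, ha, ha2⟩
            · intro h5
              obtain ⟨a, ha, ha2⟩ := List.mem_map.1 h5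
              exact hk' a ha ha2
          have h6 := hnd.length_le_card
          rw [Fintype.card_fin, List.length_cons, List.length_cons, List.length_map] at h6
          omega
        · rw [if_neg fun h => hn h.1]
          -- some index does not occur
          have hex : ∃ j : Fin n, ∀ a ∈ w, a.i ≠ k.succAbove j.succ := by
            by_contra hcon
            push Not at hcon
            have h5 : (Finset.univ.erase k) ⊆ (w.map Lr.i).toFinset := by
              intro i hi
              rcases ix_cases k i with h6 | h6 | ⟨j, h6⟩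
              · exact absurd h6 (Finset.ne_of_mem_erase hi)
              · rw [List.mem_toFinset, h6]
                exact List.mem_of_getLast? hl
              · obtain ⟨a, ha, ha2⟩ := hcon j
                rw [List.mem_toFinset, h6, ← ha2]
                exact List.mem_map_of_mem ha
            have h6 := Finset.card_le_card h5
            rw [Finset.card_erase_of_mem (Finset.mem_univ k), Finset.card_univ, Fintype.card_fin,
              List.toFinset_card_of_nodup hw2, List.length_map] at h6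
            omega
          obtain ⟨j, hj⟩ := hex
          rw [tp_indep n _ j fun e e' he => Eh_indep D k hj e e' he, hχ1]
      · rw [Eh_last D k hl, tp_one, hχ1, if_neg fun h => hl h.2.2]
  have h6 : ∑ w ∈ Wf Q L n, r.c w * χ (tp n (Eh D k w)) =
      ∑ w ∈ (Wf Q L n).filter (fun w => w.length = n + 1), (if (∀ a ∈ w, a.i ≠ k) ∧
        (w.map Lr.i).getLast? = some (k.succAbove 0) then r.c w * χ (D.rw w) else 0) := by
    rw [Finset.sum_filter]
    refine Finset.sum_congr rfl fun w hw => ?_
    rw [hval w hw]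
    by_cases h7 : w.length = n + 1
    · rw [if_pos h7]
      by_cases h8 : (∀ a ∈ w, a.i ≠ k) ∧ (w.map Lr.i).getLast? = some (k.succAbove 0)
      · rw [if_pos ⟨h7, h8⟩, if_pos h8]
      · rw [if_neg fun h => h8 h.2, if_neg h8, mul_zero]
    · rw [if_neg h7, if_neg fun h => h7 h.1, mul_zero]
  rw [h6]
  symm
  have hcond : ∀ t : Fin (n + 1) → Lr (Fin (n + 2)) L,
      ((∀ i, (t i).i ≠ k) ∧ (t (Fin.last n)).i = k.succAbove 0) ↔
      ((∀ a ∈ List.ofFn t, a.i ≠ k) ∧ ((List.ofFn t).map Lr.i).getLast? = some (k.succAbove 0)) := by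
    intro t
    have h7 : ((List.ofFn t).map Lr.i).getLast? = some (t (Fin.last n)).i := by
      rw [List.map_ofFn, List.getLast?_eq_getElem?, List.length_ofFn, Nat.add_sub_cancel,
        List.getElem?_ofFn]
      rw [dif_pos (Nat.lt_succ_self n)]
      rfl
    rw [h7, Option.some_inj]
    refine and_congr ⟨fun h a ha => ?_, fun h i => h _ (List.mem_ofFn.2 ⟨i, rfl⟩)⟩ Iff.rfl
    obtain ⟨i, rfl⟩ := List.mem_ofFn.1 ha
    exact h i
  rw [← Finset.sum_filter_add_sum_filter_not Finset.univ
    (fun t : Fin (n + 1) → Lr (Fin (n + 2)) L => List.ofFn t ∈ Wf Q L n)]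
  have h8 : ∑ t ∈ Finset.univ.filter (fun t : Fin (n + 1) → Lr (Fin (n + 2)) L =>
      ¬ List.ofFn t ∈ Wf Q L n), (if (∀ i, (t i).i ≠ k) ∧ (t (Fin.last n)).i = k.succAbove 0 then
        r.c (List.ofFn t) * χ (D.rw (List.ofFn t)) else 0) = 0 := by
    refine Finset.sum_eq_zero fun t ht => ?_
    rw [r.out _ fun h => (Finset.mem_filter.1 ht).2 (mem_Wf.2 h), zero_mul, ite_self]
  rw [h8, add_zero]
  refine Finset.sum_nbij (fun t => List.ofFn t) ?_ ?_ ?_ ?_
  · intro t ht
    exact Finset.mem_filter.2 ⟨(Finset.mem_filter.1 ht).2, List.length_ofFn⟩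
  · intro t _ t' _ h
    exact List.ofFn_injective h
  · intro w hw
    obtain ⟨hw1, hw2⟩ := Finset.mem_filter.1 (Finset.mem_coe.1 hw)
    have h9 : List.ofFn (fun i : Fin (n + 1) => w.get (i.cast hw2.symm)) = w := by
      apply List.ext_getElem
      · rw [List.length_ofFn, hw2]
      · intro i h h'
        rw [List.getElem_ofFn]
        rfl
    refine ⟨fun i : Fin (n + 1) => w.get (i.cast hw2.symm), ?_, h9⟩
    rw [Finset.mem_coe, Finset.mem_filter]
    exact ⟨Finset.mem_univ _, by rw [h9]; exact hw1⟩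
  · intro t _
    by_cases h9 : (∀ i, (t i).i ≠ k) ∧ (t (Fin.last n)).i = k.succAbove 0
    · rw [if_pos h9, if_pos ((hcond t).1 h9)]
    · rw [if_neg h9, if_neg fun h => h9 ((hcond t).2 h)]

end D

end H62.BL
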